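import Mathlib

namespace Pool.Agent.W_MP_27356f_gt

theorem comm_pow_aux {Q : Type*} [Group Q] {c x y : Q} (hc : ∀ q, Commute c q)
    (h : x * y * x⁻¹ * y⁻¹ = c) (a b : ℕ) : x ^ a * y ^ b = c ^ (a * b) * (y ^ b * x ^ a) := by
  have h1 : x * y * x⁻¹ = c * y := by rw [← h]; group
  have h2 : x * y ^ b * x⁻¹ = c ^ b * y ^ b := by
    rw [← (hc y).mul_pow, ← h1, conj_pow]
  have h3 : (y ^ b)⁻¹ * x * ((y ^ b)⁻¹)⁻¹ = c ^ b * x := by
    have h4 : x * y ^ b = c ^ b * y ^ b * x := by rw [← h2]; group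
    have h5 : (c ^ b) * y ^ b = y ^ b * c ^ b := ((hc (y ^ b)).pow_left b)
    rw [inv_inv, mul_assoc, h4, h5]
    group
  have h6 : (y ^ b)⁻¹ * x ^ a * ((y ^ b)⁻¹)⁻¹ = c ^ (a * b) * x ^ a := by
    rw [← conj_pow, h3, ((hc x).pow_left b).mul_pow, ← pow_mul, mul_comm b a]
  have h7 : x ^ a * y ^ b = y ^ b * (c ^ (a * b) * x ^ a) := by
    rw [← h6]; group
  have h8 : c ^ (a * b) * y ^ b = y ^ b * c ^ (a * b) := ((hc (y ^ b)).pow_left (a * b))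
  rw [h7, ← mul_assoc, ← h8, mul_assoc]

theorem conj_eq_pow_aux {Q : Type*} [Group Q] {c x y m : Q} (hc : ∀ q, Commute c q)
    (h : x * y * x⁻¹ * y⁻¹ = c) (n : ℕ)
    (hx : ∃ z, (∀ q, Commute z q) ∧ m * x * m⁻¹ = x ^ n * z)
    (hy : ∃ z, (∀ q, Commute z q) ∧ m * y * m⁻¹ = y ^ n * z) : c = c ^ (n * n) := by
  obtain ⟨z, hz, hxz⟩ := hx
  obtain ⟨w, hw, hyw⟩ := hy
  have h1 : m * c * m⁻¹ = c := by
    rw [← (hc m).eq]; group
  have h2 : m * c * m⁻¹ = (m * x * m⁻¹) * (m * y * m⁻¹) * (m * x * m⁻¹)⁻¹ * (m * y * m⁻¹)⁻¹ := by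
    rw [← h]; group
  have h3 := comm_pow_aux hc h n n
  have h4 : x ^ n * z * (y ^ n * w) = c ^ (n * n) * ((y ^ n * w) * (x ^ n * z)) := by
    calc x ^ n * z * (y ^ n * w) = x ^ n * (z * y ^ n) * w := by group
      _ = x ^ n * (y ^ n * z) * w := by rw [(hz (y ^ n)).eq]
      _ = (x ^ n * y ^ n) * (z * w) := by group
      _ = c ^ (n * n) * (y ^ n * x ^ n) * (z * w) := by rw [h3]
      _ = c ^ (n * n) * (y ^ n * x ^ n) * (w * z) := by rw [(hz w).eq]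
      _ = c ^ (n * n) * (y ^ n * (x ^ n * w) * z) := by group
      _ = c ^ (n * n) * (y ^ n * (w * x ^ n) * z) := by rw [(hw (x ^ n)).eq]
      _ = c ^ (n * n) * ((y ^ n * w) * (x ^ n * z)) := by group
  calc c = m * c * m⁻¹ := h1.symm
    _ = (x ^ n * z) * (y ^ n * w) * (x ^ n * z)⁻¹ * (y ^ n * w)⁻¹ := by rw [h2, hxz, hyw]
    _ = c ^ (n * n) := by rw [h4]; group

/-- T4 Abs -/
theorem ck {Q : Type*} [Group Q] {x y m2 m3 : Q}
    (hz : ∀ q, Commute (x * y * x⁻¹ * y⁻¹) q)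
    (h2x : ∃ z, (∀ q, Commute z q) ∧ m2 * x * m2⁻¹ = x ^ 2 * z)
    (h2y : ∃ z, (∀ q, Commute z q) ∧ m2 * y * m2⁻¹ = y ^ 2 * z)
    (h3x : ∃ z, (∀ q, Commute z q) ∧ m3 * x * m3⁻¹ = x ^ 3 * z)
    (h3y : ∃ z, (∀ q, Commute z q) ∧ m3 * y * m3⁻¹ = y ^ 3 * z) :
    x * y * x⁻¹ * y⁻¹ = 1 := by
  have e1 := conj_eq_pow_aux hz rfl 2 h2x h2y
  have e2 := conj_eq_pow_aux hz rfl 3 h3x h3y
  generalize x * y * x⁻¹ * y⁻¹ = c at e1 e2
  have f1 : c ^ 3 = 1 := by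
    have : c * c ^ 3 = c * 1 := by
      rw [mul_one]; nth_rewrite 3 [e1]; rw [← pow_succ']
    exact mul_left_cancel this
  have f2 : c ^ 8 = 1 := by
    have : c * c ^ 8 = c * 1 := by
      rw [mul_one]; nth_rewrite 3 [e2]; rw [← pow_succ']
    exact mul_left_cancel this
  calc c = (c ^ 3) ^ 3 * (c ^ 8)⁻¹ := by rw [← pow_mul]; group
    _ = 1 := by rw [f1, f2]; simp

theorem exists_quot_aux {H : Type*} [Group H] {P L C : Subgroup H} (hLP : L ≤ P) (hCL : C ≤ L)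
    (hcomm : ∀ p ∈ P, ∀ g ∈ L, p * g * p⁻¹ * g⁻¹ ∈ C) :
    ∃ (N : Subgroup P) (_ : N.Normal), (∀ p : P, (QuotientGroup.mk' N p = 1 ↔ (p : H) ∈ C)) ∧
      ∀ g : P, (g : H) ∈ L → ∀ q, Commute (QuotientGroup.mk' N g) q := by
  have hN : (C.subgroupOf P).Normal := by
    constructor
    intro n hn p
    rw [Subgroup.mem_subgroupOf] at hn ⊢
    have h1 := hcomm p.1 p.2 n.1 (hCL hn)
    have h2 := C.mul_mem h1 hn
    simpa using h2
  have h1 : ∀ p : P, (QuotientGroup.mk' (C.subgroupOf P) p = 1 ↔ (p : H) ∈ C) := by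
    intro p
    rw [QuotientGroup.mk'_apply, QuotientGroup.eq_one_iff, Subgroup.mem_subgroupOf]
  refine ⟨C.subgroupOf P, hN, h1, ?_⟩
  intro g hg q
  obtain ⟨p, rfl⟩ := QuotientGroup.mk'_surjective (C.subgroupOf P) q
  have h2 : QuotientGroup.mk' (C.subgroupOf P) (p * g * p⁻¹ * g⁻¹) = 1 := by
    rw [h1]
    exact hcomm p.1 p.2 g.1 hg
  rw [map_mul, map_mul, map_mul, map_inv, map_inv] at h2
  have h3 := mul_inv_eq_one.mp h2
  have h4 := mul_inv_eq_iff_eq_mul.mp h3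
  exact h4.symm

theorem center_of_mem_aux {P' : Type*} [Group P'] {Q : Type*} [Group Q] (π : P' →* Q)
    {m x : P'} {n : ℕ} (h : ∀ q, Commute (π (m * x * m⁻¹ * (x ^ n)⁻¹)) q) :
    ∃ z, (∀ q, Commute z q) ∧ π m * π x * (π m)⁻¹ = (π x) ^ n * z := by
  refine ⟨_, h, ?_⟩
  rw [← (h ((π x) ^ n)).eq]
  rw [map_mul, map_mul, map_mul, map_inv, map_inv, map_pow]
  group

/-- T4b -/
theorem ck_rel {H : Type*} [Group H] {P L C : Subgroup H} (hLP : L ≤ P) (hCL : C ≤ L)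
    (hcomm : ∀ p ∈ P, ∀ g ∈ L, p * g * p⁻¹ * g⁻¹ ∈ C)
    {x y m2 m3 : H} (hx : x ∈ P) (hy : y ∈ P) (hm2 : m2 ∈ P) (hm3 : m3 ∈ P)
    (hxy : x * y * x⁻¹ * y⁻¹ ∈ L)
    (h2x : m2 * x * m2⁻¹ * (x ^ 2)⁻¹ ∈ L) (h2y : m2 * y * m2⁻¹ * (y ^ 2)⁻¹ ∈ L)
    (h3x : m3 * x * m3⁻¹ * (x ^ 3)⁻¹ ∈ L) (h3y : m3 * y * m3⁻¹ * (y ^ 3)⁻¹ ∈ L) :
    x * y * x⁻¹ * y⁻¹ ∈ C := by
  obtain ⟨N, hN, h1, hz⟩ := exists_quot_aux hLP hCL hcomm
  lift x to P using hx
  lift y to P using hy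
  lift m2 to P using hm2
  lift m3 to P using hm3
  have key : QuotientGroup.mk' N (x * y * x⁻¹ * y⁻¹) = 1 := by
    have a1 := hz (x * y * x⁻¹ * y⁻¹) (by simpa using hxy)
    rw [map_mul, map_mul, map_mul, map_inv, map_inv] at a1 ⊢
    exact ck a1
      (center_of_mem_aux _ (hz _ (by simpa using h2x)))
      (center_of_mem_aux _ (hz _ (by simpa using h2y)))
      (center_of_mem_aux _ (hz _ (by simpa using h3x)))
      (center_of_mem_aux _ (hz _ (by simpa using h3y)))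
  exact (h1 _).mp key

/-- T4c -/
theorem final_rel {H : Type*} [Group H] {P L C : Subgroup H} (hLP : L ≤ P) (hCL : C ≤ L)
    (hcomm : ∀ p ∈ P, ∀ g ∈ L, p * g * p⁻¹ * g⁻¹ ∈ C)
    {m2 : H} (hm2 : m2 ∈ P) {E : Set H} (hEP : E ⊆ P)
    (hE1 : ∀ e ∈ E, ∀ e' ∈ E, e * e' * e⁻¹ * e'⁻¹ ∈ C)
    (hE2 : ∀ e ∈ E, m2 * e * m2⁻¹ * (e ^ 2)⁻¹ ∈ C)
    {f : H} (hf : f ∈ L) (hfE : f ∈ Subgroup.closure E) : f ∈ C := by
  obtain ⟨N, hN, h1, hz⟩ := exists_quot_aux hLP hCL hcomm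
  lift m2 to P using hm2
  have hcl : Subgroup.closure E ≤ P := (Subgroup.closure_le P).mpr hEP
  let E' : Set (P ⧸ N) := (fun p : P => QuotientGroup.mk' N p) '' {p : P | (p : H) ∈ E}
  have hmem : QuotientGroup.mk' N ⟨f, hcl hfE⟩ ∈ Subgroup.closure E' := by
    refine Subgroup.closure_induction
      (p := fun x hx => QuotientGroup.mk' N ⟨x, hcl hx⟩ ∈ Subgroup.closure E') ?_ ?_ ?_ ?_ hfE
    · intro x hx
      exact Subgroup.subset_closure ⟨⟨x, hEP hx⟩, hx, rfl⟩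
    · exact Subgroup.one_mem _
    · intro x y hx hy h3 h4
      exact Subgroup.mul_mem _ h3 h4
    · intro x hx h3
      exact Subgroup.inv_mem _ h3
  have hE1' : ∀ e ∈ E', ∀ e' ∈ E', Commute e e' := by
    rintro _ ⟨e, he, rfl⟩ _ ⟨e', he', rfl⟩
    have h3 : QuotientGroup.mk' N (e * e' * e⁻¹ * e'⁻¹) = 1 := by
      rw [h1]
      exact hE1 _ he _ he'
    rw [map_mul, map_mul, map_mul, map_inv, map_inv] at h3
    exact mul_inv_eq_iff_eq_mul.mp (mul_inv_eq_one.mp h3)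
  have hE2' : ∀ e ∈ E', QuotientGroup.mk' N m2 * e * (QuotientGroup.mk' N m2)⁻¹ = e ^ 2 := by
    rintro _ ⟨e, he, rfl⟩
    have h3 : QuotientGroup.mk' N (m2 * e * m2⁻¹ * (e ^ 2)⁻¹) = 1 := by
      rw [h1]
      exact hE2 _ he
    rw [map_mul, map_mul, map_mul, map_inv, map_inv, map_pow] at h3
    exact mul_inv_eq_one.mp h3
  have hc : ∀ u ∈ Subgroup.closure E', ∀ v ∈ Subgroup.closure E', Commute u v := by
    have hc1 : ∀ e ∈ E', ∀ v ∈ Subgroup.closure E', Commute e v := by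
      intro e he v hv
      induction hv using Subgroup.closure_induction with
      | mem x hx => exact hE1' e he x hx
      | one => exact Commute.one_right _
      | mul x y _ _ h3 h4 => exact h3.mul_right h4
      | inv x _ h3 => exact h3.inv_right
    intro u hu v hv
    induction hu using Subgroup.closure_induction with
    | mem x hx => exact hc1 x hx v hv
    | one => exact Commute.one_left _
    | mul x y _ _ h3 h4 => exact h3.mul_left h4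
    | inv x _ h3 => exact h3.inv_left
  have hsq : ∀ u ∈ Subgroup.closure E',
      QuotientGroup.mk' N m2 * u * (QuotientGroup.mk' N m2)⁻¹ = u ^ 2 := by
    intro u hu
    induction hu using Subgroup.closure_induction with
    | mem x hx => exact hE2' x hx
    | one => simp
    | mul x y hx hy h3 h4 =>
      rw [(hc x hx y hy).mul_pow, ← h3, ← h4]; group
    | inv x _ h3 =>
      rw [inv_pow, ← h3]; group
  have h5 := hsq _ hmem
  have h6 := hz ⟨f, hcl hfE⟩ hf (QuotientGroup.mk' N m2)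
  rw [← h6.eq, mul_inv_cancel_right, pow_two] at h5
  have h7 : QuotientGroup.mk' N ⟨f, hcl hfE⟩ = 1 := by
    exact (mul_eq_left.mp h5.symm)
  exact (h1 _).mp h7

/-- T4d: `x ↦ m x m⁻¹` and the shift elements -/
theorem conj_rel {H : Type*} [Group H] {P L C : Subgroup H} (hLP : L ≤ P) (hCL : C ≤ L)
    (hcomm : ∀ p ∈ P, ∀ g ∈ L, p * g * p⁻¹ * g⁻¹ ∈ C)
    {e a c : H} (he : e ∈ P) (ha : a ∈ P) (hc : c ∈ P)
    (hea : e * a * e⁻¹ * a⁻¹ ∈ C) (hec : e * c * e⁻¹ * c⁻¹ ∈ C) :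
    a * e * c * e * c⁻¹ * a⁻¹ * (e ^ 2)⁻¹ ∈ C := by
  obtain ⟨N, hN, h1, hz⟩ := exists_quot_aux hLP hCL hcomm
  lift e to P using he
  lift a to P using ha
  lift c to P using hc
  have k1 : Commute (QuotientGroup.mk' N e) (QuotientGroup.mk' N a) := by
    have h3 : QuotientGroup.mk' N (e * a * e⁻¹ * a⁻¹) = 1 := by
      rw [h1]
      exact hea
    rw [map_mul, map_mul, map_mul, map_inv, map_inv] at h3
    exact mul_inv_eq_iff_eq_mul.mp (mul_inv_eq_one.mp h3)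
  have k2 : Commute (QuotientGroup.mk' N e) (QuotientGroup.mk' N c) := by
    have h3 : QuotientGroup.mk' N (e * c * e⁻¹ * c⁻¹) = 1 := by
      rw [h1]
      exact hec
    rw [map_mul, map_mul, map_mul, map_inv, map_inv] at h3
    exact mul_inv_eq_iff_eq_mul.mp (mul_inv_eq_one.mp h3)
  have key : QuotientGroup.mk' N (a * e * c * e * c⁻¹ * a⁻¹ * (e ^ 2)⁻¹) = 1 := by
    simp only [map_mul, map_inv, map_pow]
    generalize QuotientGroup.mk' N e = e' at *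
    generalize QuotientGroup.mk' N a = a' at *
    generalize QuotientGroup.mk' N c = c' at *
    have e1 : c' * e' * c'⁻¹ = e' := by rw [← k2.eq]; group
    have e2 : a' * e' * a'⁻¹ = e' := by rw [← k1.eq]; group
    calc a' * e' * c' * e' * c'⁻¹ * a'⁻¹ * (e' ^ 2)⁻¹
        = a' * e' * (c' * e' * c'⁻¹) * a'⁻¹ * (e' ^ 2)⁻¹ := by group
      _ = (a' * e' * a'⁻¹) * (a' * e' * a'⁻¹) * (e' ^ 2)⁻¹ := by rw [e1]; group
      _ = 1 := by rw [e2]; group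
  exact (h1 _).mp key

/-- T4e: commutators with a displacement -/
theorem displace {H : Type*} [Group H] {G N : Subgroup H}
    (hN : ∀ g ∈ G, ∀ n ∈ N, g * n * g⁻¹ ∈ N) {g h a : H} (hg : g ∈ G) (hh : h ∈ G)
    (ha : a ∈ N) (h1 : Commute (a * g⁻¹ * a⁻¹) h) : g * h * g⁻¹ * h⁻¹ ∈ N := by
  have h2 : g * (a * g⁻¹ * a⁻¹) ∈ N := by
    have h3 := N.mul_mem (hN g hg a ha) (N.inv_mem ha)
    have e : g * a * g⁻¹ * a⁻¹ = g * (a * g⁻¹ * a⁻¹) := by group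
    rwa [e] at h3
  generalize a * g⁻¹ * a⁻¹ = b at h1 h2
  have h4 := N.mul_mem h2 (hN h hh _ (N.inv_mem h2))
  have e2 : b * h * b⁻¹ = h := by rw [h1.eq]; group
  have e : g * b * (h * (g * b)⁻¹ * h⁻¹) = g * h * g⁻¹ * h⁻¹ := by
    calc g * b * (h * (g * b)⁻¹ * h⁻¹) = g * (b * h * b⁻¹) * g⁻¹ * h⁻¹ := by group
      _ = _ := by rw [e2]
  rwa [e] at h4

end Pool.Agent.W_MP_27356f_gt
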