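import Pool.Agent.W_MP_27356f_gt.MkLin

namespace Pool.Agent.W_MP_27356f_gt

variable {X : Type*} [NormedAddCommGroup X] [NormedSpace ℝ X] [FiniteDimensional ℝ X]

open Classical in
/-- the element of `Lin X` with second component `F`, if there is one -/
noncomputable def mk (F : X → ℝ → ℝ) : X × ℝ ≃ₜ X × ℝ :=
  if h : ∃ p ∈ Lin X, ∀ x y, p (x, y) = (x, F x y) then h.choose else 1

/-- the shift by `b` -/
noncomputable def SS (b : X → ℝ) : X × ℝ ≃ₜ X × ℝ := mk fun x y => y + b x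

/-- the identity below `a`, slope `l` above -/
noncomputable def DD (a : X → ℝ) (l : ℝ) : X × ℝ ≃ₜ X × ℝ :=
  mk fun x y => y + (l - 1) * max 0 (y - a x)

/-- multiplication by `μ` -/
noncomputable def MM (μ : ℝ) : X × ℝ ≃ₜ X × ℝ := mk fun _ y => μ * y

/-- the elementary elements -/
noncomputable def EE (a b : X → ℝ) (l : ℝ) : X × ℝ ≃ₜ X × ℝ := DD a l * (DD b l)⁻¹

theorem mk_mem (F : X → ℝ → ℝ) : mk F ∈ Lin X := by
  unfold mk
  split_ifs with h
  · exact h.choose_spec.1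
  · exact (Lin X).one_mem

theorem mk_apply {F : X → ℝ → ℝ} (hF : IsPL fun z : X × ℝ => F z.1 z.2)
    (hm : ∀ x, StrictMono (F x)) (hs : ∀ x, Function.Surjective (F x)) (x : X) (y : ℝ) :
    mk F (x, y) = (x, F x y) := by
  have h : ∃ p ∈ Lin X, ∀ x y, p (x, y) = (x, F x y) := exists_mkLin _ hF hm hs
  unfold mk
  rw [dif_pos h]
  exact h.choose_spec.2 x y

theorem SS_mem (b : X → ℝ) : SS b ∈ Lin X := mk_mem _
theorem DD_mem (a : X → ℝ) (l : ℝ) : DD a l ∈ Lin X := mk_mem _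
theorem MM_mem (μ : ℝ) : (MM μ : X × ℝ ≃ₜ X × ℝ) ∈ Lin X := mk_mem _
theorem EE_mem (a b : X → ℝ) (l : ℝ) : EE a b l ∈ Lin X :=
  (Lin X).mul_mem (DD_mem _ _) ((Lin X).inv_mem (DD_mem _ _))

/-- T2 Elem -/
theorem SS_apply {b : X → ℝ} (hb : IsPL b) (x : X) (y : ℝ) : SS b (x, y) = (x, y + b x) := by
  unfold SS
  refine mk_apply (isPL_snd.add (hb.comp isPL_fst)) ?_ ?_ x y
  · intro x y y' h
    show y + b x < y' + b x
    linarith
  · intro x z
    exact ⟨z - b x, by show z - b x + b x = z; ring⟩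

theorem inv_apply_of {p : X × ℝ ≃ₜ X × ℝ} {z w : X × ℝ} (h : p w = z) : p⁻¹ z = w := by
  rw [Homeomorph.inv_apply, Homeomorph.symm_apply_eq, h]

theorem SS_inv_apply {b : X → ℝ} (hb : IsPL b) (x : X) (y : ℝ) :
    (SS b)⁻¹ (x, y) = (x, y - b x) := by
  apply inv_apply_of
  rw [SS_apply hb, sub_add_cancel]

theorem DD_aux (l c y : ℝ) (hl : 0 < l) :
    (y + (l⁻¹ - 1) * max 0 (y - c)) + (l - 1) * max 0 ((y + (l⁻¹ - 1) * max 0 (y - c)) - c) = y := by
  rcases le_total y c with h | h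
  · rw [max_eq_left (by linarith : y - c ≤ 0), mul_zero, add_zero,
      max_eq_left (by linarith : y - c ≤ 0)]
    ring
  · rw [max_eq_right (by linarith : 0 ≤ y - c)]
    have e : y + (l⁻¹ - 1) * (y - c) - c = l⁻¹ * (y - c) := by ring
    have h2 : 0 ≤ l⁻¹ * (y - c) := mul_nonneg (inv_pos.mpr hl).le (by linarith)
    rw [e, max_eq_right h2]
    field_simp
    ring

theorem DD_apply {a : X → ℝ} (ha : IsPL a) {l : ℝ} (hl : 0 < l) (x : X) (y : ℝ) :
    DD a l (x, y) = (x, y + (l - 1) * max 0 (y - a x)) := by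
  unfold DD
  refine mk_apply (isPL_snd.add (IsPL.mul_const (l - 1)
    ((isPL_const (0 : ℝ)).max (isPL_snd.sub (ha.comp isPL_fst))))) ?_ ?_ x y
  · intro x y y' h
    show y + (l - 1) * max 0 (y - a x) < y' + (l - 1) * max 0 (y' - a x)
    rcases le_total y (a x) with h1 | h1
    · rcases le_total y' (a x) with h2 | h2
      · rw [max_eq_left (by linarith), max_eq_left (by linarith)]
        linarith
      · rw [max_eq_left (by linarith), max_eq_right (by linarith)]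
        rcases h2.eq_or_lt with h3 | h3
        · rw [← h3]
          linarith
        · nlinarith [mul_pos hl (sub_pos.mpr h3)]
    · rw [max_eq_right (by linarith), max_eq_right (by linarith)]
      nlinarith [mul_pos hl (sub_pos.mpr h)]
  · intro x z
    exact ⟨z + (l⁻¹ - 1) * max 0 (z - a x), DD_aux l (a x) z hl⟩

theorem DD_inv_apply {a : X → ℝ} (ha : IsPL a) {l : ℝ} (hl : 0 < l) (x : X) (y : ℝ) :
    (DD a l)⁻¹ (x, y) = (x, y + (l⁻¹ - 1) * max 0 (y - a x)) := by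
  apply inv_apply_of
  rw [DD_apply ha hl, DD_aux l (a x) y hl]

theorem MM_apply {μ : ℝ} (hμ : 0 < μ) (x : X) (y : ℝ) : MM μ (x, y) = (x, μ * y) := by
  unfold MM
  refine mk_apply (IsPL.mul_const μ isPL_snd) ?_ ?_ x y
  · intro x y y' h
    exact mul_lt_mul_of_pos_left h hμ
  · intro x z
    exact ⟨μ⁻¹ * z, by show μ * (μ⁻¹ * z) = z; field_simp⟩

theorem MM_inv_apply {μ : ℝ} (hμ : 0 < μ) (x : X) (y : ℝ) :
    (MM μ)⁻¹ (x, y) = (x, μ⁻¹ * y) := by
  apply inv_apply_of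
  rw [MM_apply hμ, ← mul_assoc, mul_inv_cancel₀ hμ.ne', one_mul]

theorem EE_apply {a b : X → ℝ} (ha : IsPL a) (hb : IsPL b) {l : ℝ} (hl : 0 < l) (x : X) (y : ℝ) :
    EE a b l (x, y) = (x, (y + (l⁻¹ - 1) * max 0 (y - b x)) +
      (l - 1) * max 0 ((y + (l⁻¹ - 1) * max 0 (y - b x)) - a x)) := by
  unfold EE
  rw [Homeomorph.mul_apply, DD_inv_apply hb hl, DD_apply ha hl]

theorem EE_apply_le {a b : X → ℝ} (ha : IsPL a) (hb : IsPL b) {l : ℝ} (hl : 0 < l) {x : X}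
    (hab : a x ≤ b x) {y : ℝ} (hy : y ≤ a x) : EE a b l (x, y) = (x, y) := by
  rw [EE_apply ha hb hl, max_eq_left (by linarith : y - b x ≤ 0), mul_zero, add_zero,
    max_eq_left (by linarith : y - a x ≤ 0), mul_zero, add_zero]

theorem EE_apply_mid {a b : X → ℝ} (ha : IsPL a) (hb : IsPL b) {l : ℝ} (hl : 0 < l) {x : X}
    {y : ℝ} (hy : a x ≤ y) (hy' : y ≤ b x) :
    EE a b l (x, y) = (x, a x + l * (y - a x)) := by
  rw [EE_apply ha hb hl, max_eq_left (by linarith : y - b x ≤ 0), mul_zero, add_zero,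
    max_eq_right (by linarith : 0 ≤ y - a x)]
  congr 1
  ring

theorem EE_apply_ge {a b : X → ℝ} (ha : IsPL a) (hb : IsPL b) {l : ℝ} (hl : 0 < l) {x : X}
    (hab : a x ≤ b x) {y : ℝ} (hy : b x ≤ y) :
    EE a b l (x, y) = (x, y + (l - 1) * (b x - a x)) := by
  have h2 : 0 ≤ l⁻¹ * (y - b x) := mul_nonneg (inv_pos.mpr hl).le (by linarith)
  have e : y + (l⁻¹ - 1) * (y - b x) - a x = l⁻¹ * (y - b x) + (b x - a x) := by ring
  rw [EE_apply ha hb hl, max_eq_right (by linarith : 0 ≤ y - b x), e,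
    max_eq_right (by linarith : 0 ≤ l⁻¹ * (y - b x) + (b x - a x))]
  congr 1
  field_simp
  ring

theorem EE_apply_eq {a b : X → ℝ} (ha : IsPL a) (hb : IsPL b) {l : ℝ} (hl : 0 < l) {x : X}
    (hab : a x = b x) {y : ℝ} : EE a b l (x, y) = (x, y) := by
  rcases le_total y (a x) with h | h
  · exact EE_apply_le ha hb hl hab.le h
  · rw [EE_apply_ge ha hb hl hab.le (hab ▸ h), hab, sub_self, mul_zero, add_zero]

theorem MM_conj_SS {b : X → ℝ} (hb : IsPL b) {μ : ℝ} (hμ : 0 < μ) :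
    MM μ * SS b * (MM μ)⁻¹ = SS (fun x => μ * b x) := by
  apply Homeomorph.ext
  rintro ⟨x, y⟩
  rw [Homeomorph.mul_apply, Homeomorph.mul_apply, MM_inv_apply hμ, SS_apply hb, MM_apply hμ,
    SS_apply (hb.mul_const μ)]
  congr 1
  field_simp

theorem MM_conj_DD {a : X → ℝ} (ha : IsPL a) {l : ℝ} (hl : 0 < l) {μ : ℝ} (hμ : 0 < μ) :
    MM μ * DD a l * (MM μ)⁻¹ = DD (fun x => μ * a x) l := by
  apply Homeomorph.ext
  rintro ⟨x, y⟩
  rw [Homeomorph.mul_apply, Homeomorph.mul_apply, MM_inv_apply hμ, DD_apply ha hl, MM_apply hμ,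
    DD_apply (ha.mul_const μ) hl]
  congr 1
  have e : max 0 (y - μ * a x) = μ * max 0 (μ⁻¹ * y - a x) := by
    rw [mul_max_of_nonneg _ _ hμ.le, mul_zero]
    congr 1
    field_simp
  rw [e]
  field_simp

theorem SS_conj_DD {a b : X → ℝ} (ha : IsPL a) (hb : IsPL b) {l : ℝ} (hl : 0 < l) :
    SS b * DD a l * (SS b)⁻¹ = DD (fun x => a x + b x) l := by
  apply Homeomorph.ext
  rintro ⟨x, y⟩
  rw [Homeomorph.mul_apply, Homeomorph.mul_apply, SS_inv_apply hb, DD_apply ha hl, SS_apply hb,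
    DD_apply (ha.add hb) hl]
  congr 1
  have e : y - (a x + b x) = y - b x - a x := by ring
  rw [e]
  ring

theorem SS_mul {a b : X → ℝ} (ha : IsPL a) (hb : IsPL b) :
    SS a * SS b = SS (fun x => a x + b x) := by
  apply Homeomorph.ext
  rintro ⟨x, y⟩
  rw [Homeomorph.mul_apply, SS_apply hb, SS_apply ha, SS_apply (ha.add hb)]
  congr 1
  ring

/-- group theory -/
theorem elem_group {G : Type*} [Group G] {M Sa Sc Da Db Dc D2a D2b : G}
    (h1 : M * Da * M⁻¹ = D2a) (h2 : M * Db * M⁻¹ = D2b) (h3 : Sc * Da * Sc⁻¹ = Db)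
    (h4 : Sc * Db * Sc⁻¹ = Dc) (h5 : Sa * Da * Sa⁻¹ = D2a) (h6 : Sa * Dc * Sa⁻¹ = D2b) :
    M * (Da * Db⁻¹) * M⁻¹ = Sa * (Da * Db⁻¹) * Sc * (Da * Db⁻¹) * Sc⁻¹ * Sa⁻¹ := by
  have e1 : M * (Da * Db⁻¹) * M⁻¹ = D2a * D2b⁻¹ := by
    rw [← h1, ← h2]; group
  have e2 : Sa * (Da * Db⁻¹) * Sc * (Da * Db⁻¹) * Sc⁻¹ * Sa⁻¹ =
      (Sa * Da * Sa⁻¹) * (Sa * (Db⁻¹ * (Sc * Da * Sc⁻¹) * (Sc * Db * Sc⁻¹)⁻¹) * Sa⁻¹) := by
    group
  rw [e1, e2, h3, h4, h5, ← h6]
  group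

/-- the key identity: `e = EE a b l`, `c = b - a` -/
theorem MM_conj_EE {a b : X → ℝ} (ha : IsPL a) (hb : IsPL b) {l : ℝ} (hl : 0 < l) :
    MM 2 * EE a b l * (MM 2)⁻¹ =
      SS a * EE a b l * SS (fun x => b x - a x) * EE a b l * (SS (fun x => b x - a x))⁻¹
        * (SS a)⁻¹ := by
  have hc : IsPL fun x => b x - a x := hb.sub ha
  unfold EE
  refine elem_group (MM_conj_DD ha hl two_pos) (MM_conj_DD hb hl two_pos) ?_
    (SS_conj_DD hb hc hl) ?_ ?_
  · rw [SS_conj_DD ha hc hl]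
    congr 1
    funext x
    ring
  · rw [SS_conj_DD ha ha hl]
    congr 1
    funext x
    ring
  · rw [SS_conj_DD (hb.add hc) ha hl]
    congr 1
    funext x
    ring

end Pool.Agent.W_MP_27356f_gt
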