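import Pool.Agent.W_MP_27356f_gt.Defs

namespace Pool.Agent.W_MP_27356f_gt

/-- conjugation by a linear isomorphism -/
def transp {E F : Type*} [NormedAddCommGroup E] [NormedSpace ℝ E]
    [NormedAddCommGroup F] [NormedSpace ℝ F] (T : E ≃L[ℝ] F) : (E ≃ₜ E) ≃* (F ≃ₜ F) where
  toFun f := (T.symm.toHomeomorph.trans f).trans T.toHomeomorph
  invFun g := (T.toHomeomorph.trans g).trans T.symm.toHomeomorph
  left_inv f := by
    ext x
    simp
  right_inv g := by
    ext x
    simp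
  map_mul' f g := by
    ext x
    simp [Homeomorph.mul_apply]

theorem transp_apply {E F : Type*} [NormedAddCommGroup E] [NormedSpace ℝ E]
    [NormedAddCommGroup F] [NormedSpace ℝ F] (T : E ≃L[ℝ] F) (f : E ≃ₜ E) (x : F) :
    transp T f x = T (f (T.symm x)) := rfl

theorem transp_mem {E F : Type*} [NormedAddCommGroup E] [NormedSpace ℝ E]
    [FiniteDimensional ℝ E] [NormedAddCommGroup F] [NormedSpace ℝ F] [FiniteDimensional ℝ F]
    (T : E ≃L[ℝ] F) {f : E ≃ₜ E} (hf : f ∈ PLc E) : transp T f ∈ PLc F := by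
  obtain ⟨hf1, K, hK, hfK⟩ := hf
  refine ⟨?_, T '' K, hK.image T.continuous, fun x hx => ?_⟩
  · have h1 : IsPL (fun x : F => T.symm x) := isPL_linear (T.symm.toLinearEquiv : F →ₗ[ℝ] E)
    have h2 : IsPL (fun x : E => T x) := isPL_linear (T.toLinearEquiv : E →ₗ[ℝ] F)
    exact h2.comp (hf1.comp h1)
  · rw [transp_apply, hfK, T.apply_symm_apply]
    intro h
    exact hx ⟨_, h, T.apply_symm_apply x⟩

/-- T12 Transport: conjugation by a linear isomorphism -/
theorem exists_transport {E F : Type*} [NormedAddCommGroup E] [NormedSpace ℝ E]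
    [FiniteDimensional ℝ E] [NormedAddCommGroup F] [NormedSpace ℝ F] [FiniteDimensional ℝ F]
    (T : E ≃L[ℝ] F) :
    ∃ Φ : (E ≃ₜ E) ≃* (F ≃ₜ F), (∀ f x, Φ f x = T (f (T.symm x))) ∧
      (PLc E).map Φ.toMonoidHom = PLc F := by
  refine ⟨transp T, fun f x => rfl, ?_⟩
  ext g
  rw [Subgroup.mem_map]
  constructor
  · rintro ⟨f, hf, rfl⟩
    exact transp_mem T hf
  · intro hg
    refine ⟨transp T.symm g, transp_mem T.symm hg, ?_⟩
    ext x
    show T (transp T.symm g (T.symm x)) = g x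
    rw [transp_apply]
    simp

/-- T12b: coordinates in which a given vector is the last basis vector -/
theorem exists_coord {n : ℕ} {v : Fin n → ℝ} (hv : v ≠ 0) :
    ∃ (m : ℕ) (T : (Fin n → ℝ) ≃L[ℝ] (Fin m → ℝ) × ℝ), T v = (0, 1) := by
  have hn : n ≠ 0 := by
    rintro rfl
    exact hv (Subsingleton.elim _ _)
  obtain ⟨m, rfl⟩ := Nat.exists_eq_succ_of_ne_zero hn
  have hfr : Module.finrank ℝ (Fin (m + 1) → ℝ) = Module.finrank ℝ ((Fin m → ℝ) × ℝ) := by
    simp
  let S : (Fin (m + 1) → ℝ) ≃L[ℝ] (Fin m → ℝ) × ℝ := ContinuousLinearEquiv.ofFinrankEq hfr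
  have hSv : S v ≠ 0 := by
    rw [Ne, ContinuousLinearEquiv.map_eq_zero_iff]
    exact hv
  have h01 : ((0, 1) : (Fin m → ℝ) × ℝ) ≠ 0 := by
    intro h
    have := congrArg Prod.snd h
    simp at this
  obtain ⟨U, hU⟩ := SeparatingDual.exists_continuousLinearEquiv_apply_eq (R := ℝ) hSv h01
  exact ⟨m, S.trans U, by simpa using hU⟩

end Pool.Agent.W_MP_27356f_gt
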