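import Pool.Agent.W_MP_27356f_gt.Cut
import Pool.Agent.W_MP_27356f_gt.Elem
import Pool.Agent.W_MP_27356f_gt.Transport

namespace Pool.Agent.W_MP_27356f_gt

/-- T15 Displace -/
theorem exists_displace {n : ℕ} (hn : n ≠ 0) {K : Set (Fin n → ℝ)} (hK : IsCompact K) :
    ∃ a ∈ PLc (Fin n → ℝ), LinePres a ∧ ∀ x ∈ K, a x ∉ K := by
  classical
  obtain ⟨k⟩ : Nonempty (Fin n) := Fin.pos_iff_nonempty.mp (Nat.pos_of_ne_zero hn)
  have hv : (Pi.single k (1 : ℝ) : Fin n → ℝ) ≠ 0 := by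
    intro h
    have := congrFun h k
    simp at this
  obtain ⟨m, T, hT⟩ := exists_coord hv
  set v : Fin n → ℝ := Pi.single k (1 : ℝ) with hvdef
  obtain ⟨R, hR0, hR⟩ : ∃ R : ℝ, 0 ≤ R ∧ ∀ x ∈ K, ‖T x‖ ≤ R := by
    obtain ⟨C, hC⟩ := (hK.image T.continuous).isBounded.exists_norm_le
    exact ⟨max C 0, le_max_right _ _,
      fun x hx => (hC _ (Set.mem_image_of_mem _ hx)).trans (le_max_left _ _)⟩
  obtain ⟨q, hq, hqp⟩ := cut (SS_mem (fun _ : Fin m → ℝ => 2 * R + 1)) R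
  obtain ⟨Φ, hΦ, hmap⟩ := exists_transport T
  have hq1 := mem_Lc.mp hq
  have hqPL : q ∈ (PLc (Fin n → ℝ)).map Φ.toMonoidHom := by
    rw [hmap]
    exact hq1.2
  obtain ⟨a, ha, haq⟩ := hqPL
  have hTa : ∀ x, T (a x) = q (T x) := by
    intro x
    have h1 := hΦ a (T x)
    have h2 : Φ a = q := haq
    rw [h2, T.symm_apply_apply] at h1
    exact h1.symm
  refine ⟨a, ha, ⟨v, fun x => ⟨(q (T x)).2 - (T x).2, ?_⟩⟩, ?_⟩
  · apply T.injective
    rw [hTa, map_add, map_smul, hT]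
    have h1 := (mem_Lin.mp hq1.1).2.1 (T x)
    ext1
    · simp [h1]
    · simp
  · intro x hx hax
    have h1 := hR x hx
    have h2 := hR _ hax
    have h3 : q (T x) = ((T x).1, (T x).2 + (2 * R + 1)) := by
      rw [hqp _ h1]
      exact SS_apply (isPL_const _) (T x).1 (T x).2
    rw [hTa, h3] at h2
    have h4 : |(T x).2| ≤ R := (norm_snd_le (T x)).trans h1
    have h5 : |(T x).2 + (2 * R + 1)| ≤ R :=
      (norm_snd_le ((T x).1, (T x).2 + (2 * R + 1))).trans h2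
    rw [abs_le] at h4 h5
    linarith [h4.1, h5.2]

end Pool.Agent.W_MP_27356f_gt
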