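import Pool.Agent.W_MP_27356f_gt.LinePres
import Pool.Agent.W_MP_27356f_gt.Displace
import Pool.Agent.W_MP_27356f_gt.Abs

namespace Pool.Agent.W_MP_27356f_gt

/-- conjugates of the elements of the closure by elements of the group -/
theorem conj_mem_normal {n : ℕ} {g k : (Fin n → ℝ) ≃ₜ (Fin n → ℝ)} (hg : g ∈ PLc (Fin n → ℝ))
    (hk : k ∈ Subgroup.closure {k | ∃ f ∈ PLc (Fin n → ℝ), LinePres f ∧
        ∃ h ∈ PLc (Fin n → ℝ), k = h * f * h⁻¹}) :
    g * k * g⁻¹ ∈ Subgroup.closure {k | ∃ f ∈ PLc (Fin n → ℝ), LinePres f ∧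
        ∃ h ∈ PLc (Fin n → ℝ), k = h * f * h⁻¹} := by
  induction hk using Subgroup.closure_induction with
  | mem x hx =>
    obtain ⟨f, hf, hl, h, hh, rfl⟩ := hx
    refine Subgroup.subset_closure ⟨f, hf, hl, g * h, mul_mem hg hh, ?_⟩
    group
  | one => simp
  | mul x y _ _ hx hy =>
    have : g * (x * y) * g⁻¹ = (g * x * g⁻¹) * (g * y * g⁻¹) := by group
    rw [this]
    exact mul_mem hx hy
  | inv x _ hx =>
    have : g * x⁻¹ * g⁻¹ = (g * x * g⁻¹)⁻¹ := by group
    rw [this]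
    exact inv_mem hx

/-- a homeomorphism with support in `K` maps `K` into itself -/
theorem map_mem_of_support {E : Type*} [TopologicalSpace E] {f : E ≃ₜ E} {K : Set E}
    (h : ∀ x, x ∉ K → f x = x) {x : E} (hx : x ∈ K) : f x ∈ K := by
  by_contra hc
  have h1 := h (f x) hc
  exact hc ((f.injective h1).symm ▸ hx)

/-- homeomorphisms with disjoint supports commute -/
theorem commute_of_supports {E : Type*} [TopologicalSpace E] {f h : E ≃ₜ E} {K L : Set E}
    (hf : ∀ x, x ∉ L → f x = x) (hh : ∀ x, x ∉ K → h x = x) (hd : ∀ x ∈ K, x ∉ L) :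
    Commute f h := by
  refine Homeomorph.ext fun x => ?_
  rw [Homeomorph.mul_apply, Homeomorph.mul_apply]
  by_cases hx : x ∈ K
  · rw [hf x (hd x hx), hf (h x) (hd _ (map_mem_of_support hh hx))]
  · rw [hh x hx]
    by_cases hxL : x ∈ L
    · have h1 : f x ∉ K := fun hc => hd _ hc (map_mem_of_support hf hxL)
      rw [hh _ h1]
    · rw [hf x hxL, hh x hx]

/-- T20 Normal closure -/
theorem commutator_eq (n : ℕ) :
    ⁅PLc (Fin n → ℝ), PLc (Fin n → ℝ)⁆ =
      Subgroup.closure {k | ∃ f ∈ PLc (Fin n → ℝ), LinePres f ∧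
        ∃ h ∈ PLc (Fin n → ℝ), k = h * f * h⁻¹} := by
  apply le_antisymm
  · rw [Subgroup.commutator_le]
    intro g hg h hh
    rw [commutatorElement_def]
    rcases Nat.eq_zero_or_pos n with rfl | hn
    · have : g * h * g⁻¹ * h⁻¹ = 1 := Homeomorph.ext fun x => Subsingleton.elim _ _
      rw [this]
      exact one_mem _
    obtain ⟨K, hK, hgK⟩ := hg.2
    obtain ⟨K', hK', hhK'⟩ := hh.2
    obtain ⟨a, ha, hal, hdisj⟩ := exists_displace hn.ne' (hK.union hK')
    have haN : a ∈ Subgroup.closure {k | ∃ f ∈ PLc (Fin n → ℝ), LinePres f ∧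
        ∃ h ∈ PLc (Fin n → ℝ), k = h * f * h⁻¹} :=
      Subgroup.subset_closure ⟨a, ha, hal, 1, one_mem _, by group⟩
    refine displace (G := PLc (Fin n → ℝ)) (fun g hg n hn => conj_mem_normal hg hn) hg hh haN ?_
    refine commute_of_supports (K := K ∪ K') (L := a '' (K ∪ K')) ?_ ?_ ?_
    · intro x hx
      have h1 : a⁻¹ x ∉ K := fun hc => hx ⟨a⁻¹ x, Or.inl hc, by
        rw [Homeomorph.inv_apply, Homeomorph.apply_symm_apply]⟩
      have h2 : g⁻¹ (a⁻¹ x) = a⁻¹ x := by
        rw [Homeomorph.inv_apply, Homeomorph.symm_apply_eq]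
        exact (hgK _ h1).symm
      rw [Homeomorph.mul_apply, Homeomorph.mul_apply, h2, Homeomorph.inv_apply,
        Homeomorph.apply_symm_apply]
    · intro x hx
      exact hhK' x fun hc => hx (Or.inr hc)
    · rintro x hx ⟨y, hy, rfl⟩
      exact hdisj y hy hx
  · rw [Subgroup.closure_le]
    rintro k ⟨f, hf, hl, h, hh, rfl⟩
    have h1 := linePres_mem hf hl
    have h2 := Subgroup.commutator_mem_commutator hh hf
    rw [commutatorElement_def] at h2
    have h3 : h * f * h⁻¹ = h * f * h⁻¹ * f⁻¹ * f := by group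
    rw [SetLike.mem_coe, h3]
    exact mul_mem h2 h1

end Pool.Agent.W_MP_27356f_gt
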