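import Pool.Agent.W_MP_27356f_gt.Tri

namespace Pool.Agent.W_MP_27356f_gt

/-- Q3 Simplex -/
theorem convex_simp (n : ℕ) (R : ℝ) : Convex ℝ (simp n R) := by
  intro x hx y hy a b ha hb hab
  refine ⟨fun i => ?_, ?_⟩
  · have h1 := mul_le_mul_of_nonneg_left (hx.1 i) ha
    have h2 := mul_le_mul_of_nonneg_left (hy.1 i) hb
    have h3 : (a • x + b • y) i = a * x i + b * y i := rfl
    have h4 : -R = a * -R + b * -R := by rw [← add_mul, hab, one_mul]
    rw [h3, h4]
    linarith
  · have h1 := mul_le_mul_of_nonneg_left hx.2 ha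
    have h2 := mul_le_mul_of_nonneg_left hy.2 hb
    have h3 : ∑ i, (a • x + b • y) i = a * ∑ i, x i + b * ∑ i, y i := by
      rw [Finset.mul_sum, Finset.mul_sum, ← Finset.sum_add_distrib]
      rfl
    have h4 : R = a * R + b * R := by rw [← add_mul, hab, one_mul]
    rw [h3]
    linarith

theorem isClosed_simp (n : ℕ) (R : ℝ) : IsClosed (simp n R) := by
  have h : simp n R = (⋂ i, {x : Fin n → ℝ | -R ≤ x i}) ∩ {x | ∑ i, x i ≤ R} := by
    ext x
    simp [simp]
  rw [h]
  refine IsClosed.inter (isClosed_iInter fun i => ?_) ?_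
  · exact isClosed_le continuous_const (continuous_apply i)
  · exact isClosed_le (continuous_finsetSum _ fun i _ => continuous_apply i) continuous_const

theorem isCompact_simp (n : ℕ) (R : ℝ) : IsCompact (simp n R) := by
  refine (isCompact_Icc (a := fun _ : Fin n => -R) (b := fun _ : Fin n => n * R)).of_isClosed_subset
    (isClosed_simp n R) fun x hx => ⟨fun i => hx.1 i, fun i => ?_⟩
  have h1 : x i + R ≤ ∑ j, (x j + R) :=
    Finset.single_le_sum (f := fun j => x j + R) (fun j _ => by linarith [hx.1 j])
      (Finset.mem_univ i)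
  rw [Finset.sum_add_distrib, Finset.sum_const, Finset.card_univ, Fintype.card_fin,
    nsmul_eq_mul] at h1
  have := hx.2
  change x i ≤ n * R
  linarith

theorem exists_subset_simp {n : ℕ} {K : Set (Fin n → ℝ)} (hK : IsCompact K) :
    ∃ N : ℕ, ∀ x ∈ K, (∀ i, -(N : ℝ) < x i) ∧ ∑ i, x i < N := by
  obtain ⟨C, hC⟩ := hK.isBounded.exists_norm_le
  obtain ⟨N, hN⟩ := exists_nat_gt ((n + 1) * |C|)
  refine ⟨N, fun x hx => ?_⟩
  have h1 : ∀ i, |x i| ≤ |C| := fun i =>
    (norm_le_pi_norm x i).trans ((hC x hx).trans (le_abs_self C))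
  have h2 : (0 : ℝ) ≤ n * |C| := by positivity
  have h3 : (0 : ℝ) ≤ |C| := abs_nonneg C
  constructor
  · intro i
    have := (abs_le.mp (h1 i)).1
    nlinarith
  · have : ∑ i, x i ≤ n * |C| := by
      calc ∑ i, x i ≤ ∑ _i : Fin n, |C| :=
            Finset.sum_le_sum fun i _ => (le_abs_self _).trans (h1 i)
        _ = n * |C| := by simp
    nlinarith

/-- the simplex as a triangulation with `n + 1` vertices -/
theorem exists_tri_simp (n : ℕ) {R : ℝ} (hR : 0 < R) :
    ∃ (p : Option (Fin n) → Fin n → ℝ) (b : Option (Fin n) → (Fin n → ℝ) → ℝ),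
      IsTri p b (simp n R) := by
  classical
  set c : ℝ := (n + 1) * R with hc
  have hcpos : 0 < c := by positivity
  have hcne : c ≠ 0 := hcpos.ne'
  let p : Option (Fin n) → Fin n → ℝ := fun e j => -R + if e = some j then c else 0
  let b : Option (Fin n) → (Fin n → ℝ) → ℝ := fun e x =>
    match e with
    | none => (R - ∑ j, x j) / c
    | some i => (x i + R) / c
  have hb0 : ∀ x, b none x = (R - ∑ j, x j) / c := fun x => rfl
  have hb1 : ∀ i x, b (some i) x = (x i + R) / c := fun i x => rfl
  have hsum : ∀ x, ∑ e, b e x = 1 := by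
    intro x
    rw [Fintype.sum_option, hb0]
    simp only [hb1]
    rw [← Finset.sum_div, ← add_div, Finset.sum_add_distrib, Finset.sum_const, Finset.card_univ,
      Fintype.card_fin, nsmul_eq_mul, div_eq_one_iff_eq hcne, hc]
    ring
  have hind : AffineIndependent ℝ p := by
    rw [affineIndependent_iff]
    intro s w hw hwp
    have key : ∀ j : Fin n, some j ∈ s → w (some j) = 0 := by
      intro j hj
      have h1 := congrFun hwp j
      rw [Finset.sum_apply] at h1
      have h2 : ∀ e, (w e • p e) j = w e * (-R) + (if e = some j then w e * c else 0) := by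
        intro e
        change w e * (-R + if e = some j then c else 0) = _
        split_ifs <;> ring
      simp only [h2] at h1
      rw [Finset.sum_add_distrib, ← Finset.sum_mul, hw, zero_mul, zero_add,
        Finset.sum_ite_eq' s (some j) (fun e => w e * c), if_pos hj] at h1
      have h3 : w (some j) * c = 0 := h1
      exact (mul_eq_zero.mp h3).resolve_right hcne
    intro e he
    cases e with
    | some j => exact key j he
    | none =>
      rw [← hw]
      symm
      refine Finset.sum_eq_single none (fun e' he' hne => ?_) (fun h => absurd he h)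
      cases e' with
      | none => exact absurd rfl hne
      | some j => exact key j he'
  refine ⟨p, b, ?_, ?_, fun x _ => hsum x, ?_, ?_, ?_⟩
  · intro e
    cases e with
    | none =>
      have h1 : IsPL (fun x : Fin n → ℝ => ∑ j, x j) := by
        have := isPL_linear (∑ j : Fin n, LinearMap.proj (R := ℝ) (φ := fun _ : Fin n => ℝ) j)
        convert this using 2 with x
        rw [LinearMap.sum_apply]
        rfl
      have h2 := ((isPL_const R).sub h1).mul_const (1 / c)
      convert h2 using 2 with x
      rw [hb0]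
      ring
    | some i =>
      have h2 := ((isPL_id.apply i).add (isPL_const R)).mul_const (E := Fin n → ℝ) (1 / c)
      convert h2 using 2 with x
      rw [hb1]
      ring
  · intro e x hx
    cases e with
    | none =>
      rw [hb0]
      exact div_nonneg (by linarith [hx.2]) hcpos.le
    | some i =>
      rw [hb1]
      exact div_nonneg (by linarith [hx.1 i]) hcpos.le
  · intro x _
    funext j
    rw [Finset.sum_apply]
    have h2 : ∀ e, (b e x • p e) j = b e x * (-R) + (if e = some j then b e x * c else 0) := by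
      intro e
      change b e x * (-R + if e = some j then c else 0) = _
      split_ifs <;> ring
    simp only [h2]
    rw [Finset.sum_add_distrib, ← Finset.sum_mul, hsum,
      Finset.sum_ite_eq' Finset.univ (some j) (fun e => b e x * c), if_pos (Finset.mem_univ _), hb1]
    field_simp
    ring
  · intro x _
    exact hind.comp_embedding (Function.Embedding.subtype _)
  · intro e
    refine ⟨fun j => ?_, ?_⟩
    · change -R ≤ -R + if e = some j then c else 0
      split_ifs <;> linarith
    · change ∑ j, (-R + if e = some j then c else 0) ≤ R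
      rw [Finset.sum_add_distrib, Finset.sum_const, Finset.card_univ, Fintype.card_fin,
        nsmul_eq_mul]
      have h0 : (0 : ℝ) ≤ n := Nat.cast_nonneg n
      cases e with
      | none =>
        simp only [reduceCtorEq, if_false, Finset.sum_const_zero]
        nlinarith
      | some i =>
        simp only [Option.some.injEq, Finset.sum_ite_eq, Finset.mem_univ, if_true]
        rw [hc]
        nlinarith

/-- affine functions on a triangulation -/
theorem IsTri.affine_eq {E : Type*} [NormedAddCommGroup E] [NormedSpace ℝ E] {κ : Type}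
    [Fintype κ] {p : κ → E} {b : κ → E → ℝ} {D : Set E} (hT : IsTri p b D) (ℓ : E →ₗ[ℝ] ℝ)
    (c : ℝ) {x : E} (hx : x ∈ D) : ℓ x + c = ∑ i, b i x * (ℓ (p i) + c) := by
  have h1 : ℓ x = ∑ i, b i x * ℓ (p i) := by
    conv_lhs => rw [← hT.rep x hx]
    rw [map_sum]
    simp
  have h2 : c = ∑ i, b i x * c := by
    rw [← Finset.sum_mul, hT.sum_eq x hx, one_mul]
  simp only [mul_add]
  rw [Finset.sum_add_distrib, ← h1, ← h2]

/-- the coordinate functions of vertices in the interior, extended by zero -/
theorem isPL_indicator {n : ℕ} {R R₁ : ℝ} (hR : R₁ < R) {κ : Type} [Fintype κ]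
    {p : κ → Fin n → ℝ} {b : κ → (Fin n → ℝ) → ℝ} (hT : IsTri p b (simp n R)) {i : κ}
    (hi : p i ∈ simp n R₁) : IsPL ((simp n R).indicator (b i)) := by
  classical
  have key : ∀ (ℓ : (Fin n → ℝ) →ₗ[ℝ] ℝ) (c : ℝ), (∀ y ∈ simp n R, 0 ≤ ℓ y + c) →
      0 < ℓ (p i) + c → ∀ x ∈ simp n R, ℓ x + c ≤ 0 → b i x = 0 := by
    intro ℓ c hpos hi' x hx hx0
    rw [hT.affine_eq ℓ c hx] at hx0
    have h1 : b i x * (ℓ (p i) + c) ≤ 0 :=
      (Finset.single_le_sum (f := fun j => b j x * (ℓ (p j) + c))
        (fun j _ => mul_nonneg (hT.nonneg j x hx) (hpos _ (hT.mem j))) (Finset.mem_univ i)).trans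
        hx0
    refine le_antisymm ?_ (hT.nonneg i x hx)
    by_contra hcon
    exact absurd h1 (not_le.mpr (mul_pos (not_le.mp hcon) hi'))
  have hcont : Continuous ((simp n R).indicator (b i)) := by
    refine continuous_indicator (fun x hx => ?_) (hT.pl i).continuous.continuousOn
    have hxs : x ∈ simp n R := (isClosed_simp n R).frontier_subset hx
    by_cases h1 : ∃ k, x k ≤ -R
    · obtain ⟨k, hk⟩ := h1
      refine key (LinearMap.proj (R := ℝ) (φ := fun _ : Fin n => ℝ) k) R (fun y hy => ?_) ?_ x hxs ?_
      · change 0 ≤ y k + R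
        linarith [hy.1 k]
      · change 0 < p i k + R
        linarith [hi.1 k]
      · change x k + R ≤ 0
        linarith
    by_cases h2 : R ≤ ∑ k, x k
    · have hl : ∀ y, (-(∑ k : Fin n, LinearMap.proj (R := ℝ) (φ := fun _ : Fin n => ℝ) k)) y =
          -∑ k, y k := by
        intro y
        rw [LinearMap.neg_apply, LinearMap.sum_apply]
        rfl
      refine key (-(∑ k : Fin n, LinearMap.proj (R := ℝ) (φ := fun _ : Fin n => ℝ) k)) R
        (fun y hy => ?_) ?_ x hxs ?_
      · rw [hl]
        linarith [hy.2]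
      · rw [hl]
        linarith [hi.2]
      · rw [hl]
        linarith
    exfalso
    push Not at h1 h2
    refine hx.2 (mem_interior.mpr ⟨(⋂ k, {y : Fin n → ℝ | -R < y k}) ∩ {y | ∑ k, y k < R}, ?_, ?_,
      ?_⟩)
    · rintro y ⟨hy1, hy2⟩
      exact ⟨fun k => (Set.mem_iInter.mp hy1 k).le, hy2.le⟩
    · refine IsOpen.inter (isOpen_iInter_of_finite fun k => ?_) ?_
      · exact isOpen_lt continuous_const (continuous_apply k)
      · exact isOpen_lt (continuous_finsetSum _ fun k _ => continuous_apply k) continuous_const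
    · exact ⟨Set.mem_iInter.mpr h1, h2⟩
  refine IsPL.select (hT.pl i) (isPL_const 0) hcont fun x => ?_
  by_cases hx : x ∈ simp n R
  · exact Or.inl (Set.indicator_of_mem hx _)
  · exact Or.inr (Set.indicator_of_notMem hx _)

end Pool.Agent.W_MP_27356f_gt
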