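import Pool.Agent.W_MP_27356f_gt.Tri

namespace Pool.Agent.W_MP_27356f_gt

/-- affine maps commute with barycentres -/
theorem affine_sum {E F : Type*} [NormedAddCommGroup E] [NormedSpace ℝ E] [NormedAddCommGroup F]
    [NormedSpace ℝ F] {κ : Type} [Fintype κ] (L : E →ᵃ[ℝ] F) (c : κ → ℝ) (p : κ → E)
    (hc : ∑ i, c i = 1) : L (∑ i, c i • p i) = ∑ i, c i • L (p i) := by
  have hL : ∀ y, L y = L.linear y + L 0 := fun y => by simpa using L.map_vadd 0 y
  calc L (∑ i, c i • p i) = ∑ i, c i • L.linear (p i) + L 0 := by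
        rw [hL, map_sum]
        simp only [map_smul]
    _ = ∑ i, c i • L.linear (p i) + ∑ i, c i • L 0 := by
        rw [← Finset.sum_smul, hc, one_smul]
    _ = ∑ i, c i • L (p i) := by
        rw [← Finset.sum_add_distrib]
        exact Finset.sum_congr rfl fun i _ => by rw [← smul_add, ← hL]

/-- two affine maps without wall crossings which agree at an inner point of a simplex agree at
all its vertices -/
theorem agree_vertices {n : ℕ} {D : Set (Fin n → ℝ)} {κ : Type} [Fintype κ]
    {p : κ → Fin n → ℝ} {b : κ → (Fin n → ℝ) → ℝ} {L L' : (Fin n → ℝ) →ᵃ[ℝ] (Fin n → ℝ)}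
    (hNC : ∀ k, NC p b D (coordDiff L L' k)) {x : Fin n → ℝ} (hx : x ∈ D) {c : κ → ℝ}
    (hc1 : ∑ i, c i = 1) (hc0 : ∀ i, b i x = 0 → c i = 0) (hcp : ∀ i, b i x ≠ 0 → 0 < c i)
    (h : L (∑ i, c i • p i) = L' (∑ i, c i • p i)) (i : κ) (hi : b i x ≠ 0) :
    L (p i) = L' (p i) := by
  funext k
  have h1 : coordDiff L L' k (∑ i, c i • p i) = 0 := by
    rw [coordDiff_apply, h, sub_self]
  rw [affine_sum _ _ _ hc1] at h1
  have h2 : coordDiff L L' k (p i) = 0 := by
    rcases hNC k x hx with h3 | h3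
    · have h4 := (Finset.sum_eq_zero_iff_of_nonneg (s := Finset.univ)
        (f := fun i => c i • coordDiff L L' k (p i)) (fun j _ => by
          by_cases hj : b j x = 0
          · rw [hc0 j hj, zero_smul]
          · exact mul_nonneg (hcp j hj).le (h3 j hj))).1 h1 i (Finset.mem_univ i)
      exact (smul_eq_zero.1 h4).resolve_left (hcp i hi).ne'
    · have h4 := (Finset.sum_eq_zero_iff_of_nonpos (s := Finset.univ)
        (f := fun i => c i • coordDiff L L' k (p i)) (fun j _ => by
          by_cases hj : b j x = 0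
          · rw [hc0 j hj, zero_smul]
          · exact mul_nonpos_of_nonneg_of_nonpos (hcp j hj).le (h3 j hj))).1 h1 i
              (Finset.mem_univ i)
      exact (smul_eq_zero.1 h4).resolve_left (hcp i hi).ne'
  rw [coordDiff_apply] at h2
  exact sub_eq_zero.1 h2

/-- Q4 TriAff: if no simplex crosses a wall of `f` then `f` is affine on every simplex. -/
theorem tri_affine {n : ℕ} {D : Set (Fin n → ℝ)} (hD : Convex ℝ D) {κ : Type} [Fintype κ]
    {p : κ → Fin n → ℝ} {b : κ → (Fin n → ℝ) → ℝ} (hT : IsTri p b D)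
    {f : (Fin n → ℝ) → (Fin n → ℝ)} (hf : Continuous f)
    {s : Set ((Fin n → ℝ) →ᵃ[ℝ] (Fin n → ℝ))} (hs : s.Finite) (hsel : ∀ x, ∃ L ∈ s, f x = L x)
    (hNC : ∀ L ∈ s, ∀ L' ∈ s, ∀ k, NC p b D (coordDiff L L' k)) :
    ∀ x ∈ D, f x = ∑ i, b i x • f (p i) := by
  classical
  intro x hx
  obtain ⟨L₀, hL₀, hfx⟩ := hsel x
  have hbp : ∀ i, b i x ≠ 0 → 0 < b i x := fun i hi => lt_of_le_of_ne (hT.nonneg i x hx) hi.symm
  have hrep : L₀ x = ∑ i, b i x • L₀ (p i) := by
    conv_lhs => rw [← hT.rep x hx]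
    exact affine_sum _ _ _ (hT.sum_eq x hx)
  -- it is enough to show `f (p j) = L₀ (p j)` for the active vertices
  have hvert : ∀ j, b j x ≠ 0 → f (p j) = L₀ (p j) := by
    intro j hj
    -- the weights along the segment
    set c : ℝ → κ → ℝ := fun t i => (1 - t) * b i x + t * (if i = j then 1 else 0) with hc
    have hcsum : ∀ t, ∑ i, c t i = 1 := by
      intro t
      simp only [hc, Finset.sum_add_distrib, ← Finset.mul_sum, hT.sum_eq x hx]
      simp
    have hc0 : ∀ t i, b i x = 0 → c t i = 0 := by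
      intro t i hi
      have : i ≠ j := by rintro rfl; exact hj hi
      simp [hc, hi, this]
    have hcp : ∀ t, 0 ≤ t → t < 1 → ∀ i, b i x ≠ 0 → 0 < c t i := by
      intro t h0 h1 i hi
      have h2 : 0 < (1 - t) * b i x := mul_pos (by linarith) (hbp i hi)
      have h3 : 0 ≤ t * (if i = j then (1 : ℝ) else 0) := by
        split_ifs <;> simp [h0]
      simp only [hc]
      linarith
    set z : ℝ → (Fin n → ℝ) := fun t => ∑ i, c t i • p i with hz
    have hzc : Continuous z := by
      simp only [hz, hc]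
      fun_prop
    have hz0 : z 0 = x := by
      simp only [hz, hc]
      simpa using hT.rep x hx
    have hz1 : z 1 = p j := by
      simp [hz, hc]
    have hcl : ∀ L : (Fin n → ℝ) →ᵃ[ℝ] (Fin n → ℝ), IsClosed {t : ℝ | f (z t) = L (z t)} :=
      fun L => isClosed_eq (hf.comp hzc) (L.continuous_of_finiteDimensional.comp hzc)
    have hIco : ∀ t ∈ Set.Ico (0 : ℝ) 1, f (z t) = L₀ (z t) := by
      by_contra hcon
      push Not at hcon
      obtain ⟨t, ht, hne⟩ := hcon
      have hpre : IsPreconnected (Set.Ico (0 : ℝ) 1) := isPreconnected_Ico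
      rw [isPreconnected_closed_iff] at hpre
      have hcl2 : IsClosed (⋃ L ∈ {L ∈ s | L x ≠ L₀ x}, {t : ℝ | f (z t) = L (z t)}) :=
        (hs.subset (Set.sep_subset _ _)).isClosed_biUnion fun L _ => hcl L
      have hcov : ∀ u ∈ Set.Ico (0 : ℝ) 1, u ∉ {t : ℝ | f (z t) = L₀ (z t)} →
          u ∈ (⋃ L ∈ {L ∈ s | L x ≠ L₀ x}, {t : ℝ | f (z t) = L (z t)}) := by
        intro u hu hun
        obtain ⟨L, hL, hLu⟩ := hsel (z u)
        have hLx : L x ≠ L₀ x := by
          intro hLx
          apply hun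
          have h1 : ∀ i, b i x ≠ 0 → L (p i) = L₀ (p i) := by
            refine agree_vertices (fun k => hNC L hL L₀ hL₀ k) hx (hT.sum_eq x hx)
              (fun i hi => hi) hbp ?_
            rw [hT.rep x hx]
            exact hLx
          have h2 : L (z u) = L₀ (z u) := by
            simp only [hz]
            rw [affine_sum _ _ _ (hcsum u), affine_sum _ _ _ (hcsum u)]
            refine Finset.sum_congr rfl fun i _ => ?_
            by_cases hi : b i x = 0
            · rw [hc0 u i hi, zero_smul, zero_smul]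
            · rw [h1 i hi]
          exact hLu.trans h2
        exact Set.mem_biUnion (show L ∈ {L ∈ s | L x ≠ L₀ x} from ⟨hL, hLx⟩) hLu
      obtain ⟨u, hu, hu1, hu2⟩ := hpre _ _ (hcl L₀) hcl2
        (fun u hu => by
          by_cases h : u ∈ {t : ℝ | f (z t) = L₀ (z t)}
          · exact Or.inl h
          · exact Or.inr (hcov u hu h))
        ⟨0, ⟨le_rfl, one_pos⟩, by
          change f (z 0) = L₀ (z 0)
          rw [hz0]
          exact hfx⟩
        ⟨t, ht, hcov t ht hne⟩
      obtain ⟨L, ⟨hL, hLx⟩, hLu⟩ := Set.mem_iUnion₂.1 hu2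
      have e1 : f (z u) = L₀ (z u) := hu1
      have e2 : f (z u) = L (z u) := hLu
      apply hLx
      have h1 : ∀ i, b i x ≠ 0 → L (p i) = L₀ (p i) :=
        agree_vertices (fun k => hNC L hL L₀ hL₀ k) hx (hcsum u) (hc0 u)
          (hcp u hu.1 hu.2) (e2.symm.trans e1)
      conv_lhs => rw [← hT.rep x hx]
      rw [affine_sum _ _ _ (hT.sum_eq x hx), hrep]
      refine Finset.sum_congr rfl fun i _ => ?_
      by_cases hi : b i x = 0
      · rw [hi, zero_smul, zero_smul]
      · rw [h1 i hi]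
    have hsub : closure (Set.Ico (0 : ℝ) 1) ⊆ {t : ℝ | f (z t) = L₀ (z t)} :=
      closure_minimal (fun t ht => hIco t ht) (hcl L₀)
    rw [closure_Ico zero_ne_one] at hsub
    have h1 : f (z 1) = L₀ (z 1) := hsub ⟨zero_le_one, le_rfl⟩
    rwa [hz1] at h1
  rw [hfx, hrep]
  refine Finset.sum_congr rfl fun i _ => ?_
  by_cases hi : b i x = 0
  · rw [hi, zero_smul, zero_smul]
  · rw [hvert i hi]

end Pool.Agent.W_MP_27356f_gt
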