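import Pool.Agent.W_MP_27356f_gt.Refine
import Pool.Agent.W_MP_27356f_gt.Simplex
import Pool.Agent.W_MP_27356f_gt.TriAff

namespace Pool.Agent.W_MP_27356f_gt

/-- Q8 Choice of the data: a triangulation adapted to `f`. -/
theorem exists_adapted {n : ℕ} {f : (Fin n → ℝ) ≃ₜ (Fin n → ℝ)} (hf : f ∈ PLc (Fin n → ℝ)) :
    ∃ (N M : ℕ) (_ : N < M) (κ : Type) (_ : Fintype κ) (p : κ → Fin n → ℝ)
      (b : κ → (Fin n → ℝ) → ℝ), IsTri p b (simp n M) ∧ (∀ x, x ∉ simp n M → f x = x) ∧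
      (∀ x ∈ simp n M, f x = ∑ i, b i x • f (p i)) ∧
      (∀ i, p i ∉ simp n N → f (p i) = p i) ∧
      ∀ x ∈ simp n M, ∀ i, b i x ≠ 0 → f (p i) ≠ p i → ∀ j, b j x ≠ 0 → p j ∈ simp n N := by
  classical
  obtain ⟨⟨hfc, s, hs, hsel⟩, K, hK, hfK⟩ := hf
  obtain ⟨N, hN⟩ := exists_subset_simp hK
  have hR : (0 : ℝ) < ((N + 1 : ℕ) : ℝ) := by positivity
  obtain ⟨p₀, b₀, h₀⟩ := exists_tri_simp n hR
  let low : Fin n → (Fin n → ℝ) →ᵃ[ℝ] ℝ := fun k =>
    (LinearMap.proj (R := ℝ) (φ := fun _ : Fin n => ℝ) k).toAffineMap +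
      AffineMap.const ℝ (Fin n → ℝ) (N : ℝ)
  let up : (Fin n → ℝ) →ᵃ[ℝ] ℝ :=
    AffineMap.const ℝ (Fin n → ℝ) (N : ℝ) -
      (∑ k, LinearMap.proj (R := ℝ) (φ := fun _ : Fin n => ℝ) k).toAffineMap
  have hlow : ∀ k x, low k x = x k + N := fun k x => rfl
  have hup : ∀ x, up x = N - ∑ k, x k := fun x => by
    change (N : ℝ) - (∑ k, LinearMap.proj (R := ℝ) (φ := fun _ : Fin n => ℝ) k) x = _
    rw [LinearMap.sum_apply]
    rfl
  let S : Finset ((Fin n → ℝ) →ᵃ[ℝ] ℝ) :=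
    ((hs.toFinset ×ˢ hs.toFinset ×ˢ (Finset.univ : Finset (Fin n))).image
      (fun t => coordDiff t.1 t.2.1 t.2.2)) ∪ (Finset.univ.image low ∪ {up})
  obtain ⟨κ, hκ, p, b, hT, hNC⟩ := exists_refine (convex_simp n ((N + 1 : ℕ) : ℝ)) S.toList h₀
  have hNC' : ∀ ℓ ∈ S, NC p b (simp n ((N + 1 : ℕ) : ℝ)) ℓ := fun ℓ hℓ =>
    hNC ℓ (Finset.mem_toList.mpr hℓ)
  have hKN : ∀ x ∈ K, x ∈ simp n (N : ℝ) := fun x hx =>
    ⟨fun i => ((hN x hx).1 i).le, (hN x hx).2.le⟩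
  have hNM : ∀ x, x ∈ simp n (N : ℝ) → x ∈ simp n ((N + 1 : ℕ) : ℝ) := by
    intro x hx
    refine ⟨fun i => ?_, ?_⟩
    · have := hx.1 i
      push_cast
      linarith
    · have := hx.2
      push_cast
      linarith
  refine ⟨N, N + 1, Nat.lt_succ_self N, κ, hκ, p, b, hT, ?_, ?_, ?_, ?_⟩
  · intro x hx
    exact hfK x fun h => hx (hNM x (hKN x h))
  · refine tri_affine (convex_simp n _) hT hfc hs hsel fun L hL L' hL' k => hNC' _ ?_
    refine Finset.mem_union_left _ (Finset.mem_image.mpr ⟨(L, L', k), ?_, rfl⟩)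
    simp [hL, hL']
  · intro i hi
    exact hfK _ fun h => hi (hKN _ h)
  · intro x hx i hi hfi j hj
    have hpi : p i ∈ K := by
      by_contra h
      exact hfi (hfK _ h)
    have key : ∀ ℓ ∈ S, 0 < ℓ (p i) → 0 ≤ ℓ (p j) := by
      intro ℓ hℓ hpos
      rcases hNC' ℓ hℓ x hx with h | h
      · exact h j hj
      · exact absurd (h i hi) (not_le.mpr hpos)
    refine ⟨fun k => ?_, ?_⟩
    · have := key (low k) (Finset.mem_union_right _ (Finset.mem_union_left _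
        (Finset.mem_image.mpr ⟨k, Finset.mem_univ k, rfl⟩)))
        (by rw [hlow]; linarith [(hN _ hpi).1 k])
      rw [hlow] at this
      linarith
    · have := key up (Finset.mem_union_right _ (Finset.mem_union_right _
        (Finset.mem_singleton_self _)))
        (by rw [hup]; linarith [(hN _ hpi).2])
      rw [hup] at this
      linarith

end Pool.Agent.W_MP_27356f_gt
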