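import Pool.Agent.W_MP_27356f_gt.PLBasic

namespace Pool.Agent.W_MP_27356f_gt

/-- T18 Lip: PL maps are Lipschitz -/
theorem IsPL.exists_lipschitz {E F : Type*} [NormedAddCommGroup E] [NormedSpace ℝ E]
    [FiniteDimensional ℝ E] [NormedAddCommGroup F] [NormedSpace ℝ F] {f : E → F}
    (hf : IsPL f) : ∃ C : ℝ, 0 ≤ C ∧ ∀ x y, ‖f x - f y‖ ≤ C * ‖x - y‖ := by
  obtain ⟨hc, s, hs, hfs⟩ := hf
  -- a common bound for the linear parts
  have hC : ∃ C : ℝ, 0 ≤ C ∧ ∀ L ∈ s, ∀ v, ‖L.linear v‖ ≤ C * ‖v‖ := by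
    clear hfs
    induction s, hs using Set.Finite.induction_on with
    | empty => exact ⟨0, le_rfl, fun L hL => absurd hL (Set.notMem_empty L)⟩
    | @insert a u ha hu ih =>
      obtain ⟨C, hC0, hC⟩ := ih
      refine ⟨Max.max C ‖LinearMap.toContinuousLinearMap a.linear‖, le_max_of_le_left hC0, ?_⟩
      intro L hL v
      rcases Set.mem_insert_iff.mp hL with rfl | hL
      · have h1 := (LinearMap.toContinuousLinearMap L.linear).le_opNorm v
        rw [LinearMap.coe_toContinuousLinearMap'] at h1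
        exact h1.trans (mul_le_mul_of_nonneg_right (le_max_right _ _) (norm_nonneg v))
      · exact (hC L hL v).trans (mul_le_mul_of_nonneg_right (le_max_left _ _) (norm_nonneg v))
  obtain ⟨C, hC0, hC⟩ := hC
  refine ⟨C, hC0, ?_⟩
  -- the local estimate
  have hloc : ∀ x0, ∀ᶠ x in nhds x0, ‖f x - f x0‖ ≤ C * ‖x - x0‖ := by
    intro x0
    have h1 : ∀ L ∈ s, ∀ᶠ x in nhds x0, f x = L x → f x0 = L x0 := by
      intro L _
      by_cases h : f x0 = L x0
      · exact Filter.Eventually.of_forall fun _ _ => h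
      · have h2 : ∀ᶠ x in nhds x0, f x ≠ L x :=
          (isOpen_ne_fun hc L.continuous_of_finiteDimensional).mem_nhds h
        filter_upwards [h2] with x hx hx'
        exact absurd hx' hx
    have h2 : ∀ᶠ x in nhds x0, ∀ L ∈ s, f x = L x → f x0 = L x0 :=
      (Filter.eventually_all_finite hs).mpr h1
    filter_upwards [h2] with x hx
    obtain ⟨L, hL, hLx⟩ := hfs x
    have h3 := hx L hL hLx
    have h4 : L x - L x0 = L.linear (x - x0) := by
      have := L.linearMap_vsub x x0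
      rw [vsub_eq_sub, vsub_eq_sub] at this
      exact this.symm
    rw [hLx, h3, h4]
    exact hC L hL _
  intro x y
  -- along the segment
  set γ : ℝ → E := fun t => y + t • (x - y) with hγ
  have hγc : Continuous γ := by rw [hγ]; fun_prop
  have key : Set.Icc (0 : ℝ) 1 ⊆ {t | ‖f (γ t) - f y‖ ≤ C * ‖x - y‖ * t} := by
    apply IsClosed.Icc_subset_of_forall_exists_gt
    · refine IsClosed.inter ?_ isClosed_Icc
      exact isClosed_le ((hc.comp hγc).sub continuous_const).norm (by fun_prop)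
    · simp [hγ]
    · rintro t ⟨ht, ht0, ht1⟩ r hr
      have h1 : ∀ᶠ u in nhds t, ‖f (γ u) - f (γ t)‖ ≤ C * ‖γ u - γ t‖ :=
        (hγc.tendsto t).eventually (hloc (γ t))
      have h2 : ∀ᶠ u in nhdsWithin t (Set.Ioi t), ‖f (γ u) - f (γ t)‖ ≤ C * ‖γ u - γ t‖ :=
        h1.filter_mono nhdsWithin_le_nhds
      have h3 : ∀ᶠ u in nhdsWithin t (Set.Ioi t), u ∈ Set.Ioc t r :=
        Ioc_mem_nhdsGT hr
      obtain ⟨u, hu, hu'⟩ := (h2.and h3).exists
      refine ⟨u, ?_, hu'⟩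
      have h4 : γ u - γ t = (u - t) • (x - y) := by
        simp only [hγ, sub_smul]; abel
      rw [h4, norm_smul, Real.norm_eq_abs, abs_of_pos (sub_pos.mpr hu'.1)] at hu
      have ht' : ‖f (γ t) - f y‖ ≤ C * ‖x - y‖ * t := ht
      show ‖f (γ u) - f y‖ ≤ C * ‖x - y‖ * u
      calc ‖f (γ u) - f y‖ = ‖(f (γ u) - f (γ t)) + (f (γ t) - f y)‖ := by abel_nf
        _ ≤ ‖f (γ u) - f (γ t)‖ + ‖f (γ t) - f y‖ := norm_add_le _ _
        _ ≤ C * ((u - t) * ‖x - y‖) + C * ‖x - y‖ * t := add_le_add hu ht'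
        _ = C * ‖x - y‖ * u := by ring
  have h := key (Set.right_mem_Icc.mpr zero_le_one)
  have h' : ‖f (γ 1) - f y‖ ≤ C * ‖x - y‖ * 1 := h
  simpa [hγ] using h'

end Pool.Agent.W_MP_27356f_gt
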