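import Pool.Agent.W_MP_27356f_gt.Mono
import Pool.Agent.W_MP_27356f_gt.Lip

namespace Pool.Agent.W_MP_27356f_gt

/-- Q7 SmallMono: a PL map with small Lipschitz displacement and compact support -/
theorem small_mem {n : ℕ} {u : (Fin n → ℝ) → (Fin n → ℝ)} (hu : IsPL u) {C : ℝ}
    (hC : n * C < 1) (hLip : ∀ x y, ‖u x - u y‖ ≤ C * ‖x - y‖)
    {K : Set (Fin n → ℝ)} (hK : IsCompact K) (huK : ∀ x, x ∉ K → u x = 0) :
    ∃ f ∈ ⁅PLc (Fin n → ℝ), PLc (Fin n → ℝ)⁆, ∀ x, f x = x + u x := by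
  apply mono_mem (m := fun x => x + u x) (isPL_id.add hu) ?_ hK
    (fun x hx => by rw [huK x hx, add_zero])
  intro x y hxy
  have hd0 : 0 < ‖x - y‖ := norm_pos_iff.mpr (sub_ne_zero.mpr hxy)
  -- a coordinate realising the norm
  obtain ⟨i₀, hi₀⟩ : ∃ i, ‖(x - y) i‖ = ‖x - y‖ := by
    by_contra hcon
    push Not at hcon
    have hn : ∀ i, ‖(x - y) i‖ < ‖x - y‖ :=
      fun i => lt_of_le_of_ne (norm_le_pi_norm _ i) (hcon i)
    exact lt_irrefl _ ((pi_norm_lt_iff hd0).mpr hn)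
  have h1 : ‖x - y‖ ^ 2 ≤ ∑ i, (x i - y i) ^ 2 := by
    rw [← hi₀, Real.norm_eq_abs, sq_abs]
    exact Finset.single_le_sum (f := fun i => (x i - y i) ^ 2) (fun i _ => sq_nonneg _)
      (Finset.mem_univ i₀)
  have h2 : ∀ i, -(C * ‖x - y‖ ^ 2) ≤ (u x i - u y i) * (x i - y i) := by
    intro i
    have h3 : |u x i - u y i| ≤ C * ‖x - y‖ := (norm_le_pi_norm (u x - u y) i).trans (hLip x y)
    have h4 : |x i - y i| ≤ ‖x - y‖ := norm_le_pi_norm (x - y) i
    have h5 : |(u x i - u y i) * (x i - y i)| ≤ (C * ‖x - y‖) * ‖x - y‖ := by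
      rw [abs_mul]
      exact mul_le_mul h3 h4 (abs_nonneg _) ((abs_nonneg _).trans h3)
    have h6 := neg_abs_le ((u x i - u y i) * (x i - y i))
    nlinarith
  have h7 : -(n * (C * ‖x - y‖ ^ 2)) ≤ ∑ i, (u x i - u y i) * (x i - y i) := by
    have := Finset.sum_le_sum (fun i (_ : i ∈ Finset.univ) => h2 i)
    rw [Finset.sum_const, Finset.card_univ, Fintype.card_fin, nsmul_eq_mul] at this
    linarith
  have h8 : ∑ i, ((x + u x) i - (y + u y) i) * (x i - y i)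
      = ∑ i, (x i - y i) ^ 2 + ∑ i, (u x i - u y i) * (x i - y i) := by
    rw [← Finset.sum_add_distrib]
    refine Finset.sum_congr rfl fun i _ => ?_
    simp only [Pi.add_apply]
    ring
  change 0 < ∑ i, ((x + u x) i - (y + u y) i) * (x i - y i)
  rw [h8]
  have h9 : 0 < ‖x - y‖ ^ 2 * (1 - n * C) := mul_pos (by positivity) (by linarith)
  nlinarith

end Pool.Agent.W_MP_27356f_gt
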