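import Pool.Agent.W_MP_27356f_gt.RatCount
import Pool.Agent.W_MP_27356f_gt.SmallMono
import Pool.Agent.W_MP_27356f_gt.Adapted

namespace Pool.Agent.W_MP_27356f_gt

theorem perturb_isPL_sum {E F : Type*} [NormedAddCommGroup E] [NormedSpace ℝ E]
    [NormedAddCommGroup F] [NormedSpace ℝ F] {κ : Type*} (s : Finset κ) {f : κ → E → F}
    (hf : ∀ i ∈ s, IsPL (f i)) : IsPL (fun x => ∑ i ∈ s, f i x) := by
  classical
  induction s using Finset.induction_on with
  | empty => simpa using isPL_const (0 : F)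
  | insert a s ha ih =>
    simp only [Finset.sum_insert ha]
    exact (hf a (by simp)).add (ih fun i hi => hf i (by simp [hi]))

theorem perturb_isPL_smul {E F : Type*} [NormedAddCommGroup E] [NormedSpace ℝ E]
    [NormedAddCommGroup F] [NormedSpace ℝ F] {c : E → ℝ} (hc : IsPL c) (v : F) :
    IsPL (fun x => c x • v) := by
  have h := IsPL.comp (isPL_linear (LinearMap.toSpanSingleton ℝ F v)) hc
  simpa [LinearMap.toSpanSingleton_apply] using h

/-- rational points are dense -/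
theorem perturb_exists_ratPt {n : ℕ} (y : Fin n → ℝ) {δ : ℝ} (hδ : 0 < δ) :
    ∃ r : Fin n → ℝ, IsRatPt r ∧ ‖r - y‖ < δ := by
  have h : ∀ i, ∃ r : ℚ, |(r : ℝ) - y i| < δ := by
    intro i
    obtain ⟨r, h1, h2⟩ := exists_rat_btwn (show y i - δ < y i + δ by linarith)
    exact ⟨r, by rw [abs_lt]; constructor <;> linarith⟩
  choose r hr using h
  refine ⟨fun i => (r i : ℝ), fun i => ⟨r i, rfl⟩, ?_⟩
  rw [pi_norm_lt_iff hδ]
  intro i
  simpa [Real.norm_eq_abs] using hr i

/-- affine independence of subfamilies is stable under small perturbations -/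
theorem perturb_ind {n : ℕ} {κ : Type} [Fintype κ] (p : κ → Fin n → ℝ) :
    ∃ ε : ℝ, 0 < ε ∧ ∀ p' : κ → Fin n → ℝ, (∀ i, ‖p' i - p i‖ < ε) → ∀ A : Set κ,
      AffineIndependent ℝ (fun i : A => p i) → AffineIndependent ℝ (fun i : A => p' i) := by
  classical
  have h : ∀ᶠ p' in nhds p, ∀ A : Set κ,
      AffineIndependent ℝ (fun i : A => p i) → AffineIndependent ℝ (fun i : A => p' i) := by
    rw [Filter.eventually_all]
    intro A
    by_cases hA : AffineIndependent ℝ (fun i : A => p i)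
    · have ho : IsOpen {q : A → Fin n → ℝ | AffineIndependent ℝ q} :=
        isOpen_setOfPred_affineIndependent
      have hc : Continuous (fun (p' : κ → Fin n → ℝ) (i : A) => p' i) := by fun_prop
      have := (ho.preimage hc).mem_nhds (show p ∈ _ from hA)
      filter_upwards [this] with p' hp' _
      exact hp'
    · exact Filter.Eventually.of_forall fun _ h => absurd h hA
  obtain ⟨ε, hε, hε'⟩ := Metric.eventually_nhds_iff.mp h
  refine ⟨ε, hε, fun p' hp' => hε' ?_⟩
  rw [dist_pi_lt_iff hε]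
  intro i
  rw [dist_eq_norm]
  exact hp' i

theorem perturb_affine_comb {n : ℕ} {κ : Type} [Fintype κ]
    (L : (Fin n → ℝ) →ᵃ[ℝ] (Fin n → ℝ)) (c : κ → ℝ) (hc : ∑ i, c i = 1)
    (p : κ → Fin n → ℝ) : L (∑ i, c i • p i) = ∑ i, c i • L (p i) := by
  have e : ∀ x, L x = L.linear x + L 0 := by
    intro x
    have := L.map_vadd 0 x
    simpa using this
  rw [e (∑ i, c i • p i)]
  have : ∑ i, c i • L (p i) = ∑ i, (c i • L.linear (p i) + c i • L 0) := by
    refine Finset.sum_congr rfl fun i _ => ?_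
    rw [e (p i), smul_add]
  rw [this, Finset.sum_add_distrib, ← Finset.sum_smul, hc, one_smul, map_sum]
  simp

theorem perturb_isRatAff_id (n : ℕ) : IsRatAff (AffineMap.id ℝ (Fin n → ℝ)) := fun _ hx => hx

theorem perturb_comm_le {n : ℕ} :
    ⁅PLc (Fin n → ℝ), PLc (Fin n → ℝ)⁆ ≤ PLc (Fin n → ℝ) := by
  rw [Subgroup.commutator_le]
  intro g hg h hh
  rw [commutatorElement_def]
  exact mul_mem (mul_mem (mul_mem hg hh) (inv_mem hg)) (inv_mem hh)

/-- Q9 Perturb: every element is rational modulo commutators. -/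
theorem exists_rat {n : ℕ} {f : (Fin n → ℝ) ≃ₜ (Fin n → ℝ)} (hf : f ∈ PLc (Fin n → ℝ)) :
    ∃ A ∈ ⁅PLc (Fin n → ℝ), PLc (Fin n → ℝ)⁆, ∃ B ∈ ⁅PLc (Fin n → ℝ), PLc (Fin n → ℝ)⁆,
      B * f * A⁻¹ ∈ RatPL n := by
  classical
  obtain ⟨N, M, hNM, κ, hκ, p, b, hT, hfM, haff, hfix, hadj⟩ := exists_adapted hf
  have hfsPL : IsPL (fun x => f.symm x) := isPL_symm f (mem_PLc.mp hf).1
  obtain ⟨C', hC'0, hC'⟩ := hfsPL.exists_lipschitz
  -- the coefficient functions
  set c : κ → (Fin n → ℝ) → ℝ := fun i =>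
    if p i ∈ simp n N then (simp n M).indicator (b i) else fun _ => 0 with hc
  have hcPL : ∀ i, IsPL (c i) := by
    intro i
    by_cases hi : p i ∈ simp n N
    · simp only [hc, if_pos hi]
      exact isPL_indicator (by exact_mod_cast hNM) hT hi
    · simp only [hc, if_neg hi]
      exact isPL_const 0
  have hcJ : ∀ i, p i ∈ simp n N → ∀ x ∈ simp n M, c i x = b i x := by
    intro i hi x hx
    simp only [hc, if_pos hi]
    exact Set.indicator_of_mem hx _
  have hcoff : ∀ i, ∀ x, x ∉ simp n M → c i x = 0 := by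
    intro i x hx
    by_cases hi : p i ∈ simp n N
    · simp only [hc, if_pos hi]
      exact Set.indicator_of_notMem hx _
    · simp only [hc, if_neg hi]
  have hcL : ∀ i, ∃ C : ℝ, 0 ≤ C ∧ ∀ x y, ‖c i x - c i y‖ ≤ C * ‖x - y‖ := fun i =>
    (hcPL i).exists_lipschitz
  choose Cc hCc0 hCc using hcL
  set S : ℝ := ∑ i, Cc i with hS
  have hS0 : 0 ≤ S := Finset.sum_nonneg fun i _ => hCc0 i
  obtain ⟨ε, hε, hind⟩ := perturb_ind p
  -- choice of δ
  obtain ⟨δ, hδ, hδε, hδ1, hδ2⟩ : ∃ δ : ℝ, 0 < δ ∧ δ ≤ ε ∧ n * (δ * S) < 1 ∧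
      n * (δ * S * C') < 1 := by
    have hT1 : 0 ≤ (n : ℝ) * S := mul_nonneg (Nat.cast_nonneg n) hS0
    have hT2 : 0 ≤ (n : ℝ) * S * C' := mul_nonneg hT1 hC'0
    set T : ℝ := n * S + n * S * C' + 1 with hT'
    have hTpos : 0 < T := by linarith
    refine ⟨min ε (1 / (2 * T)), lt_min hε (by positivity), min_le_left _ _, ?_, ?_⟩
    · have h1 : min ε (1 / (2 * T)) ≤ 1 / (2 * T) := min_le_right _ _
      calc (n : ℝ) * (min ε (1 / (2 * T)) * S) = min ε (1 / (2 * T)) * (n * S) := by ring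
        _ ≤ 1 / (2 * T) * T := mul_le_mul h1 (by linarith) hT1 (by positivity)
        _ = 1 / 2 := by field_simp
        _ < 1 := by norm_num
    · have h1 : min ε (1 / (2 * T)) ≤ 1 / (2 * T) := min_le_right _ _
      calc (n : ℝ) * (min ε (1 / (2 * T)) * S * C') = min ε (1 / (2 * T)) * (n * S * C') := by
            ring
        _ ≤ 1 / (2 * T) * T := mul_le_mul h1 (by linarith) hT2 (by positivity)
        _ = 1 / 2 := by field_simp
        _ < 1 := by norm_num
  -- the perturbed points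
  have hrp : ∀ i, ∃ r : Fin n → ℝ, IsRatPt r ∧ ‖r - p i‖ < δ := fun i =>
    perturb_exists_ratPt (p i) hδ
  have hrq : ∀ i, ∃ r : Fin n → ℝ, IsRatPt r ∧ ‖r - f (p i)‖ < δ := fun i =>
    perturb_exists_ratPt (f (p i)) hδ
  choose rp hrp1 hrp2 using hrp
  choose rq hrq1 hrq2 using hrq
  set p' : κ → Fin n → ℝ := fun i => if p i ∈ simp n N then rp i else p i with hp'
  set q : κ → Fin n → ℝ := fun i => if f (p i) = p i then p' i else rq i with hq
  have hp'J : ∀ i, p i ∉ simp n N → p' i = p i := fun i hi => by simp only [hp', if_neg hi]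
  have hp'δ : ∀ i, ‖p' i - p i‖ < δ := by
    intro i
    by_cases hi : p i ∈ simp n N
    · simp only [hp', if_pos hi]; exact hrp2 i
    · rw [hp'J i hi]; simpa using hδ
  have hqδ : ∀ i, ‖q i - f (p i)‖ < δ := by
    intro i
    by_cases hi : f (p i) = p i
    · simp only [hq, if_pos hi]
      rw [hi]; exact hp'δ i
    · simp only [hq, if_neg hi]
      exact hrq2 i
  have hqJ : ∀ i, p i ∉ simp n N → q i = f (p i) := by
    intro i hi
    have h1 := hfix i hi
    simp only [hq, if_pos h1]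
    rw [hp'J i hi, h1]
  -- a general displacement
  have hlip : ∀ v : κ → Fin n → ℝ, (∀ i, ‖v i‖ < δ) → ∀ x y,
      ‖(∑ i, c i x • v i) - ∑ i, c i y • v i‖ ≤ δ * S * ‖x - y‖ := by
    intro v hv x y
    rw [← Finset.sum_sub_distrib]
    calc ‖∑ i, (c i x • v i - c i y • v i)‖ ≤ ∑ i, ‖c i x • v i - c i y • v i‖ :=
          norm_sum_le _ _
      _ ≤ ∑ i, Cc i * ‖x - y‖ * δ := by
          refine Finset.sum_le_sum fun i _ => ?_
          rw [← sub_smul, norm_smul]
          exact mul_le_mul (hCc i x y) (hv i).le (norm_nonneg _)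
            (mul_nonneg (hCc0 i) (norm_nonneg _))
      _ = δ * S * ‖x - y‖ := by
          rw [hS, Finset.mul_sum, Finset.sum_mul]
          refine Finset.sum_congr rfl fun i _ => ?_
          ring
  have hPL : ∀ v : κ → Fin n → ℝ, IsPL (fun x => ∑ i, c i x • v i) := fun v =>
    perturb_isPL_sum _ fun i _ => perturb_isPL_smul (hcPL i) (v i)
  have hoff : ∀ v : κ → Fin n → ℝ, ∀ x, x ∉ simp n M → ∑ i, c i x • v i = 0 := by
    intro v x hx
    refine Finset.sum_eq_zero fun i _ => ?_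
    rw [hcoff i x hx, zero_smul]
  set u : (Fin n → ℝ) → (Fin n → ℝ) := fun x => ∑ i, c i x • (p' i - p i) with hu
  set w : (Fin n → ℝ) → (Fin n → ℝ) := fun x => ∑ i, c i x • (q i - f (p i)) with hw
  have hfsoff : ∀ x, x ∉ simp n M → f.symm x = x := by
    intro x hx
    rw [Homeomorph.symm_apply_eq, hfM x hx]
  obtain ⟨A, hA, hAx⟩ := small_mem (hPL fun i => p' i - p i) hδ1
    (hlip _ hp'δ) (isCompact_simp n M) (hoff _)
  obtain ⟨B, hB, hBx⟩ := small_mem (u := fun x => w (f.symm x))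
    ((hPL fun i => q i - f (p i)).comp hfsPL) hδ2
    (fun x y => by
      calc ‖w (f.symm x) - w (f.symm y)‖ ≤ δ * S * ‖f.symm x - f.symm y‖ :=
            hlip _ hqδ _ _
        _ ≤ δ * S * (C' * ‖x - y‖) :=
            mul_le_mul_of_nonneg_left (hC' x y) (mul_nonneg hδ.le hS0)
        _ = δ * S * C' * ‖x - y‖ := by ring)
    (isCompact_simp n M) (fun x hx => by
      show w (f.symm x) = 0
      rw [hfsoff x hx]
      exact hoff _ x hx)
  have hAx' : ∀ x, A x = x + u x := hAx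
  have hBx' : ∀ x, B x = x + w (f.symm x) := hBx
  have hAoff : ∀ x, x ∉ simp n M → A x = x := by
    intro x hx
    rw [hAx', hu]
    simp only
    rw [hoff _ x hx, add_zero]
  have hBoff : ∀ x, x ∉ simp n M → B x = x := by
    intro x hx
    rw [hBx', hfsoff x hx, hw]
    simp only
    rw [hoff _ x hx, add_zero]
  have hgoff : ∀ x, x ∉ simp n M → (B * f * A⁻¹) x = x := by
    intro x hx
    have h1 : A⁻¹ x = x := by
      rw [Homeomorph.inv_apply, Homeomorph.symm_apply_eq, hAoff x hx]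
    rw [Homeomorph.mul_apply, Homeomorph.mul_apply, h1, hfM x hx, hBoff x hx]
  refine ⟨A, hA, B, hB, M, hgoff, ?_⟩
  -- the affine pieces
  have hLex : ∀ I : Set κ, ∃ L : (Fin n → ℝ) →ᵃ[ℝ] (Fin n → ℝ), IsRatAff L ∧
      (AffineIndependent ℝ (fun i : I => p' i) → (∀ i ∈ I, IsRatPt (p' i)) →
        (∀ i ∈ I, IsRatPt (q i)) → ∀ i ∈ I, L (p' i) = q i) := by
    intro I
    by_cases h : AffineIndependent ℝ (fun i : I => p' i) ∧ (∀ i ∈ I, IsRatPt (p' i)) ∧
        (∀ i ∈ I, IsRatPt (q i))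
    · obtain ⟨L, hL, hL'⟩ := exists_rat_interp (κ := I) (p := fun i => p' i)
        (q := fun i => q i) h.1 (fun i => h.2.1 i i.2) (fun i => h.2.2 i i.2)
      exact ⟨L, hL, fun _ _ _ i hi => hL' ⟨i, hi⟩⟩
    · exact ⟨AffineMap.id ℝ _, perturb_isRatAff_id n,
        fun h1 h2 h3 => absurd ⟨h1, h2, h3⟩ h⟩
  choose L hLrat hLval using hLex
  refine ⟨insert (AffineMap.id ℝ _) (Set.range L), (Set.finite_range L).insert _, ?_, ?_⟩
  · intro l hl
    rcases Set.mem_insert_iff.mp hl with rfl | ⟨I, rfl⟩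
    · exact perturb_isRatAff_id n
    · exact hLrat I
  intro x
  set z : Fin n → ℝ := A⁻¹ x with hz
  have hxz : x = A z := by rw [hz, Homeomorph.inv_apply, Homeomorph.apply_symm_apply]
  have hgx : (B * f * A⁻¹) x = f z + w z := by
    rw [Homeomorph.mul_apply, Homeomorph.mul_apply, ← hz, hBx', Homeomorph.symm_apply_apply]
  by_cases hzM : z ∈ simp n M
  · -- formulas for `x` and `g x`
    have hx1 : x = ∑ i, b i z • p' i := by
      rw [hxz, hAx', hu]
      simp only
      nth_rewrite 1 [← hT.rep z hzM]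
      rw [← Finset.sum_add_distrib]
      refine Finset.sum_congr rfl fun i _ => ?_
      by_cases hi : p i ∈ simp n N
      · rw [hcJ i hi z hzM, ← smul_add]; congr 1; abel
      · rw [hp'J i hi]; simp
    have hx2 : (B * f * A⁻¹) x = ∑ i, b i z • q i := by
      rw [hgx, haff z hzM, hw]
      simp only
      rw [← Finset.sum_add_distrib]
      refine Finset.sum_congr rfl fun i _ => ?_
      by_cases hi : p i ∈ simp n N
      · rw [hcJ i hi z hzM, ← smul_add]; congr 1; abel
      · rw [hqJ i hi]; simp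
    by_cases hact : ∃ i, b i z ≠ 0 ∧ f (p i) ≠ p i
    · obtain ⟨i, hi1, hi2⟩ := hact
      have hJ := hadj z hzM i hi1 hi2
      refine ⟨L {j | b j z ≠ 0}, Set.mem_insert_of_mem _ ⟨_, rfl⟩, ?_⟩
      have hpr : ∀ j ∈ {j | b j z ≠ 0}, IsRatPt (p' j) := by
        intro j hj
        have h1 : p j ∈ simp n N := hJ j hj
        simp only [hp', if_pos h1]
        exact hrp1 j
      have hqr : ∀ j ∈ {j | b j z ≠ 0}, IsRatPt (q j) := by
        intro j hj
        by_cases hfj : f (p j) = p j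
        · simp only [hq, if_pos hfj]
          exact hpr j hj
        · simp only [hq, if_neg hfj]
          exact hrq1 j
      have hindz : AffineIndependent ℝ (fun i : {j | b j z ≠ 0} => p' i) :=
        hind p' (fun i => (hp'δ i).trans_le hδε) _ (hT.ind z hzM)
      have hval := hLval {j | b j z ≠ 0} hindz hpr hqr
      rw [hx2, hx1, perturb_affine_comb _ _ (hT.sum_eq z hzM)]
      refine Finset.sum_congr rfl fun j _ => ?_
      by_cases hj : b j z = 0
      · rw [hj, zero_smul, zero_smul]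
      · rw [hval j hj]
    · push Not at hact
      refine ⟨AffineMap.id ℝ _, Set.mem_insert _ _, ?_⟩
      rw [AffineMap.id_apply, hx2]
      conv_rhs => rw [hx1]
      refine Finset.sum_congr rfl fun j _ => ?_
      by_cases hj : b j z = 0
      · rw [hj, zero_smul, zero_smul]
      · have h1 := hact j hj
        simp only [hq, if_pos h1]
  · have hxz' : x = z := by rw [hxz, hAoff z hzM]
    refine ⟨AffineMap.id ℝ _, Set.mem_insert _ _, ?_⟩
    rw [AffineMap.id_apply]
    exact hgoff x (by rw [hxz']; exact hzM)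

/-- the abelianization is countable -/
theorem countable_cosets (n : ℕ) :
    ∃ S : Set ((Fin n → ℝ) ≃ₜ (Fin n → ℝ)), S.Countable ∧ (∀ g ∈ S, g ∈ PLc (Fin n → ℝ)) ∧
      ∀ f ∈ PLc (Fin n → ℝ), ∃ g ∈ S, f * g⁻¹ ∈ ⁅PLc (Fin n → ℝ), PLc (Fin n → ℝ)⁆ := by
  refine ⟨RatPL n ∩ PLc (Fin n → ℝ), (countable_ratPL n).mono Set.inter_subset_left,
    fun g hg => hg.2, fun f hf => ?_⟩
  obtain ⟨A, hA, B, hB, hg⟩ := exists_rat hf
  have hAP := perturb_comm_le hA
  have hBP := perturb_comm_le hB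
  refine ⟨B * f * A⁻¹, ⟨hg, mul_mem (mul_mem hBP hf) (inv_mem hAP)⟩, ?_⟩
  have e : f * (B * f * A⁻¹)⁻¹ = (f * A * f⁻¹ * A⁻¹) * A * B⁻¹ := by group
  have hc := Subgroup.commutator_mem_commutator hf hAP
  rw [commutatorElement_def] at hc
  rw [e]
  exact mul_mem (mul_mem hc hA) (inv_mem hB)

end Pool.Agent.W_MP_27356f_gt
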