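import Mathlib

namespace Pool.Agent.W_MP_27356f_gt

/-- T9 Select: a continuous selection of finitely many affine functions of one variable is
affine on an interval whose interior contains no crossing of two of them. -/
theorem affine_between {s : Set (ℝ × ℝ)} (hs : s.Finite) {φ : ℝ → ℝ} (hφ : Continuous φ)
    (hsel : ∀ y, ∃ p ∈ s, φ y = p.1 * y + p.2) {u v : ℝ} (huv : u ≤ v)
    (hcross : ∀ p ∈ s, ∀ q ∈ s, p.1 ≠ q.1 → ∀ y, u < y → y < v → p.1 * y + p.2 ≠ q.1 * y + q.2) :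
    ∃ p ∈ s, ∀ y, u ≤ y → y ≤ v → φ y = p.1 * y + p.2 := by
  rcases huv.eq_or_lt with rfl | huv
  · obtain ⟨p, hp, h⟩ := hsel u
    exact ⟨p, hp, fun y h1 h2 => by rw [le_antisymm h2 h1]; exact h⟩
  obtain ⟨p, hp, h0⟩ := hsel ((u + v) / 2)
  refine ⟨p, hp, ?_⟩
  have hcl : ∀ q : ℝ × ℝ, IsClosed {y : ℝ | φ y = q.1 * y + q.2} := fun q =>
    isClosed_eq hφ (by fun_prop)
  have hopen : ∀ y ∈ Set.Ioo u v, φ y = p.1 * y + p.2 := by
    by_contra hcon
    push Not at hcon
    obtain ⟨y, hy, hne⟩ := hcon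
    have hpre : IsPreconnected (Set.Ioo u v) := isPreconnected_Ioo
    rw [isPreconnected_closed_iff] at hpre
    have hcl2 : IsClosed (⋃ q ∈ s \ {p}, {y : ℝ | φ y = q.1 * y + q.2}) :=
      (hs.subset Set.sdiff_subset).isClosed_biUnion fun q _ => hcl q
    obtain ⟨z, hz, hz1, hz2⟩ := hpre _ _ (hcl p) hcl2
      (by
        intro x _
        obtain ⟨q, hq, hx⟩ := hsel x
        by_cases hqp : q = p
        · left
          rw [← hqp]
          exact hx
        · right
          exact Set.mem_biUnion (show q ∈ s \ {p} from ⟨hq, hqp⟩) hx)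
      ⟨(u + v) / 2, ⟨by linarith, by linarith⟩, h0⟩
      (by
        obtain ⟨q, hq, hx⟩ := hsel y
        have hqp : q ≠ p := by
          rintro rfl
          exact hne hx
        exact ⟨y, hy, Set.mem_biUnion (show q ∈ s \ {p} from ⟨hq, hqp⟩) hx⟩)
    obtain ⟨q, ⟨hq, hqp⟩, hz3⟩ := Set.mem_iUnion₂.1 hz2
    have e1 : φ z = p.1 * z + p.2 := hz1
    have e2 : φ z = q.1 * z + q.2 := hz3
    by_cases hs1 : p.1 = q.1
    · apply hqp
      have : p.2 = q.2 := by rw [hs1] at e1; linarith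
      exact Set.mem_singleton_iff.2 (Prod.ext hs1.symm this.symm)
    · exact hcross p hp q hq hs1 z hz.1 hz.2 (e1.symm.trans e2)
  have hsub : closure (Set.Ioo u v) ⊆ {y : ℝ | φ y = p.1 * y + p.2} :=
    closure_minimal (fun y hy => hopen y hy) (hcl p)
  rw [closure_Ioo huv.ne] at hsub
  exact fun y h1 h2 => hsub ⟨h1, h2⟩

end Pool.Agent.W_MP_27356f_gt
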