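import Pool.Agent.W_MP_27356f_gt.Defs

namespace Pool.Agent.W_MP_27356f_gt

variable {X : Type*} [NormedAddCommGroup X] [NormedSpace ℝ X] [FiniteDimensional ℝ X]

/-- pointwise insertion -/
def sortIns {X : Type*} : (X → ℝ) → List (X → ℝ) → List (X → ℝ)
  | u, [] => [u]
  | u, s :: l => (fun x => min (u x) (s x)) :: sortIns (fun x => max (u x) (s x)) l

theorem sortIns_CS_min {u s : X → ℝ} (hu : CS u) (hs : CS s) : CS (fun x => min (u x) (s x)) := by
  obtain ⟨hu1, R, hR⟩ := hu
  obtain ⟨hs1, R', hR'⟩ := hs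
  refine ⟨hu1.min hs1, max R R', fun x hx => ?_⟩
  show min (u x) (s x) = 0
  rw [hR x ((le_max_left _ _).trans hx), hR' x ((le_max_right _ _).trans hx), min_self]

theorem sortIns_CS_max {u s : X → ℝ} (hu : CS u) (hs : CS s) : CS (fun x => max (u x) (s x)) := by
  obtain ⟨hu1, R, hR⟩ := hu
  obtain ⟨hs1, R', hR'⟩ := hs
  refine ⟨hu1.max hs1, max R R', fun x hx => ?_⟩
  show max (u x) (s x) = 0
  rw [hR x ((le_max_left _ _).trans hx), hR' x ((le_max_right _ _).trans hx), max_self]

theorem sortIns_CS (l : List (X → ℝ)) : ∀ u : X → ℝ, CS u → (∀ t ∈ l, CS t) →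
    ∀ t ∈ sortIns u l, CS t := by
  induction l with
  | nil =>
    intro u hu _ t ht
    have ht' : t = u := by simpa [sortIns] using ht
    rw [ht']
    exact hu
  | cons s l ih =>
    intro u hu hl t ht
    have hs : CS s := hl s (by simp)
    rcases List.mem_cons.mp ht with h | h
    · rw [h]
      exact sortIns_CS_min hu hs
    · exact ih _ (sortIns_CS_max hu hs) (fun t' ht' => hl t' (by simp [ht'])) t h

theorem sortIns_values {X : Type*} (l : List (X → ℝ)) : ∀ (u : X → ℝ) (x : X) (y : ℝ),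
    (∃ t ∈ sortIns u l, t x = y) ↔ (u x = y ∨ ∃ t ∈ l, t x = y) := by
  induction l with
  | nil =>
    intro u x y
    simp [sortIns]
  | cons s l ih =>
    intro u x y
    have h1 : (∃ t ∈ sortIns u (s :: l), t x = y) ↔
        (min (u x) (s x) = y ∨ ∃ t ∈ sortIns (fun x => max (u x) (s x)) l, t x = y) := by
      simp [sortIns]
    have h2 : (∃ t ∈ s :: l, t x = y) ↔ (s x = y ∨ ∃ t ∈ l, t x = y) := by simp
    rw [h1, h2, ih]
    rcases le_total (u x) (s x) with h | h
    · rw [min_eq_left h, max_eq_right h]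
    · rw [min_eq_right h, max_eq_left h]
      constructor
      · rintro (h3 | h3 | h3)
        · exact Or.inr (Or.inl h3)
        · exact Or.inl h3
        · exact Or.inr (Or.inr h3)
      · rintro (h3 | h3 | h3)
        · exact Or.inr (Or.inl h3)
        · exact Or.inl h3
        · exact Or.inr (Or.inr h3)

theorem sortIns_pairwise {X : Type*} (l : List (X → ℝ)) : ∀ u : X → ℝ,
    l.Pairwise (fun s t => ∀ x, s x ≤ t x) →
    (sortIns u l).Pairwise (fun s t => ∀ x, s x ≤ t x) := by
  induction l with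
  | nil =>
    intro u _
    simp [sortIns]
  | cons s l ih =>
    intro u hl
    rw [List.pairwise_cons] at hl
    show ((fun x => min (u x) (s x)) :: sortIns (fun x => max (u x) (s x)) l).Pairwise _
    rw [List.pairwise_cons]
    refine ⟨fun t ht x => ?_, ih _ hl.2⟩
    rcases (sortIns_values l (fun x => max (u x) (s x)) x (t x)).mp ⟨t, ht, rfl⟩ with h | ⟨t', ht', h⟩
    · rw [← h]
      exact (min_le_left _ _).trans (le_max_left _ _)
    · rw [← h]
      exact (min_le_right _ _).trans (hl.1 t' ht' x)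

/-- T10 Sort -/
theorem exists_sorted (l : List (X → ℝ)) (hl : ∀ t ∈ l, CS t) :
    ∃ l' : List (X → ℝ), (∀ t ∈ l', CS t) ∧ l'.Pairwise (fun s t => ∀ x, s x ≤ t x) ∧
      ∀ x y, (∃ t ∈ l, t x = y) ↔ ∃ t ∈ l', t x = y := by
  induction l with
  | nil => exact ⟨[], by simp, by simp, by simp⟩
  | cons u l ih =>
    obtain ⟨l', h1, h2, h3⟩ := ih fun t ht => hl t (by simp [ht])
    refine ⟨sortIns u l', sortIns_CS l' u (hl u (by simp)) h1, sortIns_pairwise l' u h2, ?_⟩
    intro x y
    have h4 : (∃ t ∈ u :: l, t x = y) ↔ (u x = y ∨ ∃ t ∈ l, t x = y) := by simp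
    rw [h4, sortIns_values, h3]

end Pool.Agent.W_MP_27356f_gt
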