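import Pool.Agent.W_MP_27356f_gt.Tail
import Pool.Agent.W_MP_27356f_gt.Select
import Pool.Agent.W_MP_27356f_gt.Sort

namespace Pool.Agent.W_MP_27356f_gt

/-- clamping to `[-χ, χ]` -/
theorem Break_clamp_CS {X : Type*} [NormedAddCommGroup X] [NormedSpace ℝ X]
    [FiniteDimensional ℝ X] {a χ : X → ℝ} (ha : IsPL a) (hχ : CS χ) :
    CS (fun x => max (min (a x) (χ x)) (-χ x)) := by
  refine ⟨(ha.min hχ.1).max hχ.1.neg, ?_⟩
  obtain ⟨R, hR⟩ := hχ.2
  refine ⟨R, fun x hx => ?_⟩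
  simp only [hR x hx, neg_zero]
  exact max_eq_right (min_le_right _ _)

/-- the tail of a sorted list of break points -/
theorem Break_tail {X : Type*} {G : X → ℝ → ℝ} {χ : X → ℝ} {full : List (X → ℝ)}
    (hpw : full.Pairwise (fun s t => ∀ x, s x ≤ t x))
    (hle : ∀ t ∈ full, ∀ x, -χ x ≤ t x ∧ t x ≤ χ x)
    (htop : ∀ x, ∃ t ∈ full, t x = χ x)
    (hG : ∀ x y, χ x ≤ y → G x y = y)
    (haff : ∀ x u v, u ≤ v → -χ x ≤ u → v ≤ χ x → (∀ t ∈ full, ¬ (u < t x ∧ t x < v)) →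
      ∃ c : ℝ, ∀ y, u ≤ y → y ≤ v → G x y = G x u + c * (y - u)) :
    ∀ (l pre : List (X → ℝ)) (s : X → ℝ), full = pre ++ s :: l → Tail G s l := by
  intro l
  induction l with
  | nil =>
    intro pre s hfull x y hy
    have hs : s x = χ x := by
      apply le_antisymm (hle s (by rw [hfull]; simp) x).2
      obtain ⟨t, ht, htx⟩ := htop x
      rw [← htx]
      rw [hfull, List.mem_append, List.mem_singleton] at ht
      rcases ht with ht | ht
      · rw [hfull, List.pairwise_append] at hpw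
        exact hpw.2.2 t ht s (by simp) x
      · rw [ht]
    rw [hG x y (hs ▸ hy), hG x (s x) hs.ge]
    ring
  | cons t l ih =>
    intro pre s hfull
    have hpw' := hpw
    rw [hfull, List.pairwise_append, List.pairwise_cons, List.pairwise_cons] at hpw'
    obtain ⟨-, ⟨hs1, ht1, -⟩, hpre⟩ := hpw'
    refine ⟨hs1 t (by simp), fun x => ?_, ih (pre ++ [s]) t (by rw [hfull]; simp)⟩
    refine haff x (s x) (t x) (hs1 t (by simp) x) (hle s (by rw [hfull]; simp) x).1
      (hle t (by rw [hfull]; simp) x).2 ?_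
    rintro w hw ⟨h1, h2⟩
    rw [hfull, List.mem_append, List.mem_cons, List.mem_cons] at hw
    rcases hw with hw | hw | hw | hw
    · exact absurd h1 (not_lt.2 (hpre w hw s (by simp) x))
    · rw [hw] at h1
      exact lt_irrefl _ h1
    · rw [hw] at h2
      exact lt_irrefl _ h2
    · exact absurd h2 (not_lt.2 (ht1 w hw x))

/-- T11 Break: the break points of an element of `Lc`. -/
theorem exists_tail {ι : Type*} [Fintype ι] {g : (ι → ℝ) × ℝ ≃ₜ (ι → ℝ) × ℝ}
    (hg : g ∈ Lc (ι → ℝ)) :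
    ∃ (s : (ι → ℝ) → ℝ) (l : List ((ι → ℝ) → ℝ)), CS s ∧ (∀ t ∈ l, CS t) ∧
      (∀ x y, y ≤ s x → (g (x, y)).2 = y) ∧ Tail (fun x y => (g (x, y)).2) s l := by
  classical
  obtain ⟨hgL, hgP⟩ := mem_Lc.1 hg
  obtain ⟨hPL, K, hK, hgK⟩ := mem_PLc.1 hgP
  -- the affine pieces
  obtain ⟨hGc, S0, hS0, hGS⟩ : IsPL (fun z : (ι → ℝ) × ℝ => (g z).2) := IsPL.comp isPL_snd hPL
  -- the radius of the support
  obtain ⟨R, hR⟩ := hK.isBounded.subset_ball (0 : (ι → ℝ) × ℝ)
  have hgR : ∀ z : (ι → ℝ) × ℝ, R ≤ ‖z‖ → g z = z := by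
    intro z hz
    refine hgK z fun hzK => ?_
    have := hR hzK
    rw [Metric.mem_ball, dist_zero_right] at this
    linarith
  -- the cutoff
  set χ : (ι → ℝ) → ℝ := fun x => max 0 (2 * R - ‖x‖) with hχ
  have hχPL : IsPL χ := (isPL_const 0).max ((isPL_const (2 * R)).sub isPL_norm_pi)
  have hχCS : CS χ := by
    refine ⟨hχPL, 2 * R, fun x hx => ?_⟩
    rw [hχ]
    exact max_eq_left (by linarith)
  have hχ0 : ∀ x, 0 ≤ χ x := fun x => le_max_left _ _
  have hGχ : ∀ x y, χ x ≤ |y| → (g (x, y)).2 = y := by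
    intro x y hy
    rw [hgR (x, y)]
    rw [Prod.norm_def, le_max_iff]
    by_cases hx : R ≤ ‖x‖
    · exact Or.inl hx
    · right
      have h1 : 2 * R - ‖x‖ ≤ χ x := le_max_right _ _
      rw [Real.norm_eq_abs]
      push Not at hx
      linarith
  -- crossing heights
  set cr : ((ι → ℝ) × ℝ →ᵃ[ℝ] ℝ) × ((ι → ℝ) × ℝ →ᵃ[ℝ] ℝ) → (ι → ℝ) → ℝ := fun p x =>
    (p.1.linear (0, 1) - p.2.linear (0, 1))⁻¹ * (p.2 (x, 0) - p.1 (x, 0)) with hcr
  have hL0 : ∀ L : (ι → ℝ) × ℝ →ᵃ[ℝ] ℝ, IsPL (fun x : ι → ℝ => L (x, 0)) := fun L =>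
    IsPL.comp (isPL_affine L) (isPL_id.prodMk (isPL_const 0))
  have hcrPL : ∀ p, IsPL (cr p) := fun p => IsPL.mul_const _ ((hL0 p.2).sub (hL0 p.1))
  have hLval : ∀ (L : (ι → ℝ) × ℝ →ᵃ[ℝ] ℝ) (x : ι → ℝ) (y : ℝ),
      L (x, y) = L.linear (0, 1) * y + L (x, 0) := by
    intro L x y
    have h1 := L.map_vadd (x, 0) ((0, y) : (ι → ℝ) × ℝ)
    have h2 : ((0, y) : (ι → ℝ) × ℝ) +ᵥ ((x, 0) : (ι → ℝ) × ℝ) = (x, y) := by
      rw [vadd_eq_add, Prod.mk_add_mk, zero_add, add_zero]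
    rw [h2, vadd_eq_add] at h1
    rw [h1]
    have h3 : ((0, y) : (ι → ℝ) × ℝ) = y • ((0, 1) : (ι → ℝ) × ℝ) := by
      rw [Prod.smul_mk, smul_zero, smul_eq_mul, mul_one]
    rw [h3, map_smul, smul_eq_mul, mul_comm]
  -- the list of break points
  set clamp : ((ι → ℝ) → ℝ) → (ι → ℝ) → ℝ := fun a x => max (min (a x) (χ x)) (-χ x) with hclamp
  set l0 : List ((ι → ℝ) → ℝ) := χ :: (fun x => -χ x) ::
    ((hS0.toFinset ×ˢ hS0.toFinset).toList.map fun p => clamp (cr p)) with hl0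
  have hl0CS : ∀ t ∈ l0, CS t := by
    intro t ht
    rw [hl0, List.mem_cons, List.mem_cons, List.mem_map] at ht
    rcases ht with rfl | rfl | ⟨p, -, rfl⟩
    · exact hχCS
    · obtain ⟨R', hR'⟩ := hχCS.2
      exact ⟨hχPL.neg, R', fun x hx => by simp only [hR' x hx, neg_zero]⟩
    · exact Break_clamp_CS (hcrPL p) hχCS
  have hl0le : ∀ t ∈ l0, ∀ x, -χ x ≤ t x ∧ t x ≤ χ x := by
    intro t ht x
    have h0 := hχ0 x
    rw [hl0, List.mem_cons, List.mem_cons, List.mem_map] at ht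
    rcases ht with rfl | rfl | ⟨p, -, rfl⟩
    · exact ⟨by linarith, le_rfl⟩
    · exact ⟨le_rfl, by linarith⟩
    · exact ⟨le_max_right _ _, max_le (min_le_right _ _) (by linarith)⟩
  obtain ⟨l', hl'CS, hl'pw, hl'val⟩ := exists_sorted l0 hl0CS
  have hl'le : ∀ t ∈ l', ∀ x, -χ x ≤ t x ∧ t x ≤ χ x := by
    intro t ht x
    obtain ⟨t', ht', hx⟩ := (hl'val x (t x)).2 ⟨t, ht, rfl⟩
    rw [← hx]
    exact hl0le t' ht' x
  have htop : ∀ x, ∃ t ∈ l', t x = χ x := fun x => (hl'val x (χ x)).1 ⟨χ, by simp [hl0], rfl⟩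
  have hbot : ∀ x, ∃ t ∈ l', t x = -χ x := fun x =>
    (hl'val x (-χ x)).1 ⟨fun x => -χ x, by simp [hl0], rfl⟩
  obtain ⟨s, l, hsl⟩ : ∃ s l, l' = s :: l := by
    cases hl' : l' with
    | nil =>
      obtain ⟨t, ht, -⟩ := htop 0
      rw [hl'] at ht
      exact absurd ht List.not_mem_nil
    | cons s l => exact ⟨s, l, rfl⟩
  have hs : ∀ x, s x = -χ x := by
    intro x
    apply le_antisymm _ (hl'le s (by rw [hsl]; simp) x).1
    obtain ⟨t, ht, htx⟩ := hbot x
    rw [← htx]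
    rw [hsl, List.mem_cons] at ht
    rcases ht with ht | ht
    · rw [ht]
    · rw [hsl, List.pairwise_cons] at hl'pw
      exact hl'pw.1 t ht x
  refine ⟨s, l, hl'CS s (by rw [hsl]; simp), fun t ht => hl'CS t (by rw [hsl]; simp [ht]), ?_, ?_⟩
  · intro x y hy
    rw [hs] at hy
    refine hGχ x y ?_
    have := hχ0 x
    rw [abs_of_nonpos (by linarith)]
    linarith
  · refine Break_tail (χ := χ) hl'pw hl'le htop ?_ ?_ l [] s (by rw [hsl]; rfl)
    · intro x y hy
      exact hGχ x y (hy.trans (le_abs_self y))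
    · intro x u v huv hu hv hno
      have hφ : Continuous (fun y : ℝ => (g (x, y)).2) :=
        hGc.comp (continuous_const.prodMk continuous_id)
      obtain ⟨p, -, hp⟩ := affine_between
        (s := (fun L : (ι → ℝ) × ℝ →ᵃ[ℝ] ℝ => (L.linear (0, 1), L (x, 0))) '' S0) (hS0.image _)
        hφ (fun y => by
          obtain ⟨L, hL, hLy⟩ := hGS (x, y)
          exact ⟨_, ⟨L, hL, rfl⟩, hLy.trans (hLval L x y)⟩) huv (by
          rintro _ ⟨L, hL, rfl⟩ _ ⟨L', hL', rfl⟩ hne y hy1 hy2 heq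
          simp only at hne heq
          -- `y` is a crossing height
          have h1 : y = cr (L, L') x := by
            rw [hcr]
            simp only
            rw [eq_inv_mul_iff_mul_eq₀ (sub_ne_zero.2 hne)]
            linarith
          have h2 : clamp (cr (L, L')) x = y := by
            rw [hclamp]
            simp only
            rw [← h1, min_eq_left (by linarith), max_eq_left (by linarith)]
          have h3 : clamp (cr (L, L')) ∈ l0 := by
            rw [hl0, List.mem_cons, List.mem_cons, List.mem_map]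
            right; right
            refine ⟨(L, L'), ?_, rfl⟩
            rw [Finset.mem_toList, Finset.mem_product, Set.Finite.mem_toFinset,
              Set.Finite.mem_toFinset]
            exact ⟨hL, hL'⟩
          obtain ⟨t, ht, htx⟩ := (hl'val x y).1 ⟨_, h3, h2⟩
          exact hno t ht ⟨by rw [htx]; exact hy1, by rw [htx]; exact hy2⟩)
      refine ⟨p.1, fun y h1 h2 => ?_⟩
      have e1 := hp y h1 h2
      have e2 := hp u le_rfl huv
      rw [e1, e2]
      ring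

end Pool.Agent.W_MP_27356f_gt
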