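import Pool.Agent.W_MP_27356f_gt.MkLin
import Pool.Agent.W_MP_27356f_gt.Transport

namespace Pool.Agent.W_MP_27356f_gt

/-- a continuous map which is the identity off a compact set is closed -/
theorem isClosedMap_of_eq_off {E : Type*} [TopologicalSpace E] [T2Space E] {m : E → E}
    (hc : Continuous m) {K : Set E} (hK : IsCompact K) (hmK : ∀ x, x ∉ K → m x = x) :
    IsClosedMap m := by
  intro C hC
  have hid : ∀ x ∈ closure Kᶜ, m x = x := by
    have h1 : closure Kᶜ ⊆ {x | m x = x} :=
      closure_minimal (fun x hx => hmK x hx) (isClosed_eq hc continuous_id)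
    exact fun x hx => h1 hx
  have hsplit : m '' C = m '' (C ∩ K) ∪ (C ∩ closure Kᶜ) := by
    ext y
    constructor
    · rintro ⟨x, hx, rfl⟩
      by_cases hxK : x ∈ K
      · exact Or.inl ⟨x, ⟨hx, hxK⟩, rfl⟩
      · right
        rw [hmK x hxK]
        exact ⟨hx, subset_closure hxK⟩
    · rintro (⟨x, hx, rfl⟩ | ⟨hy1, hy2⟩)
      · exact ⟨x, hx.1, rfl⟩
      · exact ⟨y, hy1, hid y hy2⟩
  rw [hsplit]
  exact ((hK.inter_left hC).image hc).isClosed.union (hC.inter isClosed_closure)

/-- T16 Coord: a PL map which changes only the coordinate `k`, is increasing in it, and is the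
identity off a compact set is a line preserving element of `PLc`. -/
theorem coord_mem {n : ℕ} {m : (Fin n → ℝ) → (Fin n → ℝ)} (hm : IsPL m) (k : Fin n)
    (h1 : ∀ x, ∀ i, i ≠ k → m x i = x i)
    (h2 : ∀ x y : Fin n → ℝ, (∀ i, i ≠ k → x i = y i) → x k < y k → m x k < m y k)
    {K : Set (Fin n → ℝ)} (hK : IsCompact K) (hmK : ∀ x, x ∉ K → m x = x) :
    ∃ f ∈ PLc (Fin n → ℝ), LinePres f ∧ ∀ x, f x = m x := by
  have hinj : Function.Injective m := by
    intro x y hxy
    have hoff : ∀ i, i ≠ k → x i = y i := by
      intro i hi
      rw [← h1 x i hi, ← h1 y i hi, hxy]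
    have hk : x k = y k := by
      rcases lt_trichotomy (x k) (y k) with h | h | h
      · have := h2 x y hoff h
        rw [hxy] at this
        exact absurd this (lt_irrefl _)
      · exact h
      · have := h2 y x (fun i hi => (hoff i hi).symm) h
        rw [hxy] at this
        exact absurd this (lt_irrefl _)
    funext i
    by_cases hi : i = k
    · subst hi; exact hk
    · exact hoff i hi
  have hsurj : Function.Surjective m := by
    intro y
    obtain ⟨R, hR⟩ := hK.isBounded.exists_norm_le
    have hout : ∀ t : ℝ, R < |t| → Function.update y k t ∉ K := by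
      intro t ht hmem
      have h3 := hR _ hmem
      have h4 := norm_le_pi_norm (Function.update y k t) k
      rw [Function.update_self, Real.norm_eq_abs] at h4
      linarith
    have hcont : Continuous fun t : ℝ => m (Function.update y k t) k := by
      have h3 : Continuous fun t : ℝ => Function.update y k t :=
        continuous_const.update k continuous_id
      exact (continuous_apply k).comp (hm.1.comp h3)
    have hs : Function.Surjective fun t : ℝ => m (Function.update y k t) k := by
      refine surj_of_ends hcont (R := |R| + 1) (b := 0) (c := 0) ?_ ?_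
      · intro t ht
        have h3 : R < |t| := by
          have := neg_abs_le t
          have := le_abs_self R
          linarith
        show m (Function.update y k t) k = t + 0
        rw [hmK _ (hout t h3), Function.update_self, add_zero]
      · intro t ht
        have h3 : R < |t| := by
          have := le_abs_self t
          have := le_abs_self R
          linarith
        show m (Function.update y k t) k = t + 0
        rw [hmK _ (hout t h3), Function.update_self, add_zero]
    obtain ⟨t, ht⟩ := hs (y k)
    refine ⟨Function.update y k t, ?_⟩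
    funext i
    by_cases hi : i = k
    · subst hi; exact ht
    · rw [h1 _ i hi, Function.update_of_ne hi]
  have hhom : IsHomeomorph m :=
    isHomeomorph_iff_continuous_isClosedMap_bijective.mpr
      ⟨hm.1, isClosedMap_of_eq_off hm.1 hK hmK, hinj, hsurj⟩
  refine ⟨hhom.homeomorph m, ⟨hm, K, hK, hmK⟩, ⟨Pi.single k 1, fun x => ⟨m x k - x k, ?_⟩⟩,
    fun x => rfl⟩
  show m x = x + (m x k - x k) • Pi.single k 1
  funext i
  by_cases hi : i = k
  · subst hi
    simp
  · simp [Pi.single_eq_of_ne hi, h1 x i hi]

end Pool.Agent.W_MP_27356f_gt
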