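import Pool.Agent.W_MP_27356f_gt.MkLin

namespace Pool.Agent.W_MP_27356f_gt

open scoped commutatorElement

variable {ι : Type*} [Fintype ι]

theorem Cut_isPL_norm : IsPL (fun z : (ι → ℝ) × ℝ => ‖z‖) := by
  have h := (IsPL.comp isPL_norm_pi (isPL_fst (E := ι → ℝ) (F := ℝ))).max
    (isPL_snd (E := ι → ℝ) (F := ℝ)).abs
  exact h

/-- the cut-off function -/
noncomputable def Cut_tau (ρ : ℝ) (z : (ι → ℝ) × ℝ) : ℝ := (1 / 2) * max 0 (ρ - ‖z‖)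

theorem Cut_tau_isPL (ρ : ℝ) : IsPL (Cut_tau (ι := ι) ρ) :=
  (((isPL_const 0).max ((isPL_const ρ).sub Cut_isPL_norm))).mul_const (1 / 2)

theorem Cut_tau_zero {ρ : ℝ} {z : (ι → ℝ) × ℝ} (h : ρ ≤ ‖z‖) : Cut_tau ρ z = 0 := by
  unfold Cut_tau
  rw [max_eq_left (by linarith), mul_zero]

theorem Cut_tau_lip (ρ : ℝ) (z w : (ι → ℝ) × ℝ) :
    |Cut_tau ρ z - Cut_tau ρ w| ≤ (1 / 2) * ‖z - w‖ := by
  unfold Cut_tau
  rw [← mul_sub, abs_mul, abs_of_pos (by norm_num : (0 : ℝ) < 1 / 2)]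
  refine mul_le_mul_of_nonneg_left ?_ (by norm_num)
  have h1 := abs_max_sub_max_le_max (0 : ℝ) (ρ - ‖z‖) 0 (ρ - ‖w‖)
  have h2 : ρ - ‖z‖ - (ρ - ‖w‖) = ‖w‖ - ‖z‖ := by ring
  rw [h2, sub_self, abs_zero] at h1
  rw [max_eq_right (abs_nonneg (‖w‖ - ‖z‖))] at h1
  refine h1.trans ?_
  rw [abs_sub_comm]
  exact abs_norm_sub_norm_le z w

theorem Cut_tau_line (ρ : ℝ) (x : ι → ℝ) (y y' : ℝ) :
    |Cut_tau ρ (x, y) - Cut_tau ρ (x, y')| ≤ (1 / 2) * |y - y'| := by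
  refine (Cut_tau_lip ρ (x, y) (x, y')).trans (le_of_eq ?_)
  congr 1
  rw [Prod.mk_sub_mk, sub_self, Prod.norm_def]
  simp

/-- T3 Cut -/
theorem cut {p : (ι → ℝ) × ℝ ≃ₜ (ι → ℝ) × ℝ} (hp : p ∈ Lin (ι → ℝ)) (R : ℝ) :
    ∃ q ∈ Lc (ι → ℝ), ∀ z, ‖z‖ ≤ R → q z = p z := by
  obtain ⟨hpl, hp1, hp2⟩ := hp
  have hF : IsPL (fun z : (ι → ℝ) × ℝ => (p z).2) :=
    IsPL.comp (isPL_snd (E := ι → ℝ) (F := ℝ)) hpl
  obtain ⟨C, hC⟩ := (isCompact_closedBall (0 : (ι → ℝ) × ℝ) R).exists_bound_of_continuousOn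
    (f := fun z : (ι → ℝ) × ℝ => (p z).2 - z.2) (hF.1.sub continuous_snd).continuousOn
  obtain ⟨M, hM0, hM⟩ : ∃ M : ℝ, 0 ≤ M ∧ ∀ z : (ι → ℝ) × ℝ, ‖z‖ ≤ R → |(p z).2 - z.2| ≤ M := by
    refine ⟨max C 0, le_max_right _ _, fun z hz => ?_⟩
    refine le_trans ?_ (le_max_left _ _)
    exact hC z (by rwa [mem_closedBall_zero_iff])
  set ρ : ℝ := |R| + 2 * M + 1 with hρ
  set F' : (ι → ℝ) × ℝ → ℝ := fun z =>
    max (min ((p z).2) (z.2 + Cut_tau ρ z)) (z.2 - Cut_tau ρ z) with hF'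
  have hF'pl : IsPL F' :=
    (hF.min (isPL_snd.add (Cut_tau_isPL ρ))).max (isPL_snd.sub (Cut_tau_isPL ρ))
  have hout : ∀ z : (ι → ℝ) × ℝ, ρ ≤ ‖z‖ → F' z = z.2 := by
    intro z hz
    simp only [hF', Cut_tau_zero hz, add_zero, sub_zero]
    exact max_eq_right (min_le_right _ _)
  have hmono : ∀ x, StrictMono fun y => F' (x, y) := by
    intro x y y' h
    have h1 := abs_le.1 (Cut_tau_line ρ x y y')
    have h2 : |y - y'| = y' - y := by rw [abs_sub_comm, abs_of_pos (by linarith)]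
    rw [h2] at h1
    refine max_lt_max (min_lt_min (hp2 x h) ?_) ?_
    · show y + Cut_tau ρ (x, y) < y' + Cut_tau ρ (x, y')
      linarith [h1.2]
    · show y - Cut_tau ρ (x, y) < y' - Cut_tau ρ (x, y')
      linarith [h1.1]
  have hsurj : ∀ x, Function.Surjective fun y => F' (x, y) := by
    intro x
    refine surj_of_ends (R := ρ) (b := 0) (c := 0)
      (hF'pl.1.comp (continuous_const.prodMk continuous_id)) ?_ ?_
    · intro y hy
      have h3 : ρ ≤ ‖((x, y) : (ι → ℝ) × ℝ)‖ := by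
        have h4 := norm_snd_le ((x, y) : (ι → ℝ) × ℝ)
        have h5 := neg_le_abs y
        rw [Real.norm_eq_abs] at h4
        have h6 : ((x, y) : (ι → ℝ) × ℝ).2 = y := rfl
        rw [h6] at h4
        linarith
      show F' (x, y) = y + 0
      rw [hout _ h3, add_zero]
    · intro y hy
      have h3 : ρ ≤ ‖((x, y) : (ι → ℝ) × ℝ)‖ := by
        have h4 := norm_snd_le ((x, y) : (ι → ℝ) × ℝ)
        have h5 := le_abs_self y
        rw [Real.norm_eq_abs] at h4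
        have h6 : ((x, y) : (ι → ℝ) × ℝ).2 = y := rfl
        rw [h6] at h4
        linarith
      show F' (x, y) = y + 0
      rw [hout _ h3, add_zero]
  obtain ⟨q, hq, hqF⟩ := exists_mkLin F' hF'pl hmono hsurj
  have hqz : ∀ z : (ι → ℝ) × ℝ, q z = (z.1, F' z) := fun z => hqF z.1 z.2
  refine ⟨q, mem_Lc.2 ⟨hq, mem_PLc.2 ⟨hq.1, Metric.closedBall 0 ρ, isCompact_closedBall _ _, ?_⟩⟩, ?_⟩
  · intro z hz
    rw [mem_closedBall_zero_iff, not_le] at hz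
    rw [hqz, hout z hz.le]
  · intro z hz
    have h7 := abs_le.1 (hM z hz)
    have h8 : M ≤ Cut_tau ρ z := by
      unfold Cut_tau
      have h9 : ρ - ‖z‖ ≤ max 0 (ρ - ‖z‖) := le_max_right _ _
      have h10 := le_abs_self R
      linarith
    have h11 : F' z = (p z).2 := by
      simp only [hF']
      rw [min_eq_left (by linarith [h7.2]), max_eq_left (by linarith [h7.1])]
    rw [hqz, h11]
    exact Prod.ext (hp1 z).symm rfl

/-- T3b -/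
theorem comm_mem {p g : (ι → ℝ) × ℝ ≃ₜ (ι → ℝ) × ℝ} (hp : p ∈ Lin (ι → ℝ))
    (hg : g ∈ Lc (ι → ℝ)) : p * g * p⁻¹ * g⁻¹ ∈ LcC (ι → ℝ) := by
  obtain ⟨K, hK, hgK⟩ := (mem_PLc.1 (mem_Lc.1 hg).2).2
  obtain ⟨R, hR⟩ := hK.isBounded.subset_closedBall (0 : (ι → ℝ) × ℝ)
  have hgR : ∀ z : (ι → ℝ) × ℝ, R < ‖z‖ → g z = z := by
    intro z hz
    refine hgK z fun h => ?_
    have h1 := hR h
    rw [mem_closedBall_zero_iff] at h1
    linarith
  have hgB : ∀ z : (ι → ℝ) × ℝ, ‖z‖ ≤ R → ‖g z‖ ≤ R := by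
    intro z hz
    by_contra h
    rw [not_le] at h
    have h1 : g z = z := g.injective (hgR _ h)
    rw [h1] at h
    linarith
  obtain ⟨q, hq, hqp⟩ := cut hp R
  have hh : ∀ z : (ι → ℝ) × ℝ, ‖z‖ ≤ R → (q⁻¹ * p) z = z := by
    intro z hz
    rw [Homeomorph.mul_apply, Homeomorph.inv_apply, Homeomorph.symm_apply_eq]
    exact (hqp z hz).symm
  have hcomm : (q⁻¹ * p) * g = g * (q⁻¹ * p) := by
    refine Homeomorph.ext fun z => ?_
    rw [Homeomorph.mul_apply, Homeomorph.mul_apply g]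
    by_cases hz : ‖z‖ ≤ R
    · rw [hh z hz, hh _ (hgB z hz)]
    · rw [hgR z (not_le.1 hz), hgR]
      rw [← not_le]
      intro h1
      have h2 := hh _ h1
      have h3 : (q⁻¹ * p) z = z := (q⁻¹ * p).injective h2
      rw [h3] at h1
      exact hz h1
  have h4 : p * g * p⁻¹ * g⁻¹ = ⁅q, g⁆ := by
    rw [commutatorElement_def]
    have h5 : p * g * p⁻¹ = q * g * q⁻¹ := by
      have h6 : p * g = q * ((q⁻¹ * p) * g) := by group
      rw [h6, hcomm]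
      group
    rw [h5]
  rw [h4]
  exact Subgroup.commutator_mem_commutator hq (mem_Lc.2 (mem_Lc.1 hg))

/-- T3c -/
theorem conj_mem {p c : (ι → ℝ) × ℝ ≃ₜ (ι → ℝ) × ℝ} (hp : p ∈ Lin (ι → ℝ))
    (hc : c ∈ LcC (ι → ℝ)) : p * c * p⁻¹ ∈ LcC (ι → ℝ) := by
  have h1 : LcC (ι → ℝ) ≤ Lc (ι → ℝ) := Subgroup.commutator_le_self _
  have h2 : p * c * p⁻¹ = (p * c * p⁻¹ * c⁻¹) * c := by group
  rw [h2]
  exact (LcC (ι → ℝ)).mul_mem (comm_mem hp (h1 hc)) hc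

end Pool.Agent.W_MP_27356f_gt
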