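import Pool.Agent.W_MP_27356f_gt.PLBasic

namespace Pool.Agent.W_MP_27356f_gt

/-- compactly supported piecewise linear homeomorphisms -/
def IsPLc {E : Type*} [NormedAddCommGroup E] [NormedSpace ℝ E] (f : E ≃ₜ E) : Prop :=
  IsPL (fun x => f x) ∧ ∃ K : Set E, IsCompact K ∧ ∀ x, x ∉ K → f x = x

section

variable {E : Type*} [NormedAddCommGroup E] [NormedSpace ℝ E]

theorem IsPLc.mul {f g : E ≃ₜ E} (hf : IsPLc f) (hg : IsPLc g) : IsPLc (f * g) := by
  obtain ⟨hf, K, hK, hfK⟩ := hf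
  obtain ⟨hg, K', hK', hgK'⟩ := hg
  refine ⟨hf.comp hg, K ∪ K', hK.union hK', fun x hx => ?_⟩
  rw [Set.mem_union, not_or] at hx
  rw [Homeomorph.mul_apply, hgK' x hx.2, hfK x hx.1]

theorem isPLc_one : IsPLc (1 : E ≃ₜ E) := ⟨isPL_id, ∅, isCompact_empty, fun _ _ => rfl⟩

theorem IsPLc.inv [FiniteDimensional ℝ E] {f : E ≃ₜ E} (hf : IsPLc f) : IsPLc f⁻¹ := by
  obtain ⟨hf, K, hK, hfK⟩ := hf
  refine ⟨isPL_symm f hf, K, hK, fun x hx => ?_⟩
  rw [Homeomorph.inv_apply, Homeomorph.symm_apply_eq, hfK x hx]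

end

/-- The group of compactly supported piecewise linear homeomorphisms of `E`. -/
def PLc (E : Type*) [NormedAddCommGroup E] [NormedSpace ℝ E] [FiniteDimensional ℝ E] :
    Subgroup (E ≃ₜ E) where
  carrier := {f | IsPLc f}
  mul_mem' := IsPLc.mul
  one_mem' := isPLc_one
  inv_mem' := IsPLc.inv

theorem mem_PLc {E : Type*} [NormedAddCommGroup E] [NormedSpace ℝ E] [FiniteDimensional ℝ E]
    {f : E ≃ₜ E} : f ∈ PLc E ↔
      IsPL (fun x => f x) ∧ ∃ K : Set E, IsCompact K ∧ ∀ x, x ∉ K → f x = x := Iff.rfl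

section Lin

variable (X : Type*) [NormedAddCommGroup X] [NormedSpace ℝ X] [FiniteDimensional ℝ X]

/-- PL homeomorphisms of `X × ℝ` which preserve every line `{x} × ℝ` and are increasing on it. -/
def Lin : Subgroup (X × ℝ ≃ₜ X × ℝ) where
  carrier := {f | IsPL (fun z => f z) ∧ (∀ z, (f z).1 = z.1) ∧
    ∀ x, StrictMono fun y => (f (x, y)).2}
  mul_mem' := by
    rintro f g ⟨hf, hf1, hf2⟩ ⟨hg, hg1, hg2⟩
    refine ⟨hf.comp hg, fun z => ?_, fun x y y' h => ?_⟩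
    · rw [Homeomorph.mul_apply, hf1, hg1]
    · have e : ∀ y, g (x, y) = (x, (g (x, y)).2) := fun y => by
        rw [Prod.ext_iff]; exact ⟨hg1 _, rfl⟩
      simp only [Homeomorph.mul_apply]
      rw [e y, e y']
      exact hf2 x (hg2 x h)
  one_mem' := ⟨isPL_id, fun _ => rfl, fun x y y' h => by simpa using h⟩
  inv_mem' := by
    rintro f ⟨hf, hf1, hf2⟩
    have e1 : ∀ z, (f⁻¹ z).1 = z.1 := fun z => by
      have := hf1 (f⁻¹ z)
      rw [Homeomorph.inv_apply, Homeomorph.apply_symm_apply] at this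
      rw [Homeomorph.inv_apply, ← this]
    refine ⟨isPL_symm f hf, e1, fun x y y' h => ?_⟩
    by_contra hcon
    have h1 := (hf2 x).monotone (not_lt.mp hcon)
    have e2 : ∀ y, (x, (f⁻¹ (x, y)).2) = f⁻¹ (x, y) := fun y => by
      rw [Prod.ext_iff]; exact ⟨(e1 (x, y)).symm, rfl⟩
    simp only [e2] at h1
    simp only [Homeomorph.inv_apply, Homeomorph.apply_symm_apply] at h1
    exact absurd h (not_lt.mpr h1)

/-- The compactly supported elements of `Lin X`. -/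
noncomputable def Lc : Subgroup (X × ℝ ≃ₜ X × ℝ) := Lin X ⊓ PLc (X × ℝ)

/-- The commutator subgroup of `Lc X`. -/
noncomputable def LcC : Subgroup (X × ℝ ≃ₜ X × ℝ) := ⁅Lc X, Lc X⁆

variable {X}

theorem mem_Lin {f : X × ℝ ≃ₜ X × ℝ} : f ∈ Lin X ↔ IsPL (fun z => f z) ∧ (∀ z, (f z).1 = z.1) ∧
    ∀ x, StrictMono fun y => (f (x, y)).2 := Iff.rfl

theorem mem_Lc {f : X × ℝ ≃ₜ X × ℝ} : f ∈ Lc X ↔ f ∈ Lin X ∧ f ∈ PLc (X × ℝ) := Iff.rfl

/-- compactly supported PL functions -/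
def CS (a : X → ℝ) : Prop := IsPL a ∧ ∃ R : ℝ, ∀ x, R ≤ ‖x‖ → a x = 0

end Lin

/-- the displacement of every point is parallel to a fixed vector -/
def LinePres {n : ℕ} (f : (Fin n → ℝ) ≃ₜ (Fin n → ℝ)) : Prop :=
  ∃ v : Fin n → ℝ, ∀ x, ∃ c : ℝ, f x = x + c • v

end Pool.Agent.W_MP_27356f_gt
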