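import Pool.Agent.W_MP_27356f_gt.Defs

namespace Pool.Agent.W_MP_27356f_gt

variable {X : Type*} [NormedAddCommGroup X] [NormedSpace ℝ X] [FiniteDimensional ℝ X]

/-- `Tail G s l` with `l = [t₁, …, t_q]`: we have `s ≤ t₁ ≤ … ≤ t_q`, every function `G x` is
affine on `[s x, t₁ x]`, `[t₁ x, t₂ x]`, ..., and affine with slope one on `[t_q x, ∞)`. -/
def Tail (G : X → ℝ → ℝ) : (X → ℝ) → List (X → ℝ) → Prop
  | s, [] => ∀ x y, s x ≤ y → G x y = G x (s x) + (y - s x)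
  | s, t :: l => (∀ x, s x ≤ t x) ∧
      (∀ x, ∃ c : ℝ, ∀ y, s x ≤ y → y ≤ t x → G x y = G x (s x) + c * (y - s x)) ∧ Tail G t l

end Pool.Agent.W_MP_27356f_gt
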