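import Pool.Agent.W_MP_27356f_gt.Step
import Pool.Agent.W_MP_27356f_gt.Tail

namespace Pool.Agent.W_MP_27356f_gt

variable {X : Type*} [NormedAddCommGroup X] [NormedSpace ℝ X] [FiniteDimensional ℝ X]

omit [NormedAddCommGroup X] [NormedSpace ℝ X] [FiniteDimensional ℝ X] in
theorem tail_shift (c : X → ℝ) (l : List (X → ℝ)) : ∀ (t : X → ℝ) (G G' : X → ℝ → ℝ),
    Tail G t l → (∀ x y, t x + c x ≤ y → G' x y = G x (y - c x)) →
    Tail G' (fun x => t x + c x) (l.map (fun v x => v x + c x)) := by
  induction l with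
  | nil =>
    intro t G G' h hG x y hy
    rw [hG x y hy, hG x _ le_rfl, h x (y - c x) (by linarith), h x (t x + c x - c x) (by linarith)]
    ring
  | cons v l ih =>
    intro t G G' h hG
    obtain ⟨h1, h2, h3⟩ := h
    refine ⟨fun x => by linarith [h1 x], fun x => ?_, ?_⟩
    · obtain ⟨k, hk⟩ := h2 x
      refine ⟨k, fun y hy1 hy2 => ?_⟩
      rw [hG x y hy1, hG x _ le_rfl, hk (y - c x) (by linarith) (by linarith),
        hk (t x + c x - c x) (by linarith) (by linarith [h1 x])]
      ring
    · exact ih v G G' h3 fun x y hy => hG x y (by linarith [h1 x])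

omit [FiniteDimensional ℝ X] in
theorem factor_cs_add {a b : X → ℝ} (ha : CS a) (hb : CS b) : CS (fun x => a x + b x) := by
  obtain ⟨ha1, R, hR⟩ := ha
  obtain ⟨hb1, R', hR'⟩ := hb
  refine ⟨ha1.add hb1, max R R', fun x hx => ?_⟩
  change a x + b x = 0
  rw [hR x ((le_max_left _ _).trans hx), hR' x ((le_max_right _ _).trans hx), add_zero]

theorem factor_aux (n : ℕ) : ∀ (l : List (X → ℝ)), l.length = n →
    ∀ (s : X → ℝ) (g : X × ℝ ≃ₜ X × ℝ), g ∈ Lin X → CS s →
    (∀ t ∈ l, CS t) → (∀ x y, y ≤ s x → (g (x, y)).2 = y) →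
    Tail (fun x y => (g (x, y)).2) s l → g ∈ Subgroup.closure (EEset X) := by
  induction n with
  | zero =>
    intro l hl s g hg hs ht h1 h2
    obtain rfl := List.length_eq_zero_iff.mp hl
    have hg1 : g = 1 := by
      ext1 z
      obtain ⟨x, y⟩ := z
      rw [Homeomorph.one_apply, Prod.ext_iff]
      refine ⟨(mem_Lin.mp hg).2.1 (x, y), ?_⟩
      rcases le_total y (s x) with h | h
      · exact h1 x y h
      · have h3 := h2 x y h
        have h4 := h1 x (s x) le_rfl
        simp only at h3
        rw [h3, h4]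
        ring
    rw [hg1]
    exact one_mem _
  | succ n ih =>
    intro l hl s g hg hs ht h1 h2
    match l, hl, ht, h2 with
    | [], hl, _, _ => simp at hl
    | t :: l', hl, ht, h2 =>
      obtain ⟨hst, haff, htail⟩ := h2
      have htc : CS t := ht t (by simp)
      obtain ⟨e, hecl, heL, c, hc, hlow, hhigh⟩ := exists_step hg hs htc hst h1 haff
      have hinv : ∀ x y, t x + c x ≤ y → e⁻¹ (x, y) = (x, y - c x) := by
        intro x y hy
        rw [Homeomorph.inv_apply, Homeomorph.symm_apply_eq, hhigh x (y - c x) (by linarith)]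
        rw [Prod.ext_iff]
        exact ⟨rfl, by ring⟩
      have hg' : g * e⁻¹ ∈ Lin X := mul_mem hg (inv_mem heL)
      have hkey : g * e⁻¹ ∈ Subgroup.closure (EEset X) := by
        refine ih (l'.map (fun v x => v x + c x)) (by simpa using hl) (fun x => t x + c x)
          (g * e⁻¹) hg' (factor_cs_add htc hc) ?_ ?_ ?_
        · intro u hu
          obtain ⟨v, hv, rfl⟩ := List.mem_map.mp hu
          exact factor_cs_add (ht v (by simp [hv])) hc
        · intro x y hy
          rw [Homeomorph.mul_apply]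
          obtain ⟨y0, hy0⟩ : ∃ y0, e⁻¹ (x, y) = (x, y0) := by
            refine ⟨(e⁻¹ (x, y)).2, ?_⟩
            rw [Prod.ext_iff]
            exact ⟨(mem_Lin.mp (inv_mem heL)).2.1 (x, y), rfl⟩
          have hey : e (x, y0) = (x, y) := by
            rw [← hy0, Homeomorph.inv_apply, Homeomorph.apply_symm_apply]
          have hle : y0 ≤ t x := by
            by_contra hcon
            push Not at hcon
            have h3 := (mem_Lin.mp heL).2.2 x hcon
            simp only [hey, hhigh x (t x) le_rfl] at h3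
            linarith
          rw [hy0, ← hlow x y0 hle, hey]
        · refine tail_shift c l' t _ _ htail fun x y hy => ?_
          rw [Homeomorph.mul_apply, hinv x y hy]
      have : g = g * e⁻¹ * e := by group
      rw [this]
      exact mul_mem hkey hecl

/-- T8 Factor -/
theorem factor (l : List (X → ℝ)) : ∀ (s : X → ℝ) (g : X × ℝ ≃ₜ X × ℝ), g ∈ Lin X → CS s →
    (∀ t ∈ l, CS t) → (∀ x y, y ≤ s x → (g (x, y)).2 = y) →
    Tail (fun x y => (g (x, y)).2) s l → g ∈ Subgroup.closure (EEset X) :=
  factor_aux l.length l rfl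

end Pool.Agent.W_MP_27356f_gt
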