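import Pool.Agent.W_MP_27356f_gt.Tri

namespace Pool.Agent.W_MP_27356f_gt

/-- the coordinatewise inclusion of rational vectors -/
noncomputable def Interp_inc (n : ℕ) : (Fin n → ℚ) →ₗ[ℚ] (Fin n → ℝ) where
  toFun x := fun i => (x i : ℝ)
  map_add' x y := by funext i; simp
  map_smul' c x := by
    funext i
    simp [Rat.smul_def]

theorem Interp_inc_apply {n : ℕ} (x : Fin n → ℚ) (i : Fin n) : Interp_inc n x i = (x i : ℝ) := rfl

theorem Interp_ratPt {n : ℕ} {x : Fin n → ℝ} (h : IsRatPt x) : ∃ X : Fin n → ℚ, Interp_inc n X = x := by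
  choose X hX using h
  exact ⟨X, by funext i; rw [Interp_inc_apply, hX]⟩

theorem Interp_inc_rat {n : ℕ} (X : Fin n → ℚ) : IsRatPt (Interp_inc n X) := fun i => ⟨X i, rfl⟩

/-- the real affine map given by rational data -/
noncomputable def Interp_aff {n : ℕ} (M : Matrix (Fin n) (Fin n) ℚ) (c : Fin n → ℚ) :
    (Fin n → ℝ) →ᵃ[ℝ] (Fin n → ℝ) :=
  (Matrix.toLin' (M.map (fun r : ℚ => (r : ℝ)))).toAffineMap
    + AffineMap.const ℝ (Fin n → ℝ) (Interp_inc n c)

theorem Interp_aff_inc {n : ℕ} (M : Matrix (Fin n) (Fin n) ℚ) (c X : Fin n → ℚ) :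
    Interp_aff M c (Interp_inc n X) = Interp_inc n (M.mulVec X + c) := by
  funext i
  simp [Interp_aff, Interp_inc_apply, Matrix.mulVec, dotProduct]

/-- Q5 Interp: rational affine interpolation -/
theorem exists_rat_interp {n : ℕ} {κ : Type} [Fintype κ] {p q : κ → Fin n → ℝ}
    (hp : AffineIndependent ℝ p) (hpr : ∀ i, IsRatPt (p i)) (hqr : ∀ i, IsRatPt (q i)) :
    ∃ L : (Fin n → ℝ) →ᵃ[ℝ] (Fin n → ℝ), IsRatAff L ∧ ∀ i, L (p i) = q i := by
  choose P hP using fun i => Interp_ratPt (hpr i)
  choose Q hQ using fun i => Interp_ratPt (hqr i)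
  have key : ∃ (M : Matrix (Fin n) (Fin n) ℚ) (c : Fin n → ℚ), ∀ i, M.mulVec (P i) + c = Q i := by
    rcases isEmpty_or_nonempty κ with h | ⟨⟨i0⟩⟩
    · exact ⟨0, 0, fun i => (h.false i).elim⟩
    · rw [affineIndependent_iff_linearIndependent_vsub ℝ p i0] at hp
      have h1 : LinearIndependent ℚ (fun i : {x // x ≠ i0} => p i -ᵥ p i0) := by
        refine hp.restrict_scalars ?_
        intro a b hab
        simpa using hab
      have h2 : LinearIndependent ℚ (fun i : {x // x ≠ i0} => P i - P i0) := by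
        apply LinearIndependent.of_comp (Interp_inc n)
        convert h1 using 1
        funext i
        simp only [Function.comp, vsub_eq_sub]
        rw [map_sub, hP, hP]
      obtain ⟨T, hT⟩ := LinearMap.exists_extend
        ((Finsupp.linearCombination ℚ (fun i : {x // x ≠ i0} => Q i - Q i0)).comp h2.repr)
      have hT' : ∀ i : {x // x ≠ i0}, T (P i - P i0) = Q i - Q i0 := by
        intro i
        have h3 := congrArg (fun f => f ⟨P i - P i0, Submodule.subset_span ⟨i, rfl⟩⟩) hT
        simp only [LinearMap.comp_apply, Submodule.subtype_apply] at h3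
        rw [h3]
        rw [h2.repr_eq_single i _ rfl]
        simp
      refine ⟨LinearMap.toMatrix' T, Q i0 - T (P i0), fun i => ?_⟩
      rw [LinearMap.toMatrix'_mulVec]
      by_cases hi : i = i0
      · subst hi
        abel
      · have h4 := hT' ⟨i, hi⟩
        simp only [map_sub] at h4
        have h5 : T (P i) = Q i - Q i0 + T (P i0) := by rw [← h4]; abel
        rw [h5]
        abel
  obtain ⟨M, c, hM⟩ := key
  refine ⟨Interp_aff M c, ?_, ?_⟩
  · intro x hx
    obtain ⟨X, rfl⟩ := Interp_ratPt hx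
    rw [Interp_aff_inc]
    exact Interp_inc_rat _
  · intro i
    rw [← hP i, Interp_aff_inc, hM, hQ]

theorem countable_ratAff (n : ℕ) :
    {L : (Fin n → ℝ) →ᵃ[ℝ] (Fin n → ℝ) | IsRatAff L}.Countable := by
  have hsub : {L : (Fin n → ℝ) →ᵃ[ℝ] (Fin n → ℝ) | IsRatAff L} ⊆
      Set.range (fun z : Matrix (Fin n) (Fin n) ℚ × (Fin n → ℚ) => Interp_aff z.1 z.2) := by
    intro L hL
    have h0 : IsRatPt (L 0) := hL 0 fun i => ⟨0, by simp⟩
    obtain ⟨c, hc⟩ := Interp_ratPt h0
    have h1 : ∀ j, IsRatPt (L (Pi.single j 1)) := fun j => hL _ fun i => by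
      by_cases h : i = j
      · subst h; exact ⟨1, by simp⟩
      · exact ⟨0, by simp [h]⟩
    choose E hE using fun j => Interp_ratPt (h1 j)
    refine ⟨(Matrix.of fun i j => E j i - c i, c), ?_⟩
    simp only
    have hlin : ∀ x, L x = L.linear x + L 0 := fun x => by
      have := L.map_vadd 0 x
      simpa using this
    ext x i
    have h2 : L.linear = Matrix.toLin' ((Matrix.of fun i j => E j i - c i :
        Matrix (Fin n) (Fin n) ℚ).map (fun r : ℚ => (r : ℝ))) := by
      apply LinearMap.pi_ext'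
      intro j
      ext i
      have h3 : L.linear (Pi.single j 1) = L (Pi.single j 1) - L 0 := by
        rw [hlin (Pi.single j 1)]; abel
      simp only [LinearMap.comp_apply, LinearMap.single_apply]
      rw [h3, ← hE j, ← hc]
      simp [Interp_inc_apply]
    rw [hlin x, h2, ← hc]
    simp [Interp_aff]
  haveI : Countable (Matrix (Fin n) (Fin n) ℚ) :=
    inferInstanceAs (Countable (Fin n → Fin n → ℚ))
  exact (Set.countable_range _).mono hsub

end Pool.Agent.W_MP_27356f_gt
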