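import Pool.Agent.W_MP_27356f_gt.Defs

namespace Pool.Agent.W_MP_27356f_gt

/-- T13 LineLc -/
theorem mem_Lc_of_line {ι : Type*} [Fintype ι] {f : (ι → ℝ) × ℝ ≃ₜ (ι → ℝ) × ℝ}
    (hf : f ∈ PLc ((ι → ℝ) × ℝ)) (h1 : ∀ z, (f z).1 = z.1) : f ∈ Lc (ι → ℝ) := by
  refine ⟨⟨hf.1, h1, fun x => ?_⟩, hf⟩
  obtain ⟨hPL, K, hK, hfK⟩ := hf
  have hcont : Continuous fun y : ℝ => (f (x, y)).2 := by
    have h2 : Continuous fun y : ℝ => (x, y) := by fun_prop
    exact continuous_snd.comp (hPL.continuous.comp h2)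
  have hinj : Function.Injective fun y : ℝ => (f (x, y)).2 := by
    intro y y' h
    have h3 : f (x, y) = f (x, y') := by
      apply Prod.ext
      · rw [h1, h1]
      · exact h
    exact congrArg Prod.snd (f.injective h3)
  rcases hcont.strictMono_of_inj hinj with h | h
  · exact h
  · exfalso
    obtain ⟨R, hR⟩ := hK.isBounded.exists_norm_le
    have h4 : ∀ y : ℝ, R < y → (f (x, y)).2 = y := by
      intro y hy
      rw [hfK]
      intro hmem
      have h5 := hR _ hmem
      have h6 : ‖y‖ ≤ ‖(x, y)‖ := norm_snd_le (x, y)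
      have h7 : y ≤ ‖y‖ := Real.le_norm_self y
      linarith
    have h8 := h (show R + 1 < R + 2 by linarith)
    simp only at h8
    rw [h4 (R + 1) (by linarith), h4 (R + 2) (by linarith)] at h8
    linarith

end Pool.Agent.W_MP_27356f_gt
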