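import Pool.Agent.W_MP_27356f_gt.Perf
import Pool.Agent.W_MP_27356f_gt.Transport
import Pool.Agent.W_MP_27356f_gt.LineLc

namespace Pool.Agent.W_MP_27356f_gt

/-- T14 LinePres -/
theorem linePres_mem {n : ℕ} {f : (Fin n → ℝ) ≃ₜ (Fin n → ℝ)} (hf : f ∈ PLc (Fin n → ℝ))
    (h : LinePres f) : f ∈ ⁅PLc (Fin n → ℝ), PLc (Fin n → ℝ)⁆ := by
  obtain ⟨v, hv⟩ := h
  by_cases hv0 : v = 0
  · have h1 : f = 1 := by
      ext x : 1
      obtain ⟨c, hc⟩ := hv x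
      rw [hc, hv0, smul_zero, add_zero]
      rfl
    rw [h1]
    exact Subgroup.one_mem _
  · obtain ⟨m, T, hT⟩ := exists_coord hv0
    obtain ⟨Φ, hΦ, hmap⟩ := exists_transport T
    have hg : Φ f ∈ PLc ((Fin m → ℝ) × ℝ) := by
      rw [← hmap]
      exact ⟨f, hf, rfl⟩
    have h1 : ∀ z, (Φ f z).1 = z.1 := by
      intro z
      obtain ⟨c, hc⟩ := hv (T.symm z)
      rw [hΦ, hc, map_add, map_smul, hT, T.apply_symm_apply]
      simp
    have h2 := Lc_perfect (mem_Lc_of_line hg h1)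
    have h3 : Φ f ∈ ⁅PLc ((Fin m → ℝ) × ℝ), PLc ((Fin m → ℝ) × ℝ)⁆ :=
      Subgroup.commutator_mono inf_le_right inf_le_right h2
    rw [← hmap, ← Subgroup.map_commutator] at h3
    obtain ⟨g, hg', hgf⟩ := h3
    have h4 : g = f := Φ.injective hgf
    rw [← h4]
    exact hg'

end Pool.Agent.W_MP_27356f_gt
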