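import Pool.Agent.W_MP_27356f_gt.SmallMono

namespace Pool.Agent.W_MP_27356f_gt

/-- a one-parameter family of homeomorphisms is continuous for the Lipschitz seminorm -/
def LipContinuous {n : ℕ} (F : ℝ → (Fin n → ℝ) ≃ₜ (Fin n → ℝ)) : Prop :=
  ∀ t : ℝ, 0 ≤ t → t ≤ 1 → ∀ ε : ℝ, 0 < ε → ∃ δ : ℝ, 0 < δ ∧ ∀ t' : ℝ, 0 ≤ t' → t' ≤ 1 →
    |t' - t| < δ → ∀ x y, ‖(F t' x - F t x) - (F t' y - F t y)‖ ≤ ε * ‖x - y‖

theorem lipPath_local {n : ℕ} {f g : (Fin n → ℝ) ≃ₜ (Fin n → ℝ)} (hf : f ∈ PLc (Fin n → ℝ))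
    (hg : g ∈ PLc (Fin n → ℝ)) {C ε : ℝ} (hC0 : 0 ≤ C) (hC : ∀ x y, ‖g⁻¹ x - g⁻¹ y‖ ≤ C * ‖x - y‖)
    (hε : n * (ε * C) < 1) (hε0 : 0 ≤ ε)
    (h : ∀ x y, ‖(f x - g x) - (f y - g y)‖ ≤ ε * ‖x - y‖) :
    f * g⁻¹ ∈ ⁅PLc (Fin n → ℝ), PLc (Fin n → ℝ)⁆ := by
  obtain ⟨hfPL, K, hK, hfK⟩ := mem_PLc.mp hf
  obtain ⟨hgPL, K', hK', hgK'⟩ := mem_PLc.mp hg
  obtain ⟨hgiPL, -⟩ := mem_PLc.mp ((PLc (Fin n → ℝ)).inv_mem hg)
  have hu : IsPL (fun x => f (g⁻¹ x) - g (g⁻¹ x)) := (hfPL.comp hgiPL).sub (hgPL.comp hgiPL)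
  have hsupp : ∀ x, x ∉ K ∪ K' → f (g⁻¹ x) - g (g⁻¹ x) = 0 := by
    intro x hx
    rw [Set.mem_union, not_or] at hx
    have h1 : g⁻¹ x = x := by
      rw [Homeomorph.inv_apply, Homeomorph.symm_apply_eq, hgK' x hx.2]
    rw [h1, hfK x hx.1, hgK' x hx.2, sub_self]
  obtain ⟨a, ha, hax⟩ := small_mem hu hε (fun x y => (h _ _).trans (by
    have := mul_le_mul_of_nonneg_left (hC x y) hε0
    linarith)) (hK.union hK') hsupp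
  have : f * g⁻¹ = a := by
    ext1 x
    rw [Homeomorph.mul_apply, hax]
    have : g (g⁻¹ x) = x := by rw [Homeomorph.inv_apply, Homeomorph.apply_symm_apply]
    rw [this]
    abel
  rw [this]
  exact ha

/-- a path in `G` which is continuous for the Lipschitz seminorm stays in one coset of the
commutator subgroup -/
theorem lipPath_mem {n : ℕ} (F : ℝ → (Fin n → ℝ) ≃ₜ (Fin n → ℝ))
    (hF : ∀ t : ℝ, 0 ≤ t → t ≤ 1 → F t ∈ PLc (Fin n → ℝ)) (hc : LipContinuous F) :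
    F 1 * (F 0)⁻¹ ∈ ⁅PLc (Fin n → ℝ), PLc (Fin n → ℝ)⁆ := by
  have key : ∀ t : ℝ, 0 ≤ t → t ≤ 1 → ∃ δ : ℝ, 0 < δ ∧ ∀ t' : ℝ, 0 ≤ t' → t' ≤ 1 →
      |t' - t| < δ → F t' * (F t)⁻¹ ∈ ⁅PLc (Fin n → ℝ), PLc (Fin n → ℝ)⁆ := by
    intro t h0 h1
    obtain ⟨hgiPL, -⟩ := mem_PLc.mp ((PLc (Fin n → ℝ)).inv_mem (hF t h0 h1))
    obtain ⟨C, hC0, hC⟩ := hgiPL.exists_lipschitz
    have hpos : (0 : ℝ) < n * C + 1 := by positivity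
    obtain ⟨δ, hδ, h⟩ := hc t h0 h1 (1 / (n * C + 1)) (by positivity)
    refine ⟨δ, hδ, fun t' h0' h1' ht' => ?_⟩
    refine lipPath_local (hF t' h0' h1') (hF t h0 h1) hC0 hC ?_ (by positivity) (h t' h0' h1' ht')
    have : (n : ℝ) * (1 / (n * C + 1) * C) = (n * C) / (n * C + 1) := by ring
    rw [this, div_lt_one hpos]
    linarith
  let f : Set.Icc (0 : ℝ) 1 → Prop := fun t =>
    F t * (F 0)⁻¹ ∈ ⁅PLc (Fin n → ℝ), PLc (Fin n → ℝ)⁆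
  have hlc : IsLocallyConstant f := by
    rw [IsLocallyConstant.iff_eventually_eq]
    intro t
    obtain ⟨δ, hδ, h⟩ := key t t.2.1 t.2.2
    rw [Metric.eventually_nhds_iff]
    refine ⟨δ, hδ, fun t' ht' => ?_⟩
    have h1 := h t' t'.2.1 t'.2.2 (by rw [Subtype.dist_eq, Real.dist_eq] at ht'; exact ht')
    have e : F t' * (F 0)⁻¹ = (F t' * (F t)⁻¹) * (F t * (F 0)⁻¹) := by group
    show (F t' * (F 0)⁻¹ ∈ _) = (F t * (F 0)⁻¹ ∈ _)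
    rw [eq_iff_iff, e]
    constructor
    · intro h2
      have := Subgroup.mul_mem _ (Subgroup.inv_mem _ h1) h2
      simpa using this
    · intro h2
      exact Subgroup.mul_mem _ h1 h2
  have h01 : f ⟨0, by simp⟩ = f ⟨1, by simp⟩ := hlc.apply_eq_of_preconnectedSpace _ _
  have h0 : f ⟨0, by simp⟩ := by
    show F 0 * (F 0)⁻¹ ∈ _
    rw [mul_inv_cancel]
    exact Subgroup.one_mem _
  rw [h01] at h0
  exact h0

end Pool.Agent.W_MP_27356f_gt
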