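import Pool.Agent.W_MP_27356f_gt.Defs

namespace Pool.Agent.W_MP_27356f_gt

variable {X : Type*} [NormedAddCommGroup X] [NormedSpace ℝ X] [FiniteDimensional ℝ X]

/-- T1 MkLin -/
theorem exists_mkLin (F : X × ℝ → ℝ) (hF : IsPL F) (hm : ∀ x, StrictMono fun y => F (x, y))
    (hs : ∀ x, Function.Surjective fun y => F (x, y)) :
    ∃ p ∈ Lin X, ∀ x y, p (x, y) = (x, F (x, y)) := by
  choose G hG using hs
  simp only at hG
  have hGF : ∀ x y, G x (F (x, y)) = y := fun x y => (hm x).injective (hG x (F (x, y)))
  have hcont : Continuous (fun z : X × ℝ => G z.1 z.2) := by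
    rw [continuous_iff_continuousAt]
    rintro ⟨x0, y0⟩
    rw [ContinuousAt, Metric.tendsto_nhds]
    intro ε hε
    set z0 := G x0 y0 with hz0
    have h1 : F (x0, z0 - ε) < y0 := by
      have := hm x0 (show z0 - ε < z0 by linarith)
      simp only at this
      rwa [hz0, hG] at this
    have h2 : y0 < F (x0, z0 + ε) := by
      have := hm x0 (show z0 < z0 + ε by linarith)
      simp only at this
      rwa [hz0, hG] at this
    have hc1 : Continuous (fun z : X × ℝ => F (z.1, z0 - ε)) :=
      hF.continuous.comp (by fun_prop)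
    have hc2 : Continuous (fun z : X × ℝ => F (z.1, z0 + ε)) :=
      hF.continuous.comp (by fun_prop)
    have e1 : ∀ᶠ z in nhds (x0, y0), F (z.1, z0 - ε) < z.2 :=
      (isOpen_lt hc1 continuous_snd).mem_nhds (show _ from h1)
    have e2 : ∀ᶠ z in nhds (x0, y0), z.2 < F (z.1, z0 + ε) :=
      (isOpen_lt continuous_snd hc2).mem_nhds (show _ from h2)
    filter_upwards [e1, e2] with z hz1 hz2
    rw [Real.dist_eq, abs_lt]
    constructor
    · have : z0 - ε < G z.1 z.2 := by
        rw [← (hm z.1).lt_iff_lt]
        simp only [hG]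
        exact hz1
      linarith
    · have : G z.1 z.2 < z0 + ε := by
        rw [← (hm z.1).lt_iff_lt]
        simp only [hG]
        exact hz2
      linarith
  have hPL : IsPL (fun z : X × ℝ => (z.1, F z)) := isPL_fst.prodMk hF
  let p : X × ℝ ≃ₜ X × ℝ :=
    { toFun := fun z => (z.1, F z)
      invFun := fun z => (z.1, G z.1 z.2)
      left_inv := fun z => by
        simp only [Prod.ext_iff, true_and]
        exact hGF z.1 z.2
      right_inv := fun z => by
        simp only [Prod.ext_iff, true_and]
        exact hG z.1 z.2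
      continuous_toFun := hPL.continuous
      continuous_invFun := continuous_fst.prodMk hcont }
  refine ⟨p, ⟨hPL, fun _ => rfl, fun x y y' h => hm x h⟩, fun _ _ => rfl⟩

/-- T1b -/
theorem surj_of_ends {φ : ℝ → ℝ} (hc : Continuous φ) {R b c : ℝ}
    (h1 : ∀ y, y ≤ -R → φ y = y + b) (h2 : ∀ y, R ≤ y → φ y = y + c) :
    Function.Surjective φ := by
  apply hc.surjective
  · have h : Filter.Tendsto (fun y : ℝ => y + c) Filter.atTop Filter.atTop :=
      Filter.tendsto_atTop_add_const_right _ _ Filter.tendsto_id
    refine h.congr' ?_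
    filter_upwards [Filter.eventually_ge_atTop R] with y hy
    exact (h2 y hy).symm
  · have h : Filter.Tendsto (fun y : ℝ => y + b) Filter.atBot Filter.atBot :=
      Filter.tendsto_atBot_add_const_right _ _ Filter.tendsto_id
    refine h.congr' ?_
    filter_upwards [Filter.eventually_le_atBot (-R)] with y hy
    exact (h1 y hy).symm

end Pool.Agent.W_MP_27356f_gt
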