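import Pool.Agent.W_MP_27356f_gt.LinePres
import Pool.Agent.W_MP_27356f_gt.Coord

namespace Pool.Agent.W_MP_27356f_gt

theorem mono_aux {n : ℕ} {m : (Fin n → ℝ) → (Fin n → ℝ)} (hm : IsPL m)
    (hmono : ∀ x y, x ≠ y → 0 < ∑ i, (m x i - m y i) * (x i - y i))
    {K : Set (Fin n → ℝ)} (hK : IsCompact K) (hmK : ∀ x, x ∉ K → m x = x) (j : ℕ) (hj : j ≤ n) :
    ∃ H ∈ ⁅PLc (Fin n → ℝ), PLc (Fin n → ℝ)⁆,
      ∀ x i, H x i = if (i : ℕ) < j then m x i else x i := by
  induction j with
  | zero => exact ⟨1, Subgroup.one_mem _, fun x i => by simp [Homeomorph.one_apply]⟩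
  | succ j ih =>
    obtain ⟨H, hH, hHx⟩ := ih (by omega)
    have hle : ⁅PLc (Fin n → ℝ), PLc (Fin n → ℝ)⁆ ≤ PLc (Fin n → ℝ) := by
      rw [Subgroup.commutator_le]
      intro g hg h hh
      rw [commutatorElement_def]
      exact mul_mem (mul_mem (mul_mem hg hh) (inv_mem hg)) (inv_mem hh)
    have hHP : H ∈ PLc (Fin n → ℝ) := hle hH
    set k : Fin n := ⟨j, by omega⟩ with hk
    have hkj : (k : ℕ) = j := rfl
    have hHk : ∀ x, H x k = x k := fun x => by rw [hHx, if_neg (by omega)]
    set l : (Fin n → ℝ) → (Fin n → ℝ) := fun z => Function.update z k (m (H.symm z) k) with hl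
    have hlPL : IsPL l := by
      refine isPL_pi fun i => ?_
      by_cases hik : i = k
      · subst hik
        have : (fun z => l z k) = fun z => m (H.symm z) k := by
          funext z; simp [hl]
        rw [this]
        exact (hm.comp (isPL_symm H (mem_PLc.mp hHP).1)).apply k
      · have : (fun z => l z i) = fun z => z i := by
          funext z; simp [hl, Function.update_of_ne hik]
        rw [this]
        exact isPL_id.apply i
    have hl1 : ∀ x, ∀ i, i ≠ k → l x i = x i := fun x i hi => by
      simp [hl, Function.update_of_ne hi]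
    have hl2 : ∀ x y : Fin n → ℝ, (∀ i, i ≠ k → x i = y i) → x k < y k → l x k < l y k := by
      intro z z' hzz hlt
      set a := H.symm z with ha
      set b := H.symm z' with hb
      have hHa : H a = z := by simp [ha]
      have hHb : H b = z' := by simp [hb]
      have hak : a k = z k := by rw [← hHa, hHk]
      have hbk : b k = z' k := by rw [← hHb, hHk]
      have hab : b ≠ a := by
        intro h
        rw [h, hak] at hbk
        exact absurd hbk (ne_of_lt hlt)
      have hsum : ∑ i, (m b i - m a i) * (b i - a i) = (m b k - m a k) * (b k - a k) := by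
        refine Finset.sum_eq_single k (fun i _ hi => ?_) (fun h => absurd (Finset.mem_univ k) h)
        by_cases hij : (i : ℕ) < j
        · have e1 : m a i = z i := by rw [← hHa, hHx, if_pos hij]
          have e2 : m b i = z' i := by rw [← hHb, hHx, if_pos hij]
          rw [e1, e2, hzz i hi]; ring
        · have e1 : a i = z i := by rw [← hHa, hHx, if_neg hij]
          have e2 : b i = z' i := by rw [← hHb, hHx, if_neg hij]
          rw [e1, e2, hzz i hi]; ring
      have hpos := hmono b a hab
      rw [hsum] at hpos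
      have hba : 0 < b k - a k := by rw [hak, hbk]; linarith
      have := (pos_iff_pos_of_mul_pos hpos).mpr hba
      have e1 : l z k = m a k := by simp [hl, ha]
      have e2 : l z' k = m b k := by simp [hl, hb]
      rw [e1, e2]
      linarith
    have hlK : ∀ x, x ∉ K → l x = x := by
      intro z hz
      have hHz : H z = z := by
        funext i
        rw [hHx]
        split_ifs
        · rw [hmK z hz]
        · rfl
      have hHz' : H.symm z = z := by rw [Homeomorph.symm_apply_eq, hHz]
      simp [hl, hHz', hmK z hz]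
    obtain ⟨f, hf, hfL, hfx⟩ := coord_mem hlPL k hl1 hl2 hK hlK
    refine ⟨f * H, Subgroup.mul_mem _ (linePres_mem hf hfL) hH, fun x i => ?_⟩
    rw [Homeomorph.mul_apply, hfx]
    by_cases hik : i = k
    · subst hik
      rw [if_pos (by omega)]
      simp [hl]
    · have hne : (i : ℕ) ≠ j := fun h => hik (Fin.ext h)
      rw [hl1 _ _ hik, hHx]
      by_cases hij : (i : ℕ) < j
      · rw [if_pos hij, if_pos (by omega)]
      · rw [if_neg hij, if_neg (by omega)]

/-- T17 Mono: strictly monotone PL maps with compact support -/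
theorem mono_mem {n : ℕ} {m : (Fin n → ℝ) → (Fin n → ℝ)} (hm : IsPL m)
    (hmono : ∀ x y, x ≠ y → 0 < ∑ i, (m x i - m y i) * (x i - y i))
    {K : Set (Fin n → ℝ)} (hK : IsCompact K) (hmK : ∀ x, x ∉ K → m x = x) :
    ∃ f ∈ ⁅PLc (Fin n → ℝ), PLc (Fin n → ℝ)⁆, ∀ x, f x = m x := by
  obtain ⟨H, hH, hHx⟩ := mono_aux hm hmono hK hmK n le_rfl
  refine ⟨H, hH, fun x => ?_⟩
  funext i
  rw [hHx, if_pos i.2]

end Pool.Agent.W_MP_27356f_gt
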