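import Mathlib

namespace Pool.Agent.W_MP_27356f_gt

open Function

section PL

variable {E F F' : Type*} [NormedAddCommGroup E] [NormedSpace ℝ E]
  [NormedAddCommGroup F] [NormedSpace ℝ F] [NormedAddCommGroup F'] [NormedSpace ℝ F']

/-- A map is piecewise linear if it is continuous and there are finitely many affine maps
such that at every point it agrees with one of them. -/
def IsPL (f : E → F) : Prop :=
  Continuous f ∧ ∃ s : Set (E →ᵃ[ℝ] F), s.Finite ∧ ∀ x, ∃ L ∈ s, f x = L x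

theorem IsPL.continuous {f : E → F} (h : IsPL f) : Continuous f := h.1

theorem isPL_affine [FiniteDimensional ℝ E] (L : E →ᵃ[ℝ] F) : IsPL (fun x => L x) :=
  ⟨L.continuous_of_finiteDimensional, {L}, Set.finite_singleton L, fun _ => ⟨L, rfl, rfl⟩⟩

theorem isPL_linear [FiniteDimensional ℝ E] (L : E →ₗ[ℝ] F) : IsPL (fun x => L x) :=
  isPL_affine L.toAffineMap

theorem isPL_id : IsPL (fun x : E => x) :=
  ⟨continuous_id, {AffineMap.id ℝ E}, Set.finite_singleton _, fun _ => ⟨_, rfl, rfl⟩⟩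

theorem isPL_const (c : F) : IsPL (fun _ : E => c) :=
  ⟨continuous_const, {AffineMap.const ℝ E c}, Set.finite_singleton _, fun _ => ⟨_, rfl, rfl⟩⟩

theorem IsPL.comp {g : F → F'} {f : E → F} (hg : IsPL g) (hf : IsPL f) :
    IsPL (fun x => g (f x)) := by
  obtain ⟨hgc, s, hs, hgs⟩ := hg
  obtain ⟨hfc, t, ht, hft⟩ := hf
  refine ⟨hgc.comp hfc, Set.image2 (fun (a : F →ᵃ[ℝ] F') (b : E →ᵃ[ℝ] F) => a.comp b) s t,
    hs.image2 _ ht, fun x => ?_⟩
  obtain ⟨b, hb, hbx⟩ := hft x
  obtain ⟨a, ha, hax⟩ := hgs (f x)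
  refine ⟨a.comp b, ⟨a, ha, b, hb, rfl⟩, ?_⟩
  simp [hax, ← hbx]

theorem IsPL.prodMk {f : E → F} {g : E → F'} (hf : IsPL f) (hg : IsPL g) :
    IsPL (fun x => (f x, g x)) := by
  obtain ⟨hgc, s, hs, hgs⟩ := hg
  obtain ⟨hfc, t, ht, hft⟩ := hf
  refine ⟨hfc.prodMk hgc, Set.image2 (fun (a : E →ᵃ[ℝ] F) (b : E →ᵃ[ℝ] F') => a.prod b) t s,
    ht.image2 _ hs, fun x => ?_⟩
  obtain ⟨b, hb, hbx⟩ := hft x
  obtain ⟨a, ha, hax⟩ := hgs x
  refine ⟨b.prod a, ⟨b, hb, a, ha, rfl⟩, ?_⟩
  simp [← hax, ← hbx]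

theorem IsPL.add {f g : E → F} (hf : IsPL f) (hg : IsPL g) : IsPL (fun x => f x + g x) := by
  obtain ⟨hgc, s, hs, hgs⟩ := hg
  obtain ⟨hfc, t, ht, hft⟩ := hf
  refine ⟨hfc.add hgc, Set.image2 (fun (a : E →ᵃ[ℝ] F) (b : E →ᵃ[ℝ] F) => a + b) t s,
    ht.image2 _ hs, fun x => ?_⟩
  obtain ⟨b, hb, hbx⟩ := hft x
  obtain ⟨a, ha, hax⟩ := hgs x
  refine ⟨b + a, ⟨b, hb, a, ha, rfl⟩, ?_⟩
  simp [hax, hbx]

theorem IsPL.smul {f : E → F} (c : ℝ) (hf : IsPL f) : IsPL (fun x => c • f x) := by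
  obtain ⟨hfc, t, ht, hft⟩ := hf
  refine ⟨hfc.const_smul c, (fun a : E →ᵃ[ℝ] F => c • a) '' t, ht.image _, fun x => ?_⟩
  obtain ⟨b, hb, hbx⟩ := hft x
  refine ⟨c • b, ⟨b, hb, rfl⟩, ?_⟩
  simp [hbx]

theorem IsPL.neg {f : E → F} (hf : IsPL f) : IsPL (fun x => - f x) := by
  have := hf.smul (-1)
  simpa using this

theorem IsPL.sub {f g : E → F} (hf : IsPL f) (hg : IsPL g) : IsPL (fun x => f x - g x) := by
  have := hf.add hg.neg
  simpa [sub_eq_add_neg] using this

theorem IsPL.mul_const {f : E → ℝ} (c : ℝ) (hf : IsPL f) : IsPL (fun x => c * f x) := by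
  simpa using hf.smul c

/-- A continuous function which is everywhere equal to one of two PL functions is PL. -/
theorem IsPL.select {f g h : E → F} (hf : IsPL f) (hg : IsPL g) (hc : Continuous h)
    (hh : ∀ x, h x = f x ∨ h x = g x) : IsPL h := by
  obtain ⟨hgc, s, hs, hgs⟩ := hg
  obtain ⟨hfc, t, ht, hft⟩ := hf
  refine ⟨hc, t ∪ s, ht.union hs, fun x => ?_⟩
  rcases hh x with h1 | h1
  · obtain ⟨b, hb, hbx⟩ := hft x
    exact ⟨b, Or.inl hb, by rw [h1, hbx]⟩
  · obtain ⟨b, hb, hbx⟩ := hgs x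
    exact ⟨b, Or.inr hb, by rw [h1, hbx]⟩

theorem IsPL.max {f g : E → ℝ} (hf : IsPL f) (hg : IsPL g) : IsPL (fun x => max (f x) (g x)) :=
  IsPL.select hf hg (hf.1.max hg.1) fun _ => max_choice _ _

theorem IsPL.min {f g : E → ℝ} (hf : IsPL f) (hg : IsPL g) : IsPL (fun x => min (f x) (g x)) :=
  IsPL.select hf hg (hf.1.min hg.1) fun _ => min_choice _ _

theorem IsPL.abs {f : E → ℝ} (hf : IsPL f) : IsPL (fun x => |f x|) :=
  IsPL.select hf hf.neg hf.1.abs fun _ => abs_choice _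

theorem isPL_fst : IsPL (fun x : E × F => x.1) :=
  ⟨continuous_fst, {(LinearMap.fst ℝ E F).toAffineMap}, Set.finite_singleton _,
    fun _ => ⟨_, rfl, rfl⟩⟩

theorem isPL_snd : IsPL (fun x : E × F => x.2) :=
  ⟨continuous_snd, {(LinearMap.snd ℝ E F).toAffineMap}, Set.finite_singleton _,
    fun _ => ⟨_, rfl, rfl⟩⟩

theorem IsPL.apply {ι : Type*} [Fintype ι] {f : E → ι → ℝ} (hf : IsPL f) (i : ι) :
    IsPL (fun x => f x i) :=
  IsPL.comp (isPL_linear (LinearMap.proj (R := ℝ) (φ := fun _ : ι => ℝ) i)) hf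

theorem isPL_pi {ι : Type*} [Fintype ι] {f : E → ι → ℝ} (hf : ∀ i, IsPL (fun x => f x i)) :
    IsPL f := by
  choose hc s hs hfs using hf
  refine ⟨continuous_pi hc, (fun a : ι → (E →ᵃ[ℝ] ℝ) => AffineMap.pi a) '' (Set.univ.pi s), ?_, ?_⟩
  · exact (Set.Finite.pi' fun i => hs i).subset (fun a ha => by simpa using ha) |>.image _
  · intro x
    choose a ha hax using fun i => hfs i x
    refine ⟨AffineMap.pi a, ⟨a, fun i _ => ha i, rfl⟩, ?_⟩
    funext i
    simpa using hax i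

theorem isPL_finset_sup {κ : Type*} (s : Finset κ) {f : κ → E → ℝ} {c : ℝ}
    (hf : ∀ i ∈ s, IsPL (f i)) : IsPL (fun x => s.fold Max.max c (fun i => f i x)) := by
  classical
  induction s using Finset.induction_on with
  | empty => simpa using isPL_const c
  | insert a s ha ih =>
    simp only [Finset.fold_insert ha]
    exact (hf a (by simp)).max (ih fun i hi => hf i (by simp [hi]))

theorem isPL_norm_pi {ι : Type*} [Fintype ι] : IsPL (fun x : ι → ℝ => ‖x‖) := by
  have h := isPL_finset_sup (E := ι → ℝ) (Finset.univ : Finset ι) (c := 0)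
    (f := fun i x => |x i|) fun i _ => ((isPL_id.apply i).abs)
  convert h using 2 with x
  apply le_antisymm
  · rw [pi_norm_le_iff_of_nonneg]
    · intro i
      rw [Finset.le_fold_max]
      right
      exact ⟨i, Finset.mem_univ i, le_rfl⟩
    · rw [Finset.le_fold_max]
      exact Or.inl le_rfl
  · rw [Finset.fold_max_le]
    exact ⟨norm_nonneg _, fun i _ => norm_le_pi_norm x i⟩

/-- The inverse of a PL homeomorphism is PL. -/
theorem isPL_symm [FiniteDimensional ℝ E] (f : E ≃ₜ E) (hf : IsPL (fun x => f x)) :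
    IsPL (fun x => f.symm x) := by
  obtain ⟨hfc, t, ht, hft⟩ := hf
  have hcl : ∀ L : E →ᵃ[ℝ] E, IsClosed {x | f x = L x} := fun L =>
    isClosed_eq hfc L.continuous_of_finiteDimensional
  have hempty : ∀ L : E →ᵃ[ℝ] E, ¬ Injective L → interior {x | f x = L x} = ∅ := by
    intro L hL
    by_contra hne
    obtain ⟨x, hx⟩ := Set.nonempty_iff_ne_empty.mpr hne
    have hL' : ¬ Injective L.linear := fun h => hL ((AffineMap.linear_injective_iff L).mp h)
    obtain ⟨v, hv, hv0⟩ : ∃ v, L.linear v = 0 ∧ v ≠ 0 := by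
      by_contra hcon
      push Not at hcon
      exact hL' ((injective_iff_map_eq_zero L.linear).mpr fun v hv => hcon v hv)
    have hcont : Filter.Tendsto (fun r : ℝ => x + r • v) (nhds 0) (nhds x) := by
      have : Continuous (fun r : ℝ => x + r • v) := by fun_prop
      simpa using this.tendsto 0
    have hev := hcont.eventually (isOpen_interior.mem_nhds hx)
    obtain ⟨ε, hε, hball⟩ := Metric.eventually_nhds_iff.mp hev
    have h0 : x + (ε / 2) • v ∈ interior {x | f x = L x} :=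
      hball (y := ε / 2) (by rw [Real.dist_eq, sub_zero, abs_of_pos (by linarith)]; linarith)
    have h1 : f (x + (ε / 2) • v) = L (x + (ε / 2) • v) :=
      (interior_subset h0 : _ ∈ {x | f x = L x})
    have h2 : f x = L x := (interior_subset hx : _ ∈ {x | f x = L x})
    have h3 : L (x + (ε / 2) • v) = L x := by
      have := L.map_vadd x ((ε / 2) • v)
      rw [vadd_eq_add, add_comm] at this
      rw [this]
      simp [hv]
    have h4 : x + (ε / 2) • v = x := f.injective (by rw [h1, h2, h3])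
    have h5 : (ε / 2) • v = 0 := by simpa using h4
    rcases smul_eq_zero.mp h5 with h6 | h6
    · linarith
    · exact hv0 h6
  have hunion : ∀ u : Set (E →ᵃ[ℝ] E), u.Finite → (∀ L ∈ u, ¬ Injective L) →
      interior (⋃ L ∈ u, {x | f x = L x}) = ∅ := by
    intro u hu
    induction u, hu using Set.Finite.induction_on with
    | empty => intro _; simp
    | @insert a u ha hu ih =>
      intro h
      rw [Set.biUnion_insert, interior_union_isClosed_of_interior_empty (hcl a)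
        (ih fun L hL => h L (Set.mem_insert_of_mem _ hL))]
      exact hempty a (h a (Set.mem_insert _ _))
  have hmem : ∀ x, ∃ L ∈ t, Injective L ∧ f x = L x := by
    by_contra hcon
    push Not at hcon
    obtain ⟨x, hx⟩ := hcon
    set U : Set E := (⋃ L ∈ {L ∈ t | Injective L}, {x | f x = L x})ᶜ with hU
    have hUo : IsOpen U := by
      rw [hU, isOpen_compl_iff]
      exact (ht.subset (Set.sep_subset _ _)).isClosed_biUnion fun L _ => hcl L
    have hxU : x ∈ U := by
      rw [hU, Set.mem_compl_iff, Set.mem_iUnion₂]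
      rintro ⟨L, ⟨hL, hLi⟩, hLx⟩
      exact hx L hL hLi hLx
    have hsub : U ⊆ ⋃ L ∈ {L ∈ t | ¬ Injective L}, {x | f x = L x} := by
      intro y hy
      obtain ⟨L, hL, hLy⟩ := hft y
      rw [Set.mem_iUnion₂]
      by_cases hLi : Injective L
      · exact absurd (Set.mem_iUnion₂.mpr ⟨L, ⟨hL, hLi⟩, hLy⟩) hy
      · exact ⟨L, ⟨hL, hLi⟩, hLy⟩
    have h1 := interior_mono hsub
    rw [hunion _ (ht.subset (Set.sep_subset _ _)) (fun L hL => hL.2), hUo.interior_eq] at h1
    exact (h1 hxU : x ∈ (∅ : Set E))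
  -- conclusion
  have hinv : ∀ L : E →ᵃ[ℝ] E, Injective L → ∃ L' : E →ᵃ[ℝ] E, ∀ x, L' (L x) = x := by
    intro L hL
    have hl : Injective L.linear := (AffineMap.linear_injective_iff L).mpr hL
    set e := LinearEquiv.ofInjectiveEndo L.linear hl with he
    refine ⟨e.symm.toLinearMap.toAffineMap.comp
      (AffineMap.id ℝ E - AffineMap.const ℝ E (L 0)), fun x => ?_⟩
    have : L x = L.linear x + L 0 := by
      have := L.map_vadd 0 x
      simpa using this
    simp [this]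
    rw [LinearEquiv.symm_apply_eq]
    simp [he]
  choose! inv hinv' using hinv
  refine ⟨f.symm.continuous, inv '' t, ht.image _, fun y => ?_⟩
  obtain ⟨L, hL, hLi, hLx⟩ := hmem (f.symm y)
  refine ⟨inv L, ⟨L, hL, rfl⟩, ?_⟩
  have : y = L (f.symm y) := by simpa using hLx
  conv_rhs => rw [this]
  rw [hinv' L hLi]

end PL

end Pool.Agent.W_MP_27356f_gt
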