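import Pool.Agent.W_MP_27356f_gt.ShComm
import Pool.Agent.W_MP_27356f_gt.Factor
import Pool.Agent.W_MP_27356f_gt.Break

namespace Pool.Agent.W_MP_27356f_gt

/-- `Lc` is perfect -/
theorem Lc_perfect {ι : Type*} [Fintype ι] {f : (ι → ℝ) × ℝ ≃ₜ (ι → ℝ) × ℝ}
    (hf : f ∈ Lc (ι → ℝ)) : f ∈ LcC (ι → ℝ) := by
  obtain ⟨s, l, hs, hl, h1, h2⟩ := exists_tail hf
  exact mem_LcC_of_closure hf (factor l s f hf.1 hs hl h1 h2)

end Pool.Agent.W_MP_27356f_gt
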