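import Pool.Agent.W_MP_27356f_gt.Refine
import Pool.Agent.W_MP_27356f_gt.Simplex
import Pool.Agent.W_MP_27356f_gt.TriAff
import Pool.Agent.W_MP_27356f_gt.Interp

namespace Pool.Agent.W_MP_27356f_gt

/-- the homeomorphisms supported in a simplex of integral size with rational affine pieces -/
def RatPL (n : ℕ) : Set ((Fin n → ℝ) ≃ₜ (Fin n → ℝ)) :=
  {g | ∃ N : ℕ, (∀ x, x ∉ simp n N → g x = x) ∧
    ∃ s : Set ((Fin n → ℝ) →ᵃ[ℝ] (Fin n → ℝ)), s.Finite ∧ (∀ L ∈ s, IsRatAff L) ∧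
      ∀ x, ∃ L ∈ s, g x = L x}

/-- Q6 RatCount -/
theorem finite_selections {n : ℕ} (N : ℕ) {s : Set ((Fin n → ℝ) →ᵃ[ℝ] (Fin n → ℝ))}
    (hs : s.Finite) : {g : (Fin n → ℝ) ≃ₜ (Fin n → ℝ) | (∀ x, x ∉ simp n N → g x = x) ∧
      ∀ x, ∃ L ∈ s, g x = L x}.Finite := by
  have hsub : ∀ x, x ∈ simp n (N : ℝ) → x ∈ simp n ((N : ℝ) + 1) := by
    intro x hx
    exact ⟨fun i => by linarith [hx.1 i], by linarith [hx.2]⟩
  obtain ⟨p, b, hT⟩ := exists_tri_simp n (R := (N : ℝ) + 1) (by positivity)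
  have hS : (⋃ k : Fin n, Set.image2 (fun L L' => coordDiff L L' k) s s).Finite :=
    Set.finite_iUnion fun k => hs.image2 _ hs
  obtain ⟨κ, _, p', b', hT', hNC⟩ := exists_refine (convex_simp n ((N : ℝ) + 1))
    hS.toFinset.toList hT
  have hNC' : ∀ L ∈ s, ∀ L' ∈ s, ∀ k,
      NC p' b' (simp n ((N : ℝ) + 1)) (coordDiff L L' k) := by
    intro L hL L' hL' k
    apply hNC
    rw [Finset.mem_toList, Set.Finite.mem_toFinset, Set.mem_iUnion]
    exact ⟨k, L, hL, L', hL', rfl⟩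
  have hfin : (Set.univ.pi fun i : κ =>
      (fun L : (Fin n → ℝ) →ᵃ[ℝ] (Fin n → ℝ) => L (p' i)) '' s).Finite :=
    Set.Finite.pi fun i => hs.image _
  refine Set.Finite.of_injOn (f := fun (g : (Fin n → ℝ) ≃ₜ (Fin n → ℝ)) (i : κ) => g (p' i))
    ?_ ?_ hfin
  · rintro g ⟨-, hg⟩ i -
    obtain ⟨L, hL, hLx⟩ := hg (p' i)
    exact ⟨L, hL, hLx.symm⟩
  · rintro g ⟨hg1, hg⟩ g' ⟨hg1', hg'⟩ heq
    ext1 x
    by_cases hx : x ∈ simp n ((N : ℝ) + 1)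
    · rw [tri_affine (convex_simp n _) hT' g.continuous hs hg hNC' x hx,
        tri_affine (convex_simp n _) hT' g'.continuous hs hg' hNC' x hx]
      refine Finset.sum_congr rfl fun i _ => ?_
      rw [show g (p' i) = g' (p' i) from congrFun heq i]
    · rw [hg1 x fun h => hx (hsub x h), hg1' x fun h => hx (hsub x h)]

theorem countable_ratPL (n : ℕ) : (RatPL n).Countable := by
  have h1 : (⋃ N : ℕ, ⋃ s ∈ {t : Set ((Fin n → ℝ) →ᵃ[ℝ] (Fin n → ℝ)) |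
      t.Finite ∧ t ⊆ {L | IsRatAff L}},
      {g : (Fin n → ℝ) ≃ₜ (Fin n → ℝ) | (∀ x, x ∉ simp n N → g x = x) ∧
        ∀ x, ∃ L ∈ s, g x = L x}).Countable := by
    refine Set.countable_iUnion fun N => ?_
    refine (Set.countable_ofPred_finite_subset (countable_ratAff n)).biUnion fun s hs => ?_
    exact (finite_selections N hs.1).countable
  refine h1.mono ?_
  rintro g ⟨N, hg1, s, hs, hsr, hg⟩
  rw [Set.mem_iUnion]
  refine ⟨N, ?_⟩
  rw [Set.mem_iUnion₂]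
  exact ⟨s, ⟨hs, hsr⟩, hg1, hg⟩

end Pool.Agent.W_MP_27356f_gt
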