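import Pool.Agent.W_MP_27356f_gt.Stellar

namespace Pool.Agent.W_MP_27356f_gt

/-- the pairs of vertices crossing the hyperplane `ℓ = 0` which are simultaneously active -/
def crossing {E : Type*} [NormedAddCommGroup E] [NormedSpace ℝ E] {κ : Type}
    (p : κ → E) (b : κ → E → ℝ) (D : Set E) (ℓ : E →ᵃ[ℝ] ℝ) : Set (κ × κ) :=
  {q | ℓ (p q.1) < 0 ∧ 0 < ℓ (p q.2) ∧ ∃ x ∈ D, b q.1 x ≠ 0 ∧ b q.2 x ≠ 0}

theorem nc_of_crossing_empty {E : Type*} [NormedAddCommGroup E] [NormedSpace ℝ E] {κ : Type}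
    [Fintype κ] {p : κ → E} {b : κ → E → ℝ} {D : Set E} {ℓ : E →ᵃ[ℝ] ℝ}
    (h : crossing p b D ℓ = ∅) : NC p b D ℓ := by
  intro x hx
  by_contra hc
  push Not at hc
  obtain ⟨⟨i, hi, hi'⟩, ⟨j, hj, hj'⟩⟩ := hc
  have : (i, j) ∈ crossing p b D ℓ := ⟨hi', hj', x, hx, hi, hj⟩
  rw [h] at this
  exact this

/-- one hyperplane -/
theorem exists_refine_one {E : Type*} [NormedAddCommGroup E] [NormedSpace ℝ E] {D : Set E}
    (hD : Convex ℝ D) (S : Set (E →ᵃ[ℝ] ℝ)) (ℓ : E →ᵃ[ℝ] ℝ) (n : ℕ) :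
    ∀ (κ : Type) [Fintype κ] (p : κ → E) (b : κ → E → ℝ), IsTri p b D →
      (∀ ℓ' ∈ S, NC p b D ℓ') → (crossing p b D ℓ).ncard ≤ n →
    ∃ (κ' : Type) (_ : Fintype κ') (p' : κ' → E) (b' : κ' → E → ℝ), IsTri p' b' D ∧
      (∀ ℓ' ∈ S, NC p' b' D ℓ') ∧ NC p' b' D ℓ := by
  induction n with
  | zero =>
    intro κ _ p b hT hS hn
    refine ⟨κ, inferInstance, p, b, hT, hS, nc_of_crossing_empty ?_⟩
    have h0 : (crossing p b D ℓ).ncard = 0 := by omega
    exact (Set.ncard_eq_zero (Set.toFinite _)).1 h0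
  | succ n ih =>
    intro κ _ p b hT hS hn
    by_cases he : crossing p b D ℓ = ∅
    · exact ⟨κ, inferInstance, p, b, hT, hS, nc_of_crossing_empty he⟩
    obtain ⟨⟨i, j⟩, hij⟩ := Set.nonempty_iff_ne_empty.2 he
    have hi : ℓ (p i) < 0 := hij.1
    have hj : 0 < ℓ (p j) := hij.2.1
    have hne : i ≠ j := by
      rintro rfl
      exact lt_asymm hi hj
    have hd : 0 < ℓ (p j) - ℓ (p i) := by linarith
    obtain ⟨p', b', hT', hp, hp0, hb, hb0, hbij⟩ := hT.stellar hD hne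
      (τ := -ℓ (p i) / (ℓ (p j) - ℓ (p i))) (div_pos (by linarith) hd)
      ((div_lt_one hd).2 (by linarith))
    set τ : ℝ := -ℓ (p i) / (ℓ (p j) - ℓ (p i)) with hτ
    have h0 : 0 < τ := div_pos (by linarith) hd
    have h1 : τ < 1 := (div_lt_one hd).2 (by linarith)
    have hcomb : ∀ ℓ' : E →ᵃ[ℝ] ℝ, ℓ' (p' none) = (1 - τ) * ℓ' (p i) + τ * ℓ' (p j) := by
      intro ℓ'
      rw [hp0, Convex.combo_affine_apply (by ring)]
      simp
    have hnew : ℓ (p' none) = 0 := by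
      rw [hcomb, hτ]
      field_simp
      ring
    refine ih (Option κ) p' b' hT' ?_ ?_
    · intro ℓ' hℓ' x hx
      rcases hS ℓ' hℓ' x hx with h | h
      · left
        rintro (_ | k) hk
        · have := hb0 x hx hk
          rw [hcomb]
          have h2 := h i this.1
          have h3 := h j this.2
          have h4 : 0 ≤ 1 - τ := by linarith
          positivity
        · rw [hp]
          exact h k (hb x hx k hk)
      · right
        rintro (_ | k) hk
        · have := hb0 x hx hk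
          rw [hcomb]
          have h2 := h i this.1
          have h3 := h j this.2
          have h4 : 0 ≤ 1 - τ := by linarith
          nlinarith [mul_nonneg h4 (neg_nonneg.2 h2), mul_nonneg h0.le (neg_nonneg.2 h3)]
        · rw [hp]
          exact h k (hb x hx k hk)
    · have hsub : crossing p' b' D ℓ ⊆
          (Prod.map some some) '' (crossing p b D ℓ \ {(i, j)}) := by
        rintro ⟨q1, q2⟩ ⟨hq1, hq2, x, hx, hx1, hx2⟩
        rcases q1 with _ | k
        · exact absurd hq1 (by rw [hnew]; exact lt_irrefl _)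
        rcases q2 with _ | l
        · exact absurd hq2 (by rw [hnew]; exact lt_irrefl _)
        refine ⟨(k, l), ⟨⟨?_, ?_, x, hx, hb x hx k hx1, hb x hx l hx2⟩, ?_⟩, rfl⟩
        · have := hq1
          simp only [hp] at this
          exact this
        · have := hq2
          simp only [hp] at this
          exact this
        · intro hkl
          have hkl' : (k, l) = (i, j) := hkl
          rw [Prod.mk.injEq] at hkl'
          obtain ⟨rfl, rfl⟩ := hkl'
          rcases hbij x hx with h | h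
          · exact hx1 h
          · exact hx2 h
      have hle := Set.ncard_le_ncard hsub (Set.toFinite _)
      have hle2 : ((Prod.map some some) '' (crossing p b D ℓ \ {(i, j)})).ncard ≤
          (crossing p b D ℓ \ {(i, j)}).ncard := Set.ncard_image_le (Set.toFinite _)
      have hlt := Set.ncard_sdiff_singleton_lt_of_mem hij (Set.toFinite _)
      omega

theorem exists_refine_aux {E : Type*} [NormedAddCommGroup E] [NormedSpace ℝ E] {D : Set E}
    (hD : Convex ℝ D) (ls : List (E →ᵃ[ℝ] ℝ)) :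
    ∀ (S : Set (E →ᵃ[ℝ] ℝ)) (κ : Type) [Fintype κ] (p : κ → E) (b : κ → E → ℝ), IsTri p b D →
      (∀ ℓ' ∈ S, NC p b D ℓ') →
    ∃ (κ' : Type) (_ : Fintype κ') (p' : κ' → E) (b' : κ' → E → ℝ), IsTri p' b' D ∧
      (∀ ℓ' ∈ S, NC p' b' D ℓ') ∧ ∀ ℓ' ∈ ls, NC p' b' D ℓ' := by
  induction ls with
  | nil =>
    intro S κ _ p b hT hS
    exact ⟨κ, inferInstance, p, b, hT, hS, by simp⟩
  | cons ℓ ls ih =>
    intro S κ _ p b hT hS
    obtain ⟨κ1, _, p1, b1, hT1, hS1, hℓ⟩ := exists_refine_one hD S ℓ _ κ p b hT hS le_rfl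
    obtain ⟨κ2, i2, p2, b2, hT2, hS2, hls⟩ := ih (insert ℓ S) κ1 p1 b1 hT1 (by
      rintro ℓ' (rfl | h)
      · exact hℓ
      · exact hS1 ℓ' h)
    refine ⟨κ2, i2, p2, b2, hT2, fun ℓ' h => hS2 ℓ' (Or.inr h), ?_⟩
    intro ℓ' h
    rcases List.mem_cons.1 h with rfl | h
    · exact hS2 _ (Or.inl rfl)
    · exact hls _ h

/-- Q2 Refine -/
theorem exists_refine {E : Type*} [NormedAddCommGroup E] [NormedSpace ℝ E] {D : Set E}
    (hD : Convex ℝ D) (ls : List (E →ᵃ[ℝ] ℝ)) {κ : Type} [Fintype κ]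
    {p : κ → E} {b : κ → E → ℝ} (hT : IsTri p b D) :
    ∃ (κ' : Type) (_ : Fintype κ') (p' : κ' → E) (b' : κ' → E → ℝ), IsTri p' b' D ∧
      ∀ ℓ ∈ ls, NC p' b' D ℓ := by
  obtain ⟨κ', i', p', b', h1, -, h3⟩ := exists_refine_aux hD ls ∅ κ p b hT (by simp)
  exact ⟨κ', i', p', b', h1, h3⟩

end Pool.Agent.W_MP_27356f_gt
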