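import Pool.Agent.W_MP_27356f_gt.Elem

namespace Pool.Agent.W_MP_27356f_gt

variable {X : Type*} [NormedAddCommGroup X] [NormedSpace ℝ X] [FiniteDimensional ℝ X]

/-- the identity near `-∞` and off a compact set of `X`, the shift by `s` near `+∞` -/
def IsSh (u : X × ℝ ≃ₜ X × ℝ) (s : X → ℝ) : Prop :=
  u ∈ Lin X ∧ ∃ R : ℝ, 0 ≤ R ∧ (∀ x, |s x| ≤ R) ∧ (∀ x y, y ≤ -R → u (x, y) = (x, y)) ∧
    (∀ x y, R ≤ ‖x‖ → u (x, y) = (x, y)) ∧ (∀ x y, R ≤ y → u (x, y) = (x, y + s x))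

/-- the set of elementary elements -/
def EEset (X : Type*) [NormedAddCommGroup X] [NormedSpace ℝ X] [FiniteDimensional ℝ X] :
    Set (X × ℝ ≃ₜ X × ℝ) :=
  {e | ∃ (a b : X → ℝ) (l : ℝ), CS a ∧ CS b ∧ 0 < l ∧ e = EE a b l}

/-- compactly supported PL functions are bounded -/
theorem CS.exists_bound {a : X → ℝ} (ha : CS a) : ∃ A : ℝ, 0 ≤ A ∧ ∀ x, |a x| ≤ A := by
  obtain ⟨hpl, R, hR⟩ := ha
  have hprop : ProperSpace X := FiniteDimensional.proper ℝ X
  obtain ⟨C, hC⟩ := (isCompact_closedBall (0 : X) R).exists_bound_of_continuousOn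
    hpl.continuous.continuousOn
  refine ⟨max C 0, le_max_right _ _, fun x => ?_⟩
  by_cases h : ‖x‖ ≤ R
  · have h1 := hC x (by rwa [Metric.mem_closedBall, dist_zero_right])
    rw [Real.norm_eq_abs] at h1
    exact h1.trans (le_max_left _ _)
  · rw [hR x (not_le.mp h).le, abs_zero]
    exact le_max_right _ _

/-- T5 ShBasic -/
theorem IsSh.mul {u v : X × ℝ ≃ₜ X × ℝ} {s t : X → ℝ} (hu : IsSh u s) (hv : IsSh v t) :
    IsSh (u * v) (fun x => s x + t x) := by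
  obtain ⟨hul, R, hR0, hsR, hu1, hu2, hu3⟩ := hu
  obtain ⟨hvl, T, hT0, htT, hv1, hv2, hv3⟩ := hv
  refine ⟨(Lin X).mul_mem hul hvl, R + T, by linarith, fun x => ?_, fun x y hy => ?_,
    fun x y hx => ?_, fun x y hy => ?_⟩
  · exact (abs_add_le _ _).trans (add_le_add (hsR x) (htT x))
  · rw [Homeomorph.mul_apply, hv1 x y (by linarith), hu1 x y (by linarith)]
  · rw [Homeomorph.mul_apply, hv2 x y (by linarith), hu2 x y (by linarith)]
  · have h1 := (abs_le.mp (htT x)).1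
    rw [Homeomorph.mul_apply, hv3 x y (by linarith), hu3 x _ (by linarith), Prod.mk.injEq]
    exact ⟨rfl, by ring⟩

theorem IsSh.inv {u : X × ℝ ≃ₜ X × ℝ} {s : X → ℝ} (hu : IsSh u s) :
    IsSh u⁻¹ (fun x => - s x) := by
  obtain ⟨hul, R, hR0, hsR, hu1, hu2, hu3⟩ := hu
  refine ⟨(Lin X).inv_mem hul, 2 * R, by linarith, fun x => ?_, fun x y hy => ?_,
    fun x y hx => ?_, fun x y hy => ?_⟩
  · rw [abs_neg]
    linarith [hsR x]
  · rw [Homeomorph.inv_apply, Homeomorph.symm_apply_eq, hu1 x y (by linarith)]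
  · rw [Homeomorph.inv_apply, Homeomorph.symm_apply_eq, hu2 x y (by linarith)]
  · have h1 := (abs_le.mp (hsR x)).2
    rw [Homeomorph.inv_apply, Homeomorph.symm_apply_eq, hu3 x _ (by linarith), Prod.mk.injEq]
    exact ⟨rfl, by ring⟩

theorem IsSh.conj_MM {u : X × ℝ ≃ₜ X × ℝ} {s : X → ℝ} (hu : IsSh u s) {μ : ℝ} (hμ : 0 < μ) :
    IsSh (MM μ * u * (MM μ)⁻¹) (fun x => μ * s x) := by
  obtain ⟨hul, R, hR0, hsR, hu1, hu2, hu3⟩ := hu
  have hR1 : R ≤ R + μ * R := by nlinarith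
  have hR2 : μ * R ≤ R + μ * R := by linarith
  refine ⟨(Lin X).mul_mem ((Lin X).mul_mem (MM_mem μ) hul) ((Lin X).inv_mem (MM_mem μ)),
    R + μ * R, by nlinarith, fun x => ?_, fun x y hy => ?_,
    fun x y hx => ?_, fun x y hy => ?_⟩
  · rw [abs_mul, abs_of_pos hμ]
    exact (mul_le_mul_of_nonneg_left (hsR x) hμ.le).trans hR2
  · have h1 : μ⁻¹ * y ≤ -R := by
      rw [inv_mul_le_iff₀ hμ]
      linarith
    rw [Homeomorph.mul_apply, Homeomorph.mul_apply, MM_inv_apply hμ, hu1 x _ h1, MM_apply hμ,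
      mul_inv_cancel_left₀ hμ.ne']
  · rw [Homeomorph.mul_apply, Homeomorph.mul_apply, MM_inv_apply hμ, hu2 x _ (hR1.trans hx),
      MM_apply hμ, mul_inv_cancel_left₀ hμ.ne']
  · have h1 : R ≤ μ⁻¹ * y := by
      rw [le_inv_mul_iff₀ hμ]
      linarith
    rw [Homeomorph.mul_apply, Homeomorph.mul_apply, MM_inv_apply hμ, hu3 x _ h1, MM_apply hμ,
      mul_add, mul_inv_cancel_left₀ hμ.ne']

theorem IsSh.conj_SS {u : X × ℝ ≃ₜ X × ℝ} {s b : X → ℝ} (hu : IsSh u s) (hb : CS b) :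
    IsSh (SS b * u * (SS b)⁻¹) s := by
  obtain ⟨hul, R, hR0, hsR, hu1, hu2, hu3⟩ := hu
  obtain ⟨B, hB0, hB⟩ := hb.exists_bound
  refine ⟨(Lin X).mul_mem ((Lin X).mul_mem (SS_mem b) hul) ((Lin X).inv_mem (SS_mem b)),
    R + B, by linarith, fun x => ?_, fun x y hy => ?_,
    fun x y hx => ?_, fun x y hy => ?_⟩
  · linarith [hsR x]
  · have h1 := (abs_le.mp (hB x)).1
    rw [Homeomorph.mul_apply, Homeomorph.mul_apply, SS_inv_apply hb.1, hu1 x _ (by linarith),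
      SS_apply hb.1, sub_add_cancel]
  · rw [Homeomorph.mul_apply, Homeomorph.mul_apply, SS_inv_apply hb.1, hu2 x _ (by linarith),
      SS_apply hb.1, sub_add_cancel]
  · have h1 := (abs_le.mp (hB x)).2
    rw [Homeomorph.mul_apply, Homeomorph.mul_apply, SS_inv_apply hb.1, hu3 x _ (by linarith),
      SS_apply hb.1, Prod.mk.injEq]
    exact ⟨rfl, by ring⟩

theorem IsSh.mem_Lc {u : X × ℝ ≃ₜ X × ℝ} {s : X → ℝ} (hu : IsSh u s) (hs : ∀ x, s x = 0) :
    u ∈ Lc X := by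
  obtain ⟨hul, R, hR0, hsR, hu1, hu2, hu3⟩ := hu
  have hprop : ProperSpace X := FiniteDimensional.proper ℝ X
  refine Pool.Agent.W_MP_27356f_gt.mem_Lc.mpr ⟨hul, mem_PLc.mpr ⟨(mem_Lin.mp hul).1,
    Metric.closedBall (0 : X) R ×ˢ Set.Icc (-R) R,
    (isCompact_closedBall (0 : X) R).prod isCompact_Icc, ?_⟩⟩
  rintro ⟨x, y⟩ hz
  by_cases h1 : R ≤ ‖x‖
  · exact hu2 x y h1
  by_cases h2 : y ≤ -R
  · exact hu1 x y h2
  by_cases h3 : R ≤ y
  · rw [hu3 x y h3, hs x, add_zero]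
  · exfalso
    apply hz
    refine ⟨?_, ?_⟩
    · rw [Metric.mem_closedBall, dist_zero_right]
      exact (not_le.mp h1).le
    · exact ⟨(not_le.mp h2).le, (not_le.mp h3).le⟩

theorem isSh_EE {a b : X → ℝ} (ha : CS a) (hb : CS b) {l : ℝ} (hl : 0 < l) :
    IsSh (EE a b l) (fun x => (l - 1) * (b x - a x)) := by
  obtain ⟨A, hA0, hA⟩ := ha.exists_bound
  obtain ⟨B, hB0, hB⟩ := hb.exists_bound
  obtain ⟨Ra, hRa⟩ := ha.2
  obtain ⟨Rb, hRb⟩ := hb.2
  have hlAB : 0 ≤ l * (A + B) := mul_nonneg hl.le (by linarith)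
  have habs1 : Ra ≤ |Ra| := le_abs_self _
  have habs2 : Rb ≤ |Rb| := le_abs_self _
  have habs3 : 0 ≤ |Ra| := abs_nonneg _
  have habs4 : 0 ≤ |Rb| := abs_nonneg _
  refine ⟨EE_mem a b l, |Ra| + |Rb| + (l * (A + B) + (A + B)), by positivity, fun x => ?_,
    fun x y hy => ?_, fun x y hx => ?_, fun x y hy => ?_⟩
  · have h1 : |b x - a x| ≤ A + B := by
      have := abs_sub (b x) (a x)
      have h2 := hA x
      have h3 := hB x
      linarith
    have h2 : |l - 1| ≤ l + 1 := by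
      rw [abs_le]
      constructor <;> linarith
    rw [abs_mul]
    calc |l - 1| * |b x - a x| ≤ (l + 1) * (A + B) :=
          mul_le_mul h2 h1 (abs_nonneg _) (by linarith)
      _ ≤ _ := by nlinarith
  · have h1 := (abs_le.mp (hA x)).1
    have h2 := (abs_le.mp (hB x)).1
    have h3 : y - b x ≤ 0 := by linarith
    have h4 : y - a x ≤ 0 := by linarith
    unfold EE
    rw [Homeomorph.mul_apply, DD_inv_apply hb.1 hl, max_eq_left h3, mul_zero, add_zero,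
      DD_apply ha.1 hl, max_eq_left h4, mul_zero, add_zero]
  · exact EE_apply_eq ha.1 hb.1 hl (by rw [hRa x (by linarith), hRb x (by linarith)])
  · have h1 := abs_le.mp (hA x)
    have h2 := abs_le.mp (hB x)
    have h3 : 0 ≤ y - b x := by linarith [h2.2]
    have h4 : y + (l⁻¹ - 1) * (y - b x) = b x + l⁻¹ * (y - b x) := by ring
    have h5 : 0 ≤ b x + l⁻¹ * (y - b x) - a x := by
      have h6 : l * (a x - b x) ≤ y - b x := by
        have h7 : l * (a x - b x) ≤ l * (A + B) :=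
          mul_le_mul_of_nonneg_left (by linarith [h1.2, h2.1]) hl.le
        linarith [h2.2]
      have h8 : a x - b x ≤ l⁻¹ * (y - b x) := by
        rw [le_inv_mul_iff₀ hl]
        exact h6
      linarith
    unfold EE
    rw [Homeomorph.mul_apply, DD_inv_apply hb.1 hl, max_eq_right h3, h4,
      DD_apply ha.1 hl, max_eq_right h5, Prod.mk.injEq]
    refine ⟨rfl, ?_⟩
    have h9 : l * (l⁻¹ * (y - b x)) = y - b x := mul_inv_cancel_left₀ hl.ne' _
    linear_combination h9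

end Pool.Agent.W_MP_27356f_gt
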