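import Pool.Agent.W_MP_27356f_gt.ShBasic
import Pool.Agent.W_MP_27356f_gt.Cut
import Pool.Agent.W_MP_27356f_gt.Abs

namespace Pool.Agent.W_MP_27356f_gt

variable {ι : Type*} [Fintype ι]

theorem shc_Lc_le_Lin : Lc (ι → ℝ) ≤ Lin (ι → ℝ) := fun _ hf => (mem_Lc.mp hf).1

theorem shc_LcC_le_Lc : LcC (ι → ℝ) ≤ Lc (ι → ℝ) := by
  unfold LcC
  rw [Subgroup.commutator_le]
  intro g hg h hh
  rw [commutatorElement_def]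
  exact (Lc (ι → ℝ)).mul_mem ((Lc (ι → ℝ)).mul_mem ((Lc (ι → ℝ)).mul_mem hg hh)
    ((Lc (ι → ℝ)).inv_mem hg)) ((Lc (ι → ℝ)).inv_mem hh)

theorem IsSh.two {u : (ι → ℝ) × ℝ ≃ₜ (ι → ℝ) × ℝ} {s : (ι → ℝ) → ℝ} (hu : IsSh u s) :
    MM 2 * u * (MM 2)⁻¹ * (u ^ 2)⁻¹ ∈ Lc (ι → ℝ) := by
  rw [pow_two]
  refine ((hu.conj_MM (μ := 2) (by norm_num)).mul (hu.mul hu).inv).mem_Lc fun x => ?_
  ring

theorem IsSh.three {u : (ι → ℝ) × ℝ ≃ₜ (ι → ℝ) × ℝ} {s : (ι → ℝ) → ℝ} (hu : IsSh u s) :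
    MM 3 * u * (MM 3)⁻¹ * (u ^ 3)⁻¹ ∈ Lc (ι → ℝ) := by
  rw [pow_succ, pow_two]
  refine ((hu.conj_MM (μ := 3) (by norm_num)).mul ((hu.mul hu).mul hu).inv).mem_Lc fun x => ?_
  ring

/-- T6 ShComm -/
theorem IsSh.comm {u v : (ι → ℝ) × ℝ ≃ₜ (ι → ℝ) × ℝ} {s t : (ι → ℝ) → ℝ} (hu : IsSh u s)
    (hv : IsSh v t) : u * v * u⁻¹ * v⁻¹ ∈ LcC (ι → ℝ) := by
  refine ck_rel (P := Lin (ι → ℝ)) (L := Lc (ι → ℝ)) shc_Lc_le_Lin shc_LcC_le_Lc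
    (fun p hp g hg => comm_mem hp hg) (m2 := MM 2) (m3 := MM 3) hu.1 hv.1 (MM_mem 2) (MM_mem 3)
    ?_ hu.two hv.two hu.three hv.three
  refine (((hu.mul hv).mul hu.inv).mul hv.inv).mem_Lc fun x => ?_
  ring

theorem shc_MM_SS {b : (ι → ℝ) → ℝ} (hb : IsPL b) :
    MM 2 * SS b * (MM 2)⁻¹ * (SS b ^ 2)⁻¹ = 1 := by
  rw [MM_conj_SS hb (by norm_num), pow_two, SS_mul hb hb, mul_inv_eq_one]
  congr 1
  funext x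
  ring

theorem shc_MM_SS3 {b : (ι → ℝ) → ℝ} (hb : IsPL b) :
    MM 3 * SS b * (MM 3)⁻¹ * (SS b ^ 3)⁻¹ = 1 := by
  rw [MM_conj_SS hb (by norm_num), pow_succ, pow_two, SS_mul hb hb, SS_mul (hb.add hb) hb,
    mul_inv_eq_one]
  congr 1
  funext x
  ring

theorem IsSh.comm_SS {u : (ι → ℝ) × ℝ ≃ₜ (ι → ℝ) × ℝ} {s b : (ι → ℝ) → ℝ} (hu : IsSh u s)
    (hb : CS b) : u * SS b * u⁻¹ * (SS b)⁻¹ ∈ LcC (ι → ℝ) := by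
  refine ck_rel (P := Lin (ι → ℝ)) (L := Lc (ι → ℝ)) shc_Lc_le_Lin shc_LcC_le_Lc
    (fun p hp g hg => comm_mem hp hg) (m2 := MM 2) (m3 := MM 3) hu.1 (SS_mem b) (MM_mem 2)
    (MM_mem 3) ?_ hu.two ?_ hu.three ?_
  · have h := (hu.mul (hu.inv.conj_SS hb)).mem_Lc fun x => by ring
    have e : u * SS b * u⁻¹ * (SS b)⁻¹ = u * (SS b * u⁻¹ * (SS b)⁻¹) := by group
    rw [e]
    exact h
  · rw [shc_MM_SS hb.1]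
    exact (Lc (ι → ℝ)).one_mem
  · rw [shc_MM_SS3 hb.1]
    exact (Lc (ι → ℝ)).one_mem

theorem shc_CS_sub {a b : (ι → ℝ) → ℝ} (ha : CS a) (hb : CS b) : CS fun x => b x - a x := by
  obtain ⟨ha1, R, hR⟩ := ha
  obtain ⟨hb1, R', hR'⟩ := hb
  refine ⟨hb1.sub ha1, max R R', fun x hx => ?_⟩
  have h1 := hR x (le_trans (le_max_left _ _) hx)
  have h2 := hR' x (le_trans (le_max_right _ _) hx)
  show b x - a x = 0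
  rw [h1, h2, sub_zero]

theorem EE_conj {a b : (ι → ℝ) → ℝ} (ha : CS a) (hb : CS b) {l : ℝ} (hl : 0 < l) :
    MM 2 * EE a b l * (MM 2)⁻¹ * (EE a b l ^ 2)⁻¹ ∈ LcC (ι → ℝ) := by
  rw [MM_conj_EE ha.1 hb.1 hl]
  exact conj_rel (P := Lin (ι → ℝ)) (L := Lc (ι → ℝ)) shc_Lc_le_Lin shc_LcC_le_Lc
    (fun p hp g hg => comm_mem hp hg) (EE_mem a b l) (SS_mem a) (SS_mem _)
    ((isSh_EE ha hb hl).comm_SS ha) ((isSh_EE ha hb hl).comm_SS (shc_CS_sub ha hb))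

theorem mem_LcC_of_closure {f : (ι → ℝ) × ℝ ≃ₜ (ι → ℝ) × ℝ} (hf : f ∈ Lc (ι → ℝ))
    (h : f ∈ Subgroup.closure (EEset (ι → ℝ))) : f ∈ LcC (ι → ℝ) := by
  refine final_rel (P := Lin (ι → ℝ)) (L := Lc (ι → ℝ)) shc_Lc_le_Lin shc_LcC_le_Lc
    (fun p hp g hg => comm_mem hp hg) (MM_mem 2) (E := EEset (ι → ℝ)) ?_ ?_ ?_ hf h
  · rintro e ⟨a, b, l, -, -, -, rfl⟩
    exact EE_mem a b l
  · rintro e ⟨a, b, l, ha, hb, hl, rfl⟩ e' ⟨a', b', l', ha', hb', hl', rfl⟩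
    exact (isSh_EE ha hb hl).comm (isSh_EE ha' hb' hl')
  · rintro e ⟨a, b, l, ha, hb, hl, rfl⟩
    exact EE_conj ha hb hl

end Pool.Agent.W_MP_27356f_gt
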