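import Pool.Agent.W_MP_27356f_gt.Tri

namespace Pool.Agent.W_MP_27356f_gt

/-- affine independence of the subfamily given by `P`, with weights on the whole index type -/
theorem stellar_ind_iff {V : Type*} [AddCommGroup V] [Module ℝ V] {α : Type*} [Fintype α]
    (P : α → Prop) (q : α → V) :
    AffineIndependent ℝ (fun a : {a // P a} => q a) ↔
      ∀ w : α → ℝ, (∀ a, ¬ P a → w a = 0) → ∑ a, w a = 0 → ∑ a, w a • q a = 0 →
        ∀ a, w a = 0 := by
  classical
  rw [affineIndependent_iff]
  constructor
  · intro h w hw h1 h2 a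
    by_cases ha : P a
    · have e1 : ∑ x : {a // P a}, w x = 0 := by
        rw [← h1, ← Finset.sum_subtype (Finset.univ.filter P) (by simp) w,
          Finset.sum_filter_of_ne]
        intro x _ hx
        by_contra hn
        exact hx (hw x hn)
      have e2 : ∑ x : {a // P a}, w x • q x = 0 := by
        rw [← h2, ← Finset.sum_subtype (Finset.univ.filter P) (by simp) (fun x => w x • q x),
          Finset.sum_filter_of_ne]
        intro x _ hx
        by_contra hn
        exact hx (by rw [hw x hn, zero_smul])
      exact h Finset.univ (fun x => w x) e1 e2 ⟨a, ha⟩ (Finset.mem_univ _)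
    · exact hw a ha
  · intro h s w h1 h2 a ha
    set W : α → ℝ := fun x => if hx : P x then (if (⟨x, hx⟩ : {a // P a}) ∈ s then w ⟨x, hx⟩
      else 0) else 0 with hW
    have hWv : ∀ x : {a // P a}, W x = if x ∈ s then w x else 0 := by
      intro x
      simp only [hW, x.2, dite_true]
    have hW0 : ∀ x, ¬ P x → W x = 0 := by
      intro x hx
      simp only [hW, hx, dite_false]
    have s1 : ∑ x, W x = 0 := by
      rw [← Finset.sum_filter_of_ne (p := P) (s := Finset.univ) (f := W) (fun x _ hx => by
        by_contra hn; exact hx (hW0 x hn)),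
        Finset.sum_subtype (Finset.univ.filter P) (p := P) (by simp) W]
      simp only [hWv]
      rw [Finset.sum_ite_mem, Finset.univ_inter]
      exact h1
    have s2 : ∑ x, W x • q x = 0 := by
      rw [← Finset.sum_filter_of_ne (p := P) (s := Finset.univ) (f := fun x => W x • q x)
        (fun x _ hx => by
        by_contra hn; exact hx (by rw [hW0 x hn, zero_smul])),
        Finset.sum_subtype (Finset.univ.filter P) (p := P) (by simp) (fun x => W x • q x)]
      simp only [hWv, ite_smul, zero_smul]
      rw [Finset.sum_ite_mem, Finset.univ_inter]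
      exact h2
    have := h W hW0 s1 s2 a
    rw [hWv, if_pos ha] at this
    exact this

theorem stellar_sum {M : Type*} [AddCommGroup M] [Module ℝ M] {κ : Type*} [Fintype κ]
    {c : κ → ℝ} {i j : κ} (hij : i ≠ j) (hck : ∀ k, k ≠ i → k ≠ j → c k = 0) (g : κ → M) :
    ∑ k, c k • g k = c i • g i + c j • g j := by
  classical
  rw [← Finset.add_sum_erase _ _ (Finset.mem_univ i),
    ← Finset.add_sum_erase (Finset.univ.erase i) _ (Finset.mem_erase.2 ⟨hij.symm,
      Finset.mem_univ j⟩), Finset.sum_eq_zero, add_zero]
  intro k hk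
  rw [Finset.mem_erase, Finset.mem_erase] at hk
  rw [hck k hk.2.1 hk.1, zero_smul]

/-- Q1 Stellar: stellar subdivision of an edge -/
theorem IsTri.stellar {E : Type*} [NormedAddCommGroup E] [NormedSpace ℝ E] {κ : Type} [Fintype κ]
    {p : κ → E} {b : κ → E → ℝ} {D : Set E} (hT : IsTri p b D) (hD : Convex ℝ D) {i j : κ}
    (hij : i ≠ j) {τ : ℝ} (h0 : 0 < τ) (h1 : τ < 1) :
    ∃ (p' : Option κ → E) (b' : Option κ → E → ℝ), IsTri p' b' D ∧
      (∀ k, p' (some k) = p k) ∧ p' none = (1 - τ) • p i + τ • p j ∧
      (∀ x ∈ D, ∀ k, b' (some k) x ≠ 0 → b k x ≠ 0) ∧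
      (∀ x ∈ D, b' none x ≠ 0 → b i x ≠ 0 ∧ b j x ≠ 0) ∧
      (∀ x ∈ D, b' (some i) x = 0 ∨ b' (some j) x = 0) := by
  classical
  have h1' : 0 < 1 - τ := by linarith
  set c : κ → ℝ := fun k => if k = i then 1 - τ else if k = j then τ else 0 with hc
  have hci : c i = 1 - τ := by simp [hc]
  have hcj : c j = τ := by simp [hc, hij.symm]
  have hck : ∀ k, k ≠ i → k ≠ j → c k = 0 := fun k h h' => by simp [hc, h, h']
  have hsum1 : ∑ k, c k = 1 := by
    have := stellar_sum hij hck (fun _ => (1 : ℝ))
    simp only [smul_eq_mul, mul_one] at this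
    rw [this, hci, hcj]
    ring
  have hsc : ∑ k, c k • p k = (1 - τ) • p i + τ • p j := by
    rw [stellar_sum hij hck p, hci, hcj]
  set N : E → ℝ := fun x => min ((1 - τ)⁻¹ * b i x) (τ⁻¹ * b j x) with hN
  have hNpl : IsPL N := ((hT.pl i).mul_const _).min ((hT.pl j).mul_const _)
  have hN0 : ∀ x ∈ D, 0 ≤ N x := fun x hx => le_min
    (mul_nonneg (inv_nonneg.2 h1'.le) (hT.nonneg i x hx))
    (mul_nonneg (inv_nonneg.2 h0.le) (hT.nonneg j x hx))
  have hNi : ∀ x, (1 - τ) * N x ≤ b i x := by
    intro x
    have : N x ≤ (1 - τ)⁻¹ * b i x := min_le_left _ _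
    calc (1 - τ) * N x ≤ (1 - τ) * ((1 - τ)⁻¹ * b i x) := mul_le_mul_of_nonneg_left this h1'.le
      _ = b i x := by rw [← mul_assoc, mul_inv_cancel₀ h1'.ne', one_mul]
  have hNj : ∀ x, τ * N x ≤ b j x := by
    intro x
    have : N x ≤ τ⁻¹ * b j x := min_le_right _ _
    calc τ * N x ≤ τ * (τ⁻¹ * b j x) := mul_le_mul_of_nonneg_left this h0.le
      _ = b j x := by rw [← mul_assoc, mul_inv_cancel₀ h0.ne', one_mul]
  have hNi0 : ∀ x ∈ D, b i x = 0 → N x = 0 := by
    intro x hx h
    have h2 := hNi x
    rw [h] at h2
    have h3 := hN0 x hx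
    nlinarith
  have hNj0 : ∀ x ∈ D, b j x = 0 → N x = 0 := by
    intro x hx h
    have h2 := hNj x
    rw [h] at h2
    have h3 := hN0 x hx
    nlinarith
  have hor : ∀ x, b i x - c i * N x = 0 ∨ b j x - c j * N x = 0 := by
    intro x
    rw [hci, hcj]
    rcases min_choice ((1 - τ)⁻¹ * b i x) (τ⁻¹ * b j x) with h | h
    · left
      have : N x = (1 - τ)⁻¹ * b i x := h
      rw [this, ← mul_assoc, mul_inv_cancel₀ h1'.ne', one_mul, sub_self]
    · right
      have : N x = τ⁻¹ * b j x := h
      rw [this, ← mul_assoc, mul_inv_cancel₀ h0.ne', one_mul, sub_self]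
  have hb0 : ∀ x ∈ D, ∀ k, b k x = 0 → b k x - c k * N x = 0 ∧ c k * N x = 0 := by
    intro x hx k hk
    have hz : c k * N x = 0 := by
      by_cases hki : k = i
      · subst hki; rw [hNi0 x hx hk, mul_zero]
      · by_cases hkj : k = j
        · subst hkj; rw [hNj0 x hx hk, mul_zero]
        · rw [hck k hki hkj, zero_mul]
    exact ⟨by rw [hk, hz, sub_zero], hz⟩
  set p' : Option κ → E := fun a => a.elim ((1 - τ) • p i + τ • p j) p with hp'
  set b' : Option κ → E → ℝ := fun a => a.elim N (fun k x => b k x - c k * N x) with hb'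
  refine ⟨p', b', ?_, fun k => rfl, rfl, ?_, ?_, fun x _ => hor x⟩
  · refine ⟨?_, ?_, ?_, ?_, ?_, ?_⟩
    · rintro (_ | k)
      · exact hNpl
      · exact (hT.pl k).sub (hNpl.mul_const _)
    · rintro (_ | k) x hx
      · exact hN0 x hx
      · show 0 ≤ b k x - c k * N x
        by_cases hki : k = i
        · subst hki; rw [hci]; linarith [hNi x]
        · by_cases hkj : k = j
          · subst hkj; rw [hcj]; linarith [hNj x]
          · rw [hck k hki hkj]; linarith [hT.nonneg k x hx]
    · intro x hx
      rw [Fintype.sum_option]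
      show N x + ∑ k, (b k x - c k * N x) = 1
      rw [Finset.sum_sub_distrib, ← Finset.sum_mul, hsum1, hT.sum_eq x hx]
      ring
    · intro x hx
      rw [Fintype.sum_option]
      show N x • ((1 - τ) • p i + τ • p j) + ∑ k, (b k x - c k * N x) • p k = x
      have e : ∑ k, (b k x - c k * N x) • p k = x - N x • ((1 - τ) • p i + τ • p j) := by
        rw [← hsc, Finset.smul_sum, ← hT.rep x hx, ← Finset.sum_sub_distrib]
        refine Finset.sum_congr rfl fun k _ => ?_
        rw [hT.rep x hx, sub_smul, smul_smul, mul_comm]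
      rw [e]
      abel
    · intro x hx
      have hold := (stellar_ind_iff (fun k => b k x ≠ 0) p).1 (hT.ind x hx)
      rw [stellar_ind_iff (fun a => b' a x ≠ 0) p']
      intro w hw hw1 hw2
      rw [Fintype.sum_option] at hw1 hw2
      have hk := hold (fun k => w (some k) + c k * w none) ?_ ?_ ?_
      · have hnone : w none = 0 := by
          rcases hor x with h | h
          · have e := hk i
            have e2 : w (some i) = 0 := hw (some i) (fun hne => hne h)
            simp only [e2, zero_add, hci] at e
            rcases mul_eq_zero.1 e with e3 | e3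
            · exact absurd e3 h1'.ne'
            · exact e3
          · have e := hk j
            have e2 : w (some j) = 0 := hw (some j) (fun hne => hne h)
            simp only [e2, zero_add, hcj] at e
            rcases mul_eq_zero.1 e with e3 | e3
            · exact absurd e3 h0.ne'
            · exact e3
        rintro (_ | k)
        · exact hnone
        · have e := hk k
          simpa only [hnone, mul_zero, add_zero] using e
      · intro k hk
        have hk0 : b k x = 0 := not_not.1 hk
        have e1 : w (some k) = 0 := hw (some k) (fun hne => hne (hb0 x hx k hk0).1)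
        show w (some k) + c k * w none = 0
        rw [e1, zero_add]
        rcases mul_eq_zero.1 (hb0 x hx k hk0).2 with h | h
        · rw [h, zero_mul]
        · rw [hw none (fun hne => hne h), mul_zero]
      · rw [Finset.sum_add_distrib, ← Finset.sum_mul, hsum1, one_mul, add_comm]
        exact hw1
      · have e : ∑ k, (w (some k) + c k * w none) • p k =
            ∑ k, w (some k) • p k + w none • ((1 - τ) • p i + τ • p j) := by
          rw [← hsc, Finset.smul_sum, ← Finset.sum_add_distrib]
          refine Finset.sum_congr rfl fun k _ => ?_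
          rw [add_smul, smul_smul, mul_comm (c k)]
        rw [e, add_comm]
        exact hw2
    · rintro (_ | k)
      · exact hD (hT.mem i) (hT.mem j) h1'.le h0.le (by ring)
      · exact hT.mem k
  · intro x hx k hne h
    exact hne (hb0 x hx k h).1
  · intro x hx hne
    exact ⟨fun h => hne (hNi0 x hx h), fun h => hne (hNj0 x hx h)⟩

end Pool.Agent.W_MP_27356f_gt
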