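import Pool.Agent.W_MP_27356f_gt.ShBasic

namespace Pool.Agent.W_MP_27356f_gt

variable {X : Type*} [NormedAddCommGroup X] [NormedSpace ℝ X] [FiniteDimensional ℝ X]

open Topology Filter

omit [NormedSpace ℝ X] [FiniteDimensional ℝ X] in
/-- A function between `s` and `t` which is locally `s` or `t` where `s < t` is continuous. -/
theorem step_cont {s t f : X → ℝ} (hs : Continuous s) (ht : Continuous t)
    (h1 : ∀ x, s x ≤ f x) (h2 : ∀ x, f x ≤ t x)
    (hloc : ∀ x, s x < t x → (f =ᶠ[𝓝 x] s ∨ f =ᶠ[𝓝 x] t)) : Continuous f := by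
  rw [continuous_iff_continuousAt]
  intro x
  rcases lt_or_ge (s x) (t x) with h | h
  · rcases hloc x h with h3 | h3
    · exact hs.continuousAt.congr h3.symm
    · exact ht.continuousAt.congr h3.symm
  · have e1 : f x = s x := le_antisymm ((h2 x).trans h) (h1 x)
    have e2 : f x = t x := le_antisymm (h2 x) (h.trans (h1 x))
    have l1 : Tendsto s (𝓝 x) (𝓝 (f x)) := by rw [e1]; exact hs.continuousAt
    have l2 : Tendsto t (𝓝 x) (𝓝 (f x)) := by rw [e2]; exact ht.continuousAt
    exact tendsto_of_tendsto_of_tendsto_of_le_of_le l1 l2 h1 h2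

/-- the slope of `G` between `s` and `t` -/
noncomputable def stepc (G : X × ℝ → ℝ) (s t : X → ℝ) (x : X) : ℝ :=
  (G (x, t x) - s x) / (t x - s x)

open Classical in
/-- the part of `t` where the slope is `l` -/
noncomputable def stept (G : X × ℝ → ℝ) (s t : X → ℝ) (l : ℝ) (x : X) : ℝ :=
  if s x < t x ∧ stepc G s t x = l then t x else s x

/-- the slopes are among finitely many numbers -/
theorem step_slopes {G : X × ℝ → ℝ} (hG : IsPL G) :
    ∃ Λ : Finset ℝ, ∀ (x : X) (a b c d : ℝ), a < b →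
      (∀ y, a ≤ y → y ≤ b → G (x, y) = d + c * (y - a)) → c ∈ Λ := by
  obtain ⟨-, A, hA, hAG⟩ := hG
  refine ⟨(hA.image fun L => L.linear (0, 1)).toFinset, ?_⟩
  intro x a b c d hab h
  choose! F hF1 hF2 using fun y : ℝ => hAG (x, y)
  obtain ⟨y1, hy1, y2, hy2, hne, heq⟩ :=
    (Set.Ioo_infinite hab).exists_ne_map_eq_of_mapsTo (f := F) (t := A)
      (fun y _ => hF1 y) hA
  rw [Set.Finite.mem_toFinset]
  refine ⟨F y1, hF1 y1, ?_⟩
  have e1 := (hF2 y1).symm.trans (h y1 hy1.1.le hy1.2.le)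
  have e2 := (hF2 y2).symm.trans (h y2 hy2.1.le hy2.2.le)
  rw [← heq] at e2
  have e3 : F y1 (x, y1) - F y1 (x, y2) = (F y1).linear ((x, y1) - (x, y2)) :=
    ((F y1).linearMap_vsub (x, y1) (x, y2)).symm
  have e4 : ((x, y1) - (x, y2) : X × ℝ) = (y1 - y2) • (0, 1) := by
    ext <;> simp
  rw [e4, map_smul, e1, e2, smul_eq_mul] at e3
  have e5 : (y1 - y2) * c = (y1 - y2) * (F y1).linear (0, 1) := by
    rw [← e3]; ring
  exact (mul_left_cancel₀ (sub_ne_zero.2 hne) e5).symm

theorem step_CS {G : X × ℝ → ℝ} (hG : IsPL G) {s t : X → ℝ} (hs : CS s) (ht : CS t)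
    (hst : ∀ x, s x ≤ t x) (Λ : Finset ℝ) (hΛ : ∀ x, s x < t x → stepc G s t x ∈ Λ) (l : ℝ) :
    CS (stept G s t l) := by
  classical
  obtain ⟨hs1, R, hR⟩ := hs
  obtain ⟨ht1, R', hR'⟩ := ht
  have hcont : Continuous (stept G s t l) := by
    refine step_cont hs1.1 ht1.1 ?_ ?_ ?_
    · intro x
      unfold stept
      split_ifs
      · exact hst x
      · exact le_rfl
    · intro x
      unfold stept
      split_ifs
      · exact le_rfl
      · exact hst x
    · intro x hx
      have hopen : ∀ᶠ y in 𝓝 x, s y < t y :=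
        (isOpen_lt hs1.1 ht1.1).mem_nhds hx
      have hcc : ContinuousAt (stepc G s t) x := by
        unfold stepc
        refine ContinuousAt.div ?_ ?_ (sub_ne_zero.2 hx.ne')
        · exact ((hG.1.comp (continuous_id.prodMk ht1.1)).sub hs1.1).continuousAt
        · exact (ht1.1.sub hs1.1).continuousAt
      have hev : ∀ᶠ y in 𝓝 x, stepc G s t y = stepc G s t x := by
        have hfin : IsClosed ((Λ.erase (stepc G s t x) : Finset ℝ) : Set ℝ) :=
          (Finset.finite_toSet _).isClosed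
        have hmem : ((Λ.erase (stepc G s t x) : Finset ℝ) : Set ℝ)ᶜ ∈ 𝓝 (stepc G s t x) :=
          hfin.isOpen_compl.mem_nhds (by simp)
        filter_upwards [hcc hmem, hopen] with y hy1 hy2
        by_contra hne
        exact hy1 (by
          simp only [Finset.coe_erase, Set.mem_sdiff, Finset.mem_coe, Set.mem_singleton_iff]
          exact ⟨hΛ y hy2, hne⟩)
      by_cases hl : stepc G s t x = l
      · right
        filter_upwards [hev, hopen] with y hy1 hy2
        unfold stept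
        rw [if_pos ⟨hy2, hy1.trans hl⟩]
      · left
        filter_upwards [hev] with y hy1
        unfold stept
        rw [if_neg fun h => hl (hy1.symm.trans h.2)]
  refine ⟨IsPL.select ht1 hs1 hcont fun x => ?_, max R R', fun x hx => ?_⟩
  · unfold stept
    split_ifs
    · exact Or.inl rfl
    · exact Or.inr rfl
  · unfold stept
    rw [hR x ((le_max_left _ _).trans hx), hR' x ((le_max_right _ _).trans hx)]
    simp

theorem step_prod {G : X × ℝ → ℝ} (hG : IsPL G) {s t : X → ℝ} (hs : CS s) (ht : CS t)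
    (hst : ∀ x, s x ≤ t x) (Λ : Finset ℝ) (hΛ : ∀ x, s x < t x → stepc G s t x ∈ Λ)
    (F : Finset ℝ) (hF : ∀ l ∈ F, 0 < l) :
    ∃ e ∈ Subgroup.closure (EEset X), e ∈ Lin X ∧
      ∀ x, (s x < t x → stepc G s t x ∈ F →
          (∀ y, y ≤ s x → e (x, y) = (x, y)) ∧
          (∀ y, s x ≤ y → y ≤ t x → e (x, y) = (x, s x + stepc G s t x * (y - s x))) ∧
          (∀ y, t x ≤ y → e (x, y) = (x, y + (stepc G s t x - 1) * (t x - s x)))) ∧
        (¬ (s x < t x ∧ stepc G s t x ∈ F) → ∀ y, e (x, y) = (x, y)) := by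
  classical
  induction F using Finset.induction_on with
  | empty =>
    refine ⟨1, Subgroup.one_mem _, Subgroup.one_mem _, fun x => ⟨fun _ h => ?_, fun _ y => rfl⟩⟩
    simp at h
  | insert l F hl ih =>
    obtain ⟨e, he1, he2, he3⟩ := ih fun l' hl' => hF l' (Finset.mem_insert_of_mem hl')
    have hl0 : 0 < l := hF l (Finset.mem_insert_self _ _)
    have hCS := step_CS hG hs ht hst Λ hΛ l
    have hmem : EE s (stept G s t l) l ∈ EEset X := ⟨s, _, l, hs, hCS, hl0, rfl⟩
    refine ⟨EE s (stept G s t l) l * e,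
      Subgroup.mul_mem _ (Subgroup.subset_closure hmem) he1,
      Subgroup.mul_mem _ (EE_mem _ _ _) he2, fun x => ?_⟩
    by_cases hx : s x < t x ∧ stepc G s t x = l
    · -- the new factor acts
      have ht' : stept G s t l x = t x := by
        unfold stept; rw [if_pos hx]
      have hid : ∀ y, e (x, y) = (x, y) := by
        refine (he3 x).2 ?_
        rintro ⟨-, h⟩
        rw [hx.2] at h
        exact hl h
      refine ⟨fun _ _ => ⟨fun y hy => ?_, fun y hy hy' => ?_, fun y hy => ?_⟩, fun h => ?_⟩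
      · rw [Homeomorph.mul_apply, hid,
          EE_apply_le hs.1 hCS.1 hl0 (by rw [ht']; exact hst x) hy]
      · rw [Homeomorph.mul_apply, hid,
          EE_apply_mid hs.1 hCS.1 hl0 hy (by rw [ht']; exact hy'), hx.2]
      · rw [Homeomorph.mul_apply, hid,
          EE_apply_ge hs.1 hCS.1 hl0 (by rw [ht']; exact hst x) (by rw [ht']; exact hy), ht', hx.2]
      · exact absurd ⟨hx.1, by rw [hx.2]; exact Finset.mem_insert_self _ _⟩ h
    · -- the new factor is the identity
      have ht' : s x = stept G s t l x := by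
        unfold stept; rw [if_neg hx]
      have hid : ∀ y, EE s (stept G s t l) l (x, y) = (x, y) := fun y =>
        EE_apply_eq hs.1 hCS.1 hl0 ht'
      have hiff : (s x < t x ∧ stepc G s t x ∈ insert l F) ↔ (s x < t x ∧ stepc G s t x ∈ F) := by
        constructor
        · rintro ⟨h1, h2⟩
          rcases Finset.mem_insert.1 h2 with h3 | h3
          · exact absurd ⟨h1, h3⟩ hx
          · exact ⟨h1, h3⟩
        · rintro ⟨h1, h2⟩
          exact ⟨h1, Finset.mem_insert_of_mem h2⟩
      refine ⟨fun h1 h2 => ?_, fun h => ?_⟩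
      · obtain ⟨h3, h4, h5⟩ := (he3 x).1 h1 (hiff.1 ⟨h1, h2⟩).2
        refine ⟨fun y hy => ?_, fun y hy hy' => ?_, fun y hy => ?_⟩
        · rw [Homeomorph.mul_apply, h3 y hy, hid]
        · rw [Homeomorph.mul_apply, h4 y hy hy', hid]
        · rw [Homeomorph.mul_apply, h5 y hy, hid]
      · intro y
        rw [Homeomorph.mul_apply, (he3 x).2 (fun h' => h (hiff.2 h')) y, hid]

/-- T7 Step: one step of the factorization. -/
theorem exists_step {g : X × ℝ ≃ₜ X × ℝ} (hg : g ∈ Lin X) {s t : X → ℝ} (hs : CS s) (ht : CS t)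
    (hst : ∀ x, s x ≤ t x) (h1 : ∀ x y, y ≤ s x → (g (x, y)).2 = y)
    (h2 : ∀ x, ∃ c : ℝ, ∀ y, s x ≤ y → y ≤ t x → (g (x, y)).2 = (g (x, s x)).2 + c * (y - s x)) :
    ∃ e ∈ Subgroup.closure (EEset X), e ∈ Lin X ∧ ∃ c : X → ℝ, CS c ∧
      (∀ x y, y ≤ t x → e (x, y) = g (x, y)) ∧
      (∀ x y, t x ≤ y → e (x, y) = (x, y + c x)) := by
  classical
  obtain ⟨hg1, hg2, hg3⟩ := mem_Lin.1 hg
  have hG : IsPL (fun z : X × ℝ => (g z).2) := isPL_snd.comp hg1
  set G : X × ℝ → ℝ := fun z => (g z).2 with hGdef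
  have hgG : ∀ x y, g (x, y) = (x, G (x, y)) := fun x y => Prod.ext (hg2 (x, y)) rfl
  have h1' : ∀ x y, y ≤ s x → G (x, y) = y := h1
  have hGs : ∀ x, G (x, s x) = s x := fun x => h1 x (s x) le_rfl
  -- the slope
  have hc : ∀ x, s x < t x → ∀ y, s x ≤ y → y ≤ t x →
      G (x, y) = s x + stepc G s t x * (y - s x) := by
    intro x hx
    obtain ⟨c, hc⟩ := h2 x
    have e1 : ∀ y, s x ≤ y → y ≤ t x → G (x, y) = s x + c * (y - s x) := by
      intro y hy hy'
      have := hc y hy hy'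
      have h3 := hGs x
      simp only [hGdef] at h3 ⊢
      rw [this, h3]
    have e2 : stepc G s t x = c := by
      unfold stepc
      rw [e1 (t x) hx.le le_rfl, div_eq_iff (sub_ne_zero.2 hx.ne')]
      ring
    rw [e2]; exact e1
  obtain ⟨Λ, hΛ⟩ := step_slopes hG
  have hΛ' : ∀ x, s x < t x → stepc G s t x ∈ Λ := fun x hx =>
    hΛ x (s x) (t x) (stepc G s t x) (s x) hx (hc x hx)
  have hpos : ∀ x, s x < t x → 0 < stepc G s t x := by
    intro x hx
    unfold stepc
    refine div_pos ?_ (sub_pos.2 hx)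
    have := hg3 x hx
    have h3 := hGs x
    simp only [hGdef] at h3 ⊢
    linarith
  obtain ⟨e, he1, he2, he3⟩ := step_prod hG hs ht hst Λ hΛ' (Λ.filter fun l => 0 < l)
    (fun l hl => (Finset.mem_filter.1 hl).2)
  have hmemF : ∀ x, s x < t x → stepc G s t x ∈ Λ.filter fun l => 0 < l := fun x hx =>
    Finset.mem_filter.2 ⟨hΛ' x hx, hpos x hx⟩
  refine ⟨e, he1, he2, fun x => G (x, t x) - t x, ?_, ?_, ?_⟩
  · obtain ⟨hs1, R, hR⟩ := hs
    obtain ⟨ht1, R', hR'⟩ := ht
    refine ⟨(hG.comp (isPL_id.prodMk ht1)).sub ht1, max R R', fun x hx => ?_⟩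
    have e1 := hR x ((le_max_left _ _).trans hx)
    have e2 := hR' x ((le_max_right _ _).trans hx)
    have e3 := hGs x
    rw [e1] at e3
    simp only [e2]
    rw [e3]; ring
  · intro x y hy
    rcases lt_or_ge (s x) (t x) with hx | hx
    · obtain ⟨h3, h4, -⟩ := (he3 x).1 hx (hmemF x hx)
      rcases le_total y (s x) with h | h
      · rw [h3 y h, hgG, h1' x y h]
      · rw [h4 y h hy, hgG, hc x hx y h hy]
    · rw [(he3 x).2 (fun h => absurd h.1 (not_lt.2 hx)) y, hgG, h1' x y (hy.trans hx)]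
  · intro x y hy
    rcases lt_or_ge (s x) (t x) with hx | hx
    · obtain ⟨-, -, h5⟩ := (he3 x).1 hx (hmemF x hx)
      rw [h5 y hy]
      have h6 : (stepc G s t x - 1) * (t x - s x) = G (x, t x) - t x := by
        rw [hc x hx (t x) hx.le le_rfl]
        ring
      rw [h6]
    · have e1 : t x = s x := le_antisymm hx (hst x)
      rw [(he3 x).2 (fun h => absurd h.1 (not_lt.2 hx)) y]
      simp only [e1]
      rw [hGs x]
      simp

end Pool.Agent.W_MP_27356f_gt
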