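import Pool.Agent.W_MP_27356f_gt.Mono
import Pool.Agent.W_MP_27356f_gt.Lip

namespace Pool.Agent.W_MP_27356f_gt

theorem straight_comm_le {n : ℕ} : ⁅PLc (Fin n → ℝ), PLc (Fin n → ℝ)⁆ ≤ PLc (Fin n → ℝ) := by
  rw [Subgroup.commutator_le]
  intro a ha b hb
  rw [commutatorElement_def]
  exact mul_mem (mul_mem (mul_mem ha hb) (inv_mem ha)) (inv_mem hb)

theorem straight_sum_pos {n : ℕ} {d u : Fin n → ℝ} (hd : d ≠ 0) {q : ℝ}
    (hu : ‖u‖ ≤ q * ‖d‖) (hq : (n : ℝ) * q < 1) : 0 < ∑ i, (d i + u i) * d i := by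
  have hd0 : 0 < ‖d‖ := norm_pos_iff.mpr hd
  have h1 : ‖d‖ ^ 2 ≤ ∑ i, d i ^ 2 := by
    obtain ⟨i, hi⟩ : ∃ i, ‖d i‖ = ‖d‖ := by
      by_contra hcon
      push Not at hcon
      have hn : ∀ i, ‖d i‖ < ‖d‖ := fun i => lt_of_le_of_ne (norm_le_pi_norm d i) (hcon i)
      exact lt_irrefl _ ((pi_norm_lt_iff hd0).mpr hn)
    rw [← hi, Real.norm_eq_abs, sq_abs]
    exact Finset.single_le_sum (f := fun i => d i ^ 2) (fun i _ => sq_nonneg _) (Finset.mem_univ i)
  have h2 : ∀ i, -(‖u‖ * ‖d‖) ≤ u i * d i := fun i => by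
    have h3 : |u i * d i| ≤ ‖u‖ * ‖d‖ := by
      rw [abs_mul]
      exact mul_le_mul (norm_le_pi_norm u i) (norm_le_pi_norm d i) (abs_nonneg _) (norm_nonneg _)
    exact (abs_le.mp h3).1
  have h3 : -((n : ℝ) * (‖u‖ * ‖d‖)) ≤ ∑ i, u i * d i := by
    have := Finset.sum_le_sum (s := Finset.univ) (fun i _ => h2 i)
    simpa using this
  have h4 : ∑ i, (d i + u i) * d i = ∑ i, d i ^ 2 + ∑ i, u i * d i := by
    rw [← Finset.sum_add_distrib]
    exact Finset.sum_congr rfl fun i _ => by ring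
  have h5 : (n : ℝ) * (‖u‖ * ‖d‖) ≤ (n : ℝ) * q * ‖d‖ ^ 2 := by
    have : ‖u‖ * ‖d‖ ≤ q * ‖d‖ * ‖d‖ := mul_le_mul_of_nonneg_right hu (norm_nonneg _)
    calc (n : ℝ) * (‖u‖ * ‖d‖) ≤ n * (q * ‖d‖ * ‖d‖) :=
          mul_le_mul_of_nonneg_left this (Nat.cast_nonneg _)
      _ = _ := by ring
  have h6 : (n : ℝ) * q * ‖d‖ ^ 2 < 1 * ‖d‖ ^ 2 :=
    mul_lt_mul_of_pos_right hq (pow_pos hd0 2)
  rw [h4]
  linarith

/-- T19 Straight: two elements joined by a straight line isotopy -/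
theorem straight_mem {n : ℕ} {f g : (Fin n → ℝ) ≃ₜ (Fin n → ℝ)} (hf : f ∈ PLc (Fin n → ℝ))
    (hg : g ∈ PLc (Fin n → ℝ)) {c : ℝ} (hc : 0 < c)
    (h : ∀ t : ℝ, 0 ≤ t → t ≤ 1 → ∀ x y,
      c * ‖x - y‖ ≤ ‖(1 - t) • (g x - g y) + t • (f x - f y)‖) :
    f * g⁻¹ ∈ ⁅PLc (Fin n → ℝ), PLc (Fin n → ℝ)⁆ := by
  have hfg : IsPL (fun x => f x - g x) := hf.1.sub hg.1
  obtain ⟨Λ, hΛ0, hΛ⟩ := hfg.exists_lipschitz
  obtain ⟨Kf, hKf, hKf'⟩ := hf.2
  obtain ⟨Kg, hKg, hKg'⟩ := hg.2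
  have hzero : ∀ x, x ∉ Kf ∪ Kg → f x - g x = 0 := by
    intro x hx
    rw [Set.mem_union, not_or] at hx
    rw [hKf' x hx.1, hKg' x hx.2, sub_self]
  obtain ⟨N, hN⟩ := exists_nat_gt ((n : ℝ) * Λ / c)
  have hN0 : (0 : ℝ) < N := lt_of_le_of_lt (by positivity) hN
  have hq : (n : ℝ) * (Λ / (N * c)) < 1 := by
    rw [div_lt_iff₀ hc] at hN
    rw [← mul_div_assoc, div_lt_one (by positivity)]
    exact hN
  have key : ∀ k : ℕ, k ≤ N → ∃ a ∈ ⁅PLc (Fin n → ℝ), PLc (Fin n → ℝ)⁆,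
      ∀ x, a (g x) = g x + ((k : ℝ) / N) • (f x - g x) := by
    intro k
    induction k with
    | zero =>
      intro _
      exact ⟨1, one_mem _, fun x => by simp⟩
    | succ k ih =>
      intro hk
      obtain ⟨a, ha, hax⟩ := ih (by omega)
      have haG : a * g ∈ PLc (Fin n → ℝ) := mul_mem (straight_comm_le ha) hg
      have hG : ∀ x, (a * g) x = g x + ((k : ℝ) / N) • (f x - g x) := fun x => by
        rw [Homeomorph.mul_apply, hax]
      have hm : IsPL (fun y => y + (1 / (N : ℝ)) • (f ((a * g).symm y) - g ((a * g).symm y))) :=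
        isPL_id.add ((hfg.comp (isPL_symm (a * g) haG.1)).smul _)
      have hK : IsCompact ((a * g) '' (Kf ∪ Kg)) := (hKf.union hKg).image (a * g).continuous
      have hmK : ∀ y, y ∉ (a * g) '' (Kf ∪ Kg) →
          y + (1 / (N : ℝ)) • (f ((a * g).symm y) - g ((a * g).symm y)) = y := by
        intro y hy
        have : (a * g).symm y ∉ Kf ∪ Kg := fun hcon =>
          hy ⟨_, hcon, (a * g).apply_symm_apply y⟩
        rw [hzero _ this, smul_zero, add_zero]
      have hmono : ∀ x y, x ≠ y → 0 < ∑ i,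
          ((x + (1 / (N : ℝ)) • (f ((a * g).symm x) - g ((a * g).symm x))) i -
            (y + (1 / (N : ℝ)) • (f ((a * g).symm y) - g ((a * g).symm y))) i) * (x i - y i) := by
        intro x y hxy
        obtain ⟨x', rfl⟩ := (a * g).surjective x
        obtain ⟨y', rfl⟩ := (a * g).surjective y
        simp only [Homeomorph.symm_apply_apply]
        have h1 := straight_sum_pos (d := (a * g) x' - (a * g) y')
          (u := (1 / (N : ℝ)) • ((f x' - g x') - (f y' - g y'))) (q := Λ / (N * c))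
          (sub_ne_zero.mpr hxy) ?_ hq
        · refine h1.trans_eq (Finset.sum_congr rfl fun i _ => ?_)
          simp only [Pi.add_apply, Pi.sub_apply, Pi.smul_apply, smul_eq_mul]
          ring
        · have h2 := h ((k : ℝ) / N) (by positivity)
            (by rw [div_le_one hN0]; exact_mod_cast (by omega : k ≤ N)) x' y'
          have h3 : (1 - (k : ℝ) / N) • (g x' - g y') + ((k : ℝ) / N) • (f x' - f y') =
              (a * g) x' - (a * g) y' := by
            rw [hG, hG]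
            module
          rw [h3] at h2
          have h4 := hΛ x' y'
          rw [norm_smul, Real.norm_of_nonneg (by positivity : (0 : ℝ) ≤ 1 / N)]
          calc (1 / (N : ℝ)) * ‖f x' - g x' - (f y' - g y')‖ ≤ (1 / N) * (Λ * ‖x' - y'‖) :=
                mul_le_mul_of_nonneg_left h4 (by positivity)
            _ = Λ / (N * c) * (c * ‖x' - y'‖) := by
                field_simp
            _ ≤ _ := mul_le_mul_of_nonneg_left h2 (by positivity)
      obtain ⟨b, hb, hbx⟩ := mono_mem hm hmono hK hmK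
      refine ⟨b * a, mul_mem hb ha, fun x => ?_⟩
      have h5 : (b * a) (g x) = b ((a * g) x) := rfl
      rw [h5, hbx, Homeomorph.symm_apply_apply, hG]
      push_cast
      module
  obtain ⟨a, ha, hax⟩ := key N le_rfl
  have : a * g = f := by
    ext1 x
    rw [Homeomorph.mul_apply, hax, div_self hN0.ne']
    module
  rw [← this, mul_inv_cancel_right]
  exact ha

end Pool.Agent.W_MP_27356f_gt
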