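import Pool.Agent.W_MP_27356f_gt.Defs

namespace Pool.Agent.W_MP_27356f_gt

variable {E : Type*} [NormedAddCommGroup E] [NormedSpace ℝ E]

/-- The functions `b i` are barycentric coordinates for a triangulation of `D` with vertices
`p i`: every point of `D` is the barycentre of its active vertices (those with `b i x ≠ 0`),
which are affinely independent. -/
structure IsTri {κ : Type} [Fintype κ] (p : κ → E) (b : κ → E → ℝ) (D : Set E) : Prop where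
  pl : ∀ i, IsPL (b i)
  nonneg : ∀ i, ∀ x ∈ D, 0 ≤ b i x
  sum_eq : ∀ x ∈ D, ∑ i, b i x = 1
  rep : ∀ x ∈ D, ∑ i, b i x • p i = x
  ind : ∀ x ∈ D, AffineIndependent ℝ (fun i : {i // b i x ≠ 0} => p i)
  mem : ∀ i, p i ∈ D

/-- no simplex crosses the hyperplane `ℓ = 0` -/
def NC {κ : Type} [Fintype κ] (p : κ → E) (b : κ → E → ℝ) (D : Set E) (ℓ : E →ᵃ[ℝ] ℝ) : Prop :=
  ∀ x ∈ D, (∀ i, b i x ≠ 0 → 0 ≤ ℓ (p i)) ∨ (∀ i, b i x ≠ 0 → ℓ (p i) ≤ 0)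

/-- the simplex with `x i ≥ -R` and `∑ x i ≤ R` -/
def simp (n : ℕ) (R : ℝ) : Set (Fin n → ℝ) := {x | (∀ i, -R ≤ x i) ∧ ∑ i, x i ≤ R}

/-- the `k`-th coordinate of the difference of two affine maps -/
def coordDiff {n : ℕ} (L L' : (Fin n → ℝ) →ᵃ[ℝ] (Fin n → ℝ)) (k : Fin n) :
    (Fin n → ℝ) →ᵃ[ℝ] ℝ :=
  (LinearMap.proj (R := ℝ) (φ := fun _ : Fin n => ℝ) k).toAffineMap.comp (L - L')

theorem coordDiff_apply {n : ℕ} (L L' : (Fin n → ℝ) →ᵃ[ℝ] (Fin n → ℝ)) (k : Fin n)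
    (x : Fin n → ℝ) : coordDiff L L' k x = L x k - L' x k := rfl

/-- a point with rational coordinates -/
def IsRatPt {n : ℕ} (x : Fin n → ℝ) : Prop := ∀ i, ∃ r : ℚ, x i = r

/-- an affine map with rational coefficients -/
def IsRatAff {n : ℕ} (L : (Fin n → ℝ) →ᵃ[ℝ] (Fin n → ℝ)) : Prop :=
  ∀ x, IsRatPt x → IsRatPt (L x)

end Pool.Agent.W_MP_27356f_gt
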